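import Pool.Agent.CB9.Pos

/-!
The classification of the patterns of permutations, given the negative result for `120`.
-/

namespace Pool.Agent.CB9.Class

open Pool.Agent.CB9 Pool.Agent.CB9.Pos

/-- Complement of the colours of a pattern. -/
def compl {ℓ : ℕ} (p : Fin ℓ → Fin ℓ → Bool) : Fin ℓ → Fin ℓ → Bool := fun i j => !p i j

theorem reduces_compl {ℓ : ℕ} {p : Fin ℓ → Fin ℓ → Bool} (h : Reduces p) :
    Reduces (compl p) := by
  intro f
  obtain ⟨g, hg, hG⟩ := h f
  refine ⟨fun x y => !g x y, ?_, fun G hinf hav => hG G hinf ?_⟩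
  · rw [RecursiveIn.iff_nat] at hg ⊢
    have h1 : CB {orc (code f)} (code g) := hg
    have h2 : CB {orc (code f)} (code fun x y => !g x y) :=
      (CB.and (CB.lt C.id.left C.id.right) (CB.not h1)).of_eq fun n => by
        simp only [code]
        by_cases h : n.unpair.1 < n.unpair.2 <;> simp [h]
    exact h2
  · rintro ⟨x, hx1, hx2, hx3⟩
    exact hav ⟨x, hx1, hx2, fun i j hij => by
      rw [compl, ← hx3 i j hij]⟩

theorem reduces_congr {ℓ : ℕ} {p q : Fin ℓ → Fin ℓ → Bool} (hpq : ∀ i j, i < j → p i j = q i j)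
    (h : Reduces p) : Reduces q := by
  intro f
  obtain ⟨g, hg, hG⟩ := h f
  refine ⟨g, hg, fun G hinf hav => hG G hinf ?_⟩
  rintro ⟨x, hx1, hx2, hx3⟩
  exact hav ⟨x, hx1, hx2, fun i j hij => by rw [hx3 i j hij, hpq i j hij]⟩

theorem reduces_of_contains {σ π : List ℕ} (h : Contains σ π) (hr : Reduces (pat π)) :
    Reduces (pat σ) := by
  obtain ⟨e, he1, he2⟩ := h
  intro f
  obtain ⟨g, hg, hG⟩ := hr f
  refine ⟨g, hg, fun G hinf hav => hG G hinf ?_⟩
  rintro ⟨x, hx1, hx2, hx3⟩
  exact hav ⟨fun i => x (e i), hx1.comp he1, fun i => hx2 _, fun i j hij => by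
    rw [hx3 _ _ (he1 hij), he2 i j hij]⟩

theorem compl_102 : ∀ i j, i < j → compl (pat [1, 0, 2]) i j = pat [1, 2, 0] i j := by
  decide

theorem contains_of_lt {π : List ℕ} {σ : List ℕ} (hσ : σ.length = 3) (i j k : Fin π.length)
    (hij : i < j) (hjk : j < k)
    (h01 : pat π i j = pat σ ⟨0, by omega⟩ ⟨1, by omega⟩)
    (h02 : pat π i k = pat σ ⟨0, by omega⟩ ⟨2, by omega⟩)
    (h12 : pat π j k = pat σ ⟨1, by omega⟩ ⟨2, by omega⟩) : Contains σ π := by
  refine ⟨fun u => if u.val = 0 then i else if u.val = 1 then j else k, ?_, ?_⟩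
  · intro u v huv
    have hu := u.isLt
    have hv := v.isLt
    have huv' : u.val < v.val := huv
    rcases (by omega : (u.val = 0 ∧ v.val = 1) ∨ (u.val = 0 ∧ v.val = 2) ∨
      (u.val = 1 ∧ v.val = 2)) with ⟨h1, h2⟩ | ⟨h1, h2⟩ | ⟨h1, h2⟩
    · simpa [h1, h2] using hij
    · simpa [h1, h2] using hij.trans hjk
    · simpa [h1, h2] using hjk
  · intro u v huv
    have hu := u.isLt
    have hv := v.isLt
    have huv' : u.val < v.val := huv
    rcases (by omega : (u.val = 0 ∧ v.val = 1) ∨ (u.val = 0 ∧ v.val = 2) ∨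
      (u.val = 1 ∧ v.val = 2)) with ⟨h1, h2⟩ | ⟨h1, h2⟩ | ⟨h1, h2⟩
    · have e1 : u = ⟨0, by omega⟩ := Fin.ext h1
      have e2 : v = ⟨1, by omega⟩ := Fin.ext h2
      rw [e1, e2]
      simpa using h01
    · have e1 : u = ⟨0, by omega⟩ := Fin.ext h1
      have e2 : v = ⟨2, by omega⟩ := Fin.ext h2
      rw [e1, e2]
      simpa using h02
    · have e1 : u = ⟨1, by omega⟩ := Fin.ext h1
      have e2 : v = ⟨2, by omega⟩ := Fin.ext h2
      rw [e1, e2]
      simpa using h12

theorem rows {π : List ℕ} (h1 : ¬ Contains [1, 2, 0] π) (h2 : ¬ Contains [1, 0, 2] π) :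
    ∀ i j k, i < j → i < k → pat π i j = pat π i k := by
  have key : ∀ i j k, i < j → j < k → pat π i j = pat π i k := by
    intro i j k hij hjk
    by_contra hne
    by_cases h3 : π.get i < π.get j
    · by_cases h4 : π.get i < π.get k
      · exact hne (by simp only [pat, if_pos h3, if_pos h4])
      · refine h1 (contains_of_lt rfl i j k hij hjk ?_ ?_ ?_)
        · simp only [pat, if_pos h3]
          rfl
        · simp only [pat, if_neg h4]
          rfl
        · have h5 : ¬ π.get j < π.get k := by omega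
          simp only [pat, if_neg h5]
          rfl
    · by_cases h4 : π.get i < π.get k
      · refine h2 (contains_of_lt rfl i j k hij hjk ?_ ?_ ?_)
        · simp only [pat, if_neg h3]
          rfl
        · simp only [pat, if_pos h4]
          rfl
        · have h5 : π.get j < π.get k := by omega
          simp only [pat, if_pos h5]
          rfl
      · exact hne (by simp only [pat, if_neg h3, if_neg h4])
  intro i j k hij hik
  rcases lt_trichotomy j k with h | rfl | h
  · exact key i j k hij h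
  · rfl
  · exact (key i k j hik h).symm

/-- The classification, given the negative result for `120`. -/
theorem classification (hneg : ¬ Reduces (pat [1, 2, 0])) (π : List ℕ) :
    Reduces (pat π) ↔ ¬ Contains [1, 2, 0] π ∧ ¬ Contains [1, 0, 2] π := by
  constructor
  · intro h
    refine ⟨fun h1 => hneg (reduces_of_contains h1 h), fun h1 => hneg ?_⟩
    exact reduces_congr compl_102 (reduces_compl (reduces_of_contains h1 h))
  · rintro ⟨h1, h2⟩
    exact targetPos _ _ (rows h1 h2)

end Pool.Agent.CB9.Class
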