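import Pool.Agent.CB9.Defs

/-!
MP_cb9c95_lc, job CB9-CLONE: closure of a countable set of open families under countably
many operations.
-/

namespace Pool.Agent.CB9.Clone

open Set TopologicalSpace

/-- Union of two families. -/
def opU (p : Fam × Fam) : Fam := fun a => p.1 a ∪ p.2 a

/-- Restriction to assignments with domain in `[n, ∞)`. -/
def opF (p : ℕ × Fam) : Fam := fun a => {Y | Far p.1 a ∧ Y ∈ p.2 a}

/-- Pull back by the left half. -/
def opL (U : Fam) : Fam := fun a => {Y | L Y ∈ U a}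

/-- Pull back by reassociation. -/
def opA (U : Fam) : Fam := fun a => {Y | J (J (L Y) (L (R Y))) (R (R Y)) ∈ U a}

/-- Pull back by a map applied to the left half. -/
def opC (p : (Om → Om) × Fam) : Fam := fun a => {Y | J (p.1 (L Y)) (R Y) ∈ p.2 a}

/-- Universal projection. -/
def opP (U : Fam) : Fam := fun _ => {Y | ∀ γ, ∃ a, J Y γ ∈ U a}

/-- One closure step. -/
def step (T : Set (Om → Om)) (F : Set Fam) : Set Fam :=
  F ∪ (opU '' (F ×ˢ F) ∪ (opF '' (univ ×ˢ F) ∪ (opL '' F ∪ (opA '' F ∪ (opC '' (T ×ˢ F) ∪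
    opP '' F)))))

/-- The starting level. -/
def base (B : Set Fam) : Set Fam :=
  B ∪ (fun (C : Clopens Om) (_ : Asg) => (C : Set Om)) '' univ

/-- The levels. -/
def lev (T : Set (Om → Om)) (B : Set Fam) : ℕ → Set Fam
  | 0 => base B
  | k + 1 => step T (lev T B k)

theorem step_countable {T : Set (Om → Om)} {F : Set Fam} (hT : T.Countable)
    (hF : F.Countable) : (step T F).Countable := by
  unfold step
  refine hF.union (Countable.union ?_ (Countable.union ?_ (Countable.union ?_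
    (Countable.union ?_ (Countable.union ?_ ?_)))))
  · exact (hF.prod hF).image _
  · exact (countable_univ.prod hF).image _
  · exact hF.image _
  · exact hF.image _
  · exact (hT.prod hF).image _
  · exact hF.image _

theorem clopens_countable : Countable (Clopens Om) := by
  rw [Clopens.countable_iff_secondCountable]
  infer_instance

theorem lev_countable {T : Set (Om → Om)} {B : Set Fam} (hT : T.Countable)
    (hB : B.Countable) : ∀ k, (lev T B k).Countable
  | 0 => by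
    have := clopens_countable
    exact hB.union (countable_univ.image _)
  | k + 1 => step_countable hT (lev_countable hT hB k)

theorem isOpen_proj {U : Fam} (hU : ∀ a, IsOpen (U a)) :
    IsOpen {Y : Om | ∀ γ, ∃ a, J Y γ ∈ U a} := by
  have h1 : IsOpen {p : Om × Om | ∃ a, J p.1 p.2 ∈ U a} := by
    have : {p : Om × Om | ∃ a, J p.1 p.2 ∈ U a} = ⋃ a, (fun p : Om × Om => J p.1 p.2) ⁻¹' U a := by
      ext p
      simp
    rw [this]
    exact isOpen_iUnion fun a => (hU a).preimage continuous_J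
  have h2 : IsClosed (Prod.fst '' {p : Om × Om | ∃ a, J p.1 p.2 ∈ U a}ᶜ) :=
    isClosedMap_fst_of_compactSpace _ h1.isClosed_compl
  have h3 : {Y : Om | ∀ γ, ∃ a, J Y γ ∈ U a}
      = (Prod.fst '' {p : Om × Om | ∃ a, J p.1 p.2 ∈ U a}ᶜ)ᶜ := by
    ext Y
    constructor
    · rintro h ⟨⟨Y', γ⟩, hp, rfl⟩
      exact hp (h γ)
    · intro h γ
      by_contra hc
      exact h ⟨(Y, γ), hc, rfl⟩
  rw [h3]
  exact h2.isOpen_compl

theorem step_open {T : Set (Om → Om)} {F : Set Fam} (hT : ∀ θ ∈ T, Continuous θ)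
    (hF : ∀ U ∈ F, ∀ a, IsOpen (U a)) : ∀ U ∈ step T F, ∀ a, IsOpen (U a) := by
  intro U hU a
  rcases hU with hU | hU | hU | hU | hU | hU | hU
  · exact hF U hU a
  · obtain ⟨⟨V, W⟩, ⟨hV, hW⟩, rfl⟩ := hU
    exact (hF V hV a).union (hF W hW a)
  · obtain ⟨⟨n, V⟩, ⟨-, hV⟩, rfl⟩ := hU
    by_cases h : Far n a
    · have : opF (n, V) a = V a := by
        ext Y
        simp [opF, h]
      rw [this]
      exact hF V hV a
    · have : opF (n, V) a = ∅ := by
        ext Y
        simp [opF, h]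
      rw [this]
      exact isOpen_empty
  · obtain ⟨V, hV, rfl⟩ := hU
    exact (hF V hV a).preimage continuous_L
  · obtain ⟨V, hV, rfl⟩ := hU
    refine (hF V hV a).preimage ?_
    have hL : Continuous fun Y : Om => J (L Y) (L (R Y)) :=
      continuous_J.comp (continuous_L.prodMk (continuous_L.comp continuous_R))
    exact continuous_J.comp (hL.prodMk (continuous_R.comp continuous_R))
  · obtain ⟨⟨θ, V⟩, ⟨hθ, hV⟩, rfl⟩ := hU
    refine (hF V hV a).preimage ?_
    exact continuous_J.comp (((hT θ hθ).comp continuous_L).prodMk continuous_R)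
  · obtain ⟨V, hV, rfl⟩ := hU
    exact isOpen_proj (hF V hV)

theorem lev_open {T : Set (Om → Om)} {B : Set Fam} (hT : ∀ θ ∈ T, Continuous θ)
    (hB : ∀ U ∈ B, ∀ a, IsOpen (U a)) : ∀ k, ∀ U ∈ lev T B k, ∀ a, IsOpen (U a)
  | 0 => by
    intro U hU a
    rcases hU with hU | ⟨C, -, rfl⟩
    · exact hB U hU a
    · exact C.isClopen.isOpen
  | k + 1 => step_open hT (lev_open hT hB k)

theorem lev_mono_succ (T : Set (Om → Om)) (B : Set Fam) (k : ℕ) :
    lev T B k ⊆ lev T B (k + 1) := subset_union_left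

theorem lev_mono (T : Set (Om → Om)) (B : Set Fam) : Monotone (lev T B) :=
  monotone_nat_of_le_succ (lev_mono_succ T B)

/-- **Existence of clones.** -/
theorem targetClone : TargetClone := by
  intro T B hTc hT hBc hB
  refine ⟨⋃ k, lev T B k, ?_, ?_⟩
  · exact fun U hU => mem_iUnion.2 ⟨0, Or.inl hU⟩
  refine
    { countable := countable_iUnion (lev_countable hTc hBc)
      isOpen := ?_
      clopen := ?_
      union := ?_
      far := ?_
      left := ?_
      assoc := ?_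
      comp := ?_
      proj := ?_ }
  · intro U hU a
    obtain ⟨k, hk⟩ := mem_iUnion.1 hU
    exact lev_open hT hB k U hk a
  · intro C hC
    exact mem_iUnion.2 ⟨0, Or.inr ⟨⟨C, hC⟩, mem_univ _, rfl⟩⟩
  · intro U hU V hV
    obtain ⟨k, hk⟩ := mem_iUnion.1 hU
    obtain ⟨m, hm⟩ := mem_iUnion.1 hV
    refine mem_iUnion.2 ⟨max k m + 1, Or.inr (Or.inl ⟨(U, V), ⟨?_, ?_⟩, rfl⟩)⟩
    · exact lev_mono T B (le_max_left k m) hk
    · exact lev_mono T B (le_max_right k m) hm
  · intro n V hV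
    obtain ⟨k, hk⟩ := mem_iUnion.1 hV
    exact mem_iUnion.2 ⟨k + 1, Or.inr (Or.inr (Or.inl ⟨(n, V), ⟨mem_univ _, hk⟩, rfl⟩))⟩
  · intro U hU
    obtain ⟨k, hk⟩ := mem_iUnion.1 hU
    exact mem_iUnion.2 ⟨k + 1, Or.inr (Or.inr (Or.inr (Or.inl ⟨U, hk, rfl⟩)))⟩
  · intro U hU
    obtain ⟨k, hk⟩ := mem_iUnion.1 hU
    exact mem_iUnion.2 ⟨k + 1, Or.inr (Or.inr (Or.inr (Or.inr (Or.inl ⟨U, hk, rfl⟩))))⟩
  · intro θ hθ U hU
    obtain ⟨k, hk⟩ := mem_iUnion.1 hU
    exact mem_iUnion.2 ⟨k + 1, Or.inr (Or.inr (Or.inr (Or.inr (Or.inr (Or.inl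
      ⟨(θ, U), ⟨hθ, hk⟩, rfl⟩)))))⟩
  · intro U hU
    obtain ⟨k, hk⟩ := mem_iUnion.1 hU
    exact mem_iUnion.2 ⟨k + 1, Or.inr (Or.inr (Or.inr (Or.inr (Or.inr (Or.inr
      ⟨U, hk, rfl⟩)))))⟩

end Pool.Agent.CB9.Clone
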