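import Pool.Agent.CB9.Defs

/-!
Turing reductions form a countable family of reductions with open graphs.
-/

namespace Pool.Agent.CB9.Comp

open Pool.Agent.CB9

/-- Codes of reductions with two oracles. -/
inductive Code : Type
  | zero : Code
  | succ : Code
  | left : Code
  | right : Code
  | orX : Code
  | orY : Code
  | pair : Code → Code → Code
  | comp : Code → Code → Code
  | prec : Code → Code → Code
  | rfind : Code → Code

/-- Numbering of codes. -/
def Code.toNat : Code → ℕ
  | .zero => Nat.pair 0 0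
  | .succ => Nat.pair 1 0
  | .left => Nat.pair 2 0
  | .right => Nat.pair 3 0
  | .orX => Nat.pair 4 0
  | .orY => Nat.pair 5 0
  | .pair a b => Nat.pair 6 (Nat.pair a.toNat b.toNat)
  | .comp a b => Nat.pair 7 (Nat.pair a.toNat b.toNat)
  | .prec a b => Nat.pair 8 (Nat.pair a.toNat b.toNat)
  | .rfind a => Nat.pair 9 a.toNat

theorem toNat_inj : Function.Injective Code.toNat := by
  intro a
  induction a with
  | zero => intro b h; cases b <;> simp [Code.toNat, Nat.pair_eq_pair] at h ⊢
  | succ => intro b h; cases b <;> simp [Code.toNat, Nat.pair_eq_pair] at h ⊢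
  | left => intro b h; cases b <;> simp [Code.toNat, Nat.pair_eq_pair] at h ⊢
  | right => intro b h; cases b <;> simp [Code.toNat, Nat.pair_eq_pair] at h ⊢
  | orX => intro b h; cases b <;> simp [Code.toNat, Nat.pair_eq_pair] at h ⊢
  | orY => intro b h; cases b <;> simp [Code.toNat, Nat.pair_eq_pair] at h ⊢
  | pair a1 a2 h1 h2 =>
    intro b h
    cases b <;> simp [Code.toNat, Nat.pair_eq_pair] at h ⊢
    exact ⟨h1 h.1, h2 h.2⟩
  | comp a1 a2 h1 h2 =>
    intro b h
    cases b <;> simp [Code.toNat, Nat.pair_eq_pair] at h ⊢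
    exact ⟨h1 h.1, h2 h.2⟩
  | prec a1 a2 h1 h2 =>
    intro b h
    cases b <;> simp [Code.toNat, Nat.pair_eq_pair] at h ⊢
    exact ⟨h1 h.1, h2 h.2⟩
  | rfind a1 h1 =>
    intro b h
    cases b <;> simp [Code.toNat, Nat.pair_eq_pair] at h ⊢
    exact h1 h

/-- Values of codes. -/
noncomputable def eval (x y : Om) : Code → ℕ → Part ℕ
  | .zero => fun _ => Part.some 0
  | .succ => fun n => Part.some (n + 1)
  | .left => fun n => Part.some (Nat.unpair n).1
  | .right => fun n => Part.some (Nat.unpair n).2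
  | .orX => fun n => Part.some (if x n then 1 else 0)
  | .orY => fun n => Part.some (if y n then 1 else 0)
  | .pair a b => fun n => Nat.pair <$> eval x y a n <*> eval x y b n
  | .comp a b => fun n => eval x y b n >>= eval x y a
  | .prec a b => fun p =>
      Nat.rec (eval x y a (Nat.unpair p).1) (fun k IH => do
        let i ← IH
        eval x y b (Nat.pair (Nat.unpair p).1 (Nat.pair k i))) (Nat.unpair p).2
  | .rfind a => fun n => Nat.rfind fun k => (fun m => decide (m = 0)) <$> eval x y a (Nat.pair n k)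

theorem exists_code (x y : Om) (h : ℕ →. ℕ) (hh : Nat.RecursiveIn {orc x, orc y} h) :
    ∃ c, eval x y c = h := by
  induction hh with
  | zero => exact ⟨.zero, rfl⟩
  | succ => exact ⟨.succ, rfl⟩
  | left => exact ⟨.left, rfl⟩
  | right => exact ⟨.right, rfl⟩
  | oracle g hg =>
    rcases hg with rfl | hg
    · exact ⟨.orX, rfl⟩
    · rw [Set.mem_singleton_iff] at hg
      subst hg
      exact ⟨.orY, rfl⟩
  | pair _ _ h1 h2 =>
    obtain ⟨a, rfl⟩ := h1
    obtain ⟨b, rfl⟩ := h2
    exact ⟨.pair a b, rfl⟩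
  | comp _ _ h1 h2 =>
    obtain ⟨a, rfl⟩ := h1
    obtain ⟨b, rfl⟩ := h2
    exact ⟨.comp a b, rfl⟩
  | prec _ _ h1 h2 =>
    obtain ⟨a, rfl⟩ := h1
    obtain ⟨b, rfl⟩ := h2
    exact ⟨.prec a b, rfl⟩
  | rfind _ h1 =>
    obtain ⟨a, rfl⟩ := h1
    exact ⟨.rfind a, rfl⟩

/-- The open graph of a code. -/
def Gr (c : Code) (n m : ℕ) : Set Om := {Y | m ∈ eval (L Y) (R Y) c n}

theorem mem_Gr (c : Code) (n m : ℕ) (Y : Om) : Y ∈ Gr c n m ↔ m ∈ eval (L Y) (R Y) c n :=
  Iff.rfl

theorem isOpen_const (p : Prop) (S : Set Om) (h : ∀ Y, Y ∈ S ↔ p) : IsOpen S := by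
  by_cases hp : p
  · have : S = Set.univ := Set.eq_univ_of_forall fun Y => (h Y).2 hp
    rw [this]
    exact isOpen_univ
  · have : S = ∅ := Set.eq_empty_of_forall_notMem fun Y hY => hp ((h Y).1 hY)
    rw [this]
    exact isOpen_empty

theorem isOpen_Gr (c : Code) : ∀ n m, IsOpen (Gr c n m) := by
  induction c with
  | zero => intro n m; exact isOpen_const (m ∈ Part.some 0) _ fun Y => Iff.rfl
  | succ => intro n m; exact isOpen_const (m ∈ Part.some (n + 1)) _ fun Y => Iff.rfl
  | left => intro n m; exact isOpen_const (m ∈ Part.some (Nat.unpair n).1) _ fun Y => Iff.rfl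
  | right => intro n m; exact isOpen_const (m ∈ Part.some (Nat.unpair n).2) _ fun Y => Iff.rfl
  | orX =>
    intro n m
    have : Gr .orX n m = (fun Y : Om => L Y n) ⁻¹' {b | m = if b then 1 else 0} := by
      ext Y
      rw [mem_Gr]
      exact Part.mem_some_iff
    rw [this]
    exact IsOpen.preimage ((continuous_apply n).comp continuous_L) (isOpen_discrete _)
  | orY =>
    intro n m
    have : Gr .orY n m = (fun Y : Om => R Y n) ⁻¹' {b | m = if b then 1 else 0} := by
      ext Y
      rw [mem_Gr]
      exact Part.mem_some_iff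
    rw [this]
    exact IsOpen.preimage ((continuous_apply n).comp continuous_R) (isOpen_discrete _)
  | pair a b ha hb =>
    intro n m
    have : Gr (.pair a b) n m =
        ⋃ (u : ℕ) (v : ℕ) (_ : Nat.pair u v = m), Gr a n u ∩ Gr b n v := by
      ext Y
      simp only [mem_Gr, eval, Set.mem_iUnion, Set.mem_inter_iff]
      simp only [Seq.seq, Part.map_eq_map, Part.mem_bind_iff, Part.mem_map_iff]
      constructor
      · rintro ⟨f, ⟨u, hu, rfl⟩, v, hv, rfl⟩
        exact ⟨u, v, rfl, hu, hv⟩
      · rintro ⟨u, v, rfl, hu, hv⟩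
        exact ⟨_, ⟨u, hu, rfl⟩, v, hv, rfl⟩
    rw [this]
    exact isOpen_iUnion fun u => isOpen_iUnion fun v => isOpen_iUnion fun _ =>
      (ha n u).inter (hb n v)
  | comp a b ha hb =>
    intro n m
    have : Gr (.comp a b) n m = ⋃ (u : ℕ), Gr b n u ∩ Gr a u m := by
      ext Y
      simp only [mem_Gr, eval, Set.mem_iUnion, Set.mem_inter_iff]
      simp only [Part.bind_eq_bind, Part.mem_bind_iff]
    rw [this]
    exact isOpen_iUnion fun u => (hb n u).inter (ha u m)
  | prec a b ha hb =>
    intro n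
    have key : ∀ k m, IsOpen {Y : Om | m ∈ (Nat.rec (eval (L Y) (R Y) a (Nat.unpair n).1)
        (fun k IH => (do
          let i ← IH
          eval (L Y) (R Y) b (Nat.pair (Nat.unpair n).1 (Nat.pair k i)))) k : Part ℕ)} := by
      intro k
      induction k with
      | zero => intro m; exact ha _ m
      | succ k ih =>
        intro m
        have : {Y : Om | m ∈ (Nat.rec (eval (L Y) (R Y) a (Nat.unpair n).1)
            (fun k IH => (do
              let i ← IH
              eval (L Y) (R Y) b (Nat.pair (Nat.unpair n).1 (Nat.pair k i)))) (k + 1) :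
              Part ℕ)} = ⋃ u : ℕ, {Y : Om | u ∈ (Nat.rec (eval (L Y) (R Y) a (Nat.unpair n).1)
            (fun k IH => (do
              let i ← IH
              eval (L Y) (R Y) b (Nat.pair (Nat.unpair n).1 (Nat.pair k i)))) k : Part ℕ)} ∩
              Gr b (Nat.pair (Nat.unpair n).1 (Nat.pair k u)) m := by
          ext Y
          simp only [Set.mem_iUnion, Set.mem_inter_iff, mem_Gr]
          exact Part.mem_bind_iff
        rw [this]
        exact isOpen_iUnion fun u => (ih u).inter (hb _ m)
    intro m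
    exact key _ m
  | rfind a ha =>
    intro n m
    have : Gr (.rfind a) n m = Gr a (Nat.pair n m) 0 ∩
        ⋂ k ∈ Finset.range m, ⋃ u : ℕ, Gr a (Nat.pair n k) (u + 1) := by
      ext Y
      simp only [mem_Gr, eval, Set.mem_iUnion, Set.mem_inter_iff, Set.mem_iInter,
        Finset.mem_range]
      refine Nat.mem_rfind.trans ?_
      simp only [Part.map_eq_map, Part.mem_map_iff]
      constructor
      · rintro ⟨⟨u, hu, h0⟩, h2⟩
        refine ⟨?_, fun k hk => ?_⟩
        · have : u = 0 := by simpa using h0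
          rwa [this] at hu
        · obtain ⟨v, hv, h3⟩ := h2 hk
          have h4 : v ≠ 0 := by simpa using h3
          exact ⟨v - 1, by rwa [Nat.sub_add_cancel (Nat.pos_of_ne_zero h4)]⟩
      · rintro ⟨hu, h2⟩
        refine ⟨⟨0, hu, by simp⟩, fun {k} hk => ?_⟩
        obtain ⟨v, hv⟩ := h2 k hk
        exact ⟨v + 1, hv, by simp⟩
    rw [this]
    refine (ha _ 0).inter ?_
    exact isOpen_biInter_finset fun k _ => isOpen_iUnion fun u => ha _ _

theorem targetComp : TargetComp := by
  classical
  refine ⟨fun e n i => ⋃ (c : Code) (_ : c.toNat = e), Gr c n (if i then 1 else 0),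
    fun e n i => ?_, fun x y z h => ?_⟩
  · exact isOpen_iUnion fun c => isOpen_iUnion fun _ => isOpen_Gr c _ _
  · rw [RecursiveIn.iff_nat] at h
    obtain ⟨c, hc⟩ := exists_code x y _ h
    have hc' : ∀ n, eval x y c n = Part.some (if z n then 1 else 0) := fun n => congrFun hc n
    refine ⟨c.toNat, fun n i => ?_⟩
    simp only [Set.mem_iUnion, mem_Gr, L_J, R_J]
    constructor
    · rintro ⟨c', h1, h2⟩
      obtain rfl := toNat_inj h1
      rw [hc', Part.mem_some_iff] at h2
      cases i <;> cases hz : z n <;> simp [hz] at h2 ⊢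
    · rintro rfl
      refine ⟨c, rfl, ?_⟩
      rw [hc']
      exact Part.mem_some _

end Pool.Agent.CB9.Comp
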