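import Mathlib

/-!
Definitions and interface statements for MP_cb9c95_lc
(RT22 is not computably reducible to RT22(120)).
-/

namespace Pool.Agent.CB9

/-- Cantor space. -/
abbrev Om := ℕ → Bool

/-- Join of two reals. -/
def J (x y : Om) : Om := fun n => if n % 2 = 0 then x (n / 2) else y (n / 2)

/-- Left half of a real. -/
def L (z : Om) : Om := fun n => z (2 * n)

/-- Right half of a real. -/
def R (z : Om) : Om := fun n => z (2 * n + 1)

@[simp] theorem L_J (x y : Om) : L (J x y) = x := by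
  funext n
  simp only [L, J]
  rw [if_pos (by omega)]
  congr 1
  omega

@[simp] theorem R_J (x y : Om) : R (J x y) = y := by
  funext n
  simp only [R, J]
  rw [if_neg (by omega)]
  congr 1
  omega

@[simp] theorem J_L_R (z : Om) : J (L z) (R z) = z := by
  funext n
  simp only [L, R, J]
  split_ifs with h
  · congr 1
    omega
  · congr 1
    omega

theorem continuous_L : Continuous L := by
  unfold L
  fun_prop

theorem continuous_R : Continuous R := by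
  unfold R
  fun_prop

theorem continuous_J : Continuous (fun p : Om × Om => J p.1 p.2) := by
  refine continuous_pi fun n => ?_
  by_cases h : n % 2 = 0
  · simp only [J, h, if_true]
    fun_prop
  · simp only [J, h, if_false]
    fun_prop

/-- Finite assignments: `a.1` is the domain, `a.2` tells where the value is `true`. -/
abbrev Asg := Finset ℕ × Finset ℕ

/-- `A` extends the finite assignment `a`. -/
def Agr (a : Asg) (A : ℕ → Bool) : Prop := ∀ x ∈ a.1, A x = decide (x ∈ a.2)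

/-- The domain of `a` lies in `[n, ∞)`. -/
def Far (n : ℕ) (a : Asg) : Prop := ∀ x ∈ a.1, n ≤ x

/-- Families of subsets of Cantor space indexed by finite assignments. -/
abbrev Fam := Asg → Set Om

/-- The (closed, when `U` is open) class with parameter `Z` determined by `U`. -/
def K (U : Fam) (Z : Om) : Set Om := {β | ∀ a, J Z β ∉ U a}

/-- Good reals. -/
def Good (𝓕 : Set Fam) (A : ℕ → Bool) (Z : Om) : Prop :=
  ∀ U ∈ 𝓕, ∀ V ∈ 𝓕, (K U Z).Nonempty →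
    (∀ β ∈ K U Z, ∀ n, ∃ a, Far n a ∧ J Z β ∈ V a) →
    ∃ β ∈ K U Z, ∃ a, J Z β ∈ V a ∧ Agr a A

/-- Closure properties of a countable set of open families. -/
structure Clone (T : Set (Om → Om)) (𝓕 : Set Fam) : Prop where
  countable : 𝓕.Countable
  isOpen : ∀ U ∈ 𝓕, ∀ a, IsOpen (U a)
  clopen : ∀ C : Set Om, IsClopen C → (fun _ => C) ∈ 𝓕
  union : ∀ U ∈ 𝓕, ∀ V ∈ 𝓕, (fun a => U a ∪ V a) ∈ 𝓕
  far : ∀ n, ∀ V ∈ 𝓕, (fun a => {Y | Far n a ∧ Y ∈ V a}) ∈ 𝓕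
  left : ∀ U ∈ 𝓕, (fun a => {Y | L Y ∈ U a}) ∈ 𝓕
  assoc : ∀ U ∈ 𝓕, (fun a => {Y | J (J (L Y) (L (R Y))) (R (R Y)) ∈ U a}) ∈ 𝓕
  comp : ∀ θ ∈ T, ∀ U ∈ 𝓕, (fun a => {Y | J (θ (L Y)) (R Y) ∈ U a}) ∈ 𝓕
  proj : ∀ U ∈ 𝓕, (fun _ => {Y | ∀ γ, ∃ a, J Y γ ∈ U a}) ∈ 𝓕

/-- Existence of clones. -/
def TargetClone : Prop :=
  ∀ (T : Set (Om → Om)) (B : Set Fam), T.Countable → (∀ θ ∈ T, Continuous θ) →
    B.Countable → (∀ U ∈ B, ∀ a, IsOpen (U a)) → ∃ 𝓕 : Set Fam, B ⊆ 𝓕 ∧ Clone T 𝓕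

/-- Preservation of goodness. -/
def TargetPreserve : Prop :=
  ∀ (T : Set (Om → Om)) (𝓕 : Set Fam), Clone T 𝓕 → ∀ (A : ℕ → Bool) (Z : Om), Good 𝓕 A Z →
    ∀ U ∈ 𝓕, (K U Z).Nonempty → ∃ β ∈ K U Z, Good 𝓕 A (J Z β)

/-- Code of a colouring of pairs (only pairs `x < y` matter). -/
def code (f : ℕ → ℕ → Bool) : Om := fun n =>
  decide ((Nat.unpair n).1 < (Nat.unpair n).2) && f (Nat.unpair n).1 (Nat.unpair n).2

/-- Existence of a stable colouring whose code is good. -/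
def TargetForce : Prop :=
  ∀ 𝓕 : Set Fam, 𝓕.Countable → (∀ U ∈ 𝓕, ∀ a, IsOpen (U a)) →
    ∃ (f : ℕ → ℕ → Bool) (A : ℕ → Bool),
      (∀ x, ∃ N, ∀ y, N ≤ y → f x y = A x) ∧ Good 𝓕 A (code f)

/-- The oracle given by a real. -/
def orc (x : Om) : ℕ →. ℕ := fun n => Part.some (if x n then 1 else 0)

/-- Turing reductions are a countable set of continuous partial maps. -/
def TargetComp : Prop :=
  ∃ 𝓡 : ℕ → ℕ → Bool → Set Om, (∀ e n i, IsOpen (𝓡 e n i)) ∧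
    ∀ x y z : Om, RecursiveIn {orc x, orc y} (orc z) →
      ∃ e, ∀ n i, J x y ∈ 𝓡 e n i ↔ z n = i

/-! ### Finite combinatorics -/

/-- A pool: a finite set `Y` and a finite set `O` of pairs `(E, bits)`. -/
structure Pl where
  Y : Finset ℕ
  O : Finset (Finset ℕ × Finset ℕ)

/-- All bits of a pool. -/
def bits (P : Pl) : Finset ℕ := P.O.biUnion Prod.snd

/-- All bits of a list of pools. -/
def allBits (l : List Pl) : Finset ℕ := l.foldr (fun P S => bits P ∪ S) ∅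

/-- The number of selections. -/
def weight (l : List Pl) : ℕ := (l.map (fun P => P.Y.card)).prod

/-- No member of the pool is contained in `S`. -/
def Free (P : Pl) (S : Set ℕ) : Prop := ∀ q ∈ P.O, ¬ ((q.1 : Set ℕ) ⊆ S)

/-- `P.Y` is not covered by `r` free sets. -/
def Thick (r : ℕ) (P : Pl) : Prop :=
  ∀ S : Fin r → Set ℕ, (∀ j, Free P (S j)) → ∃ y ∈ P.Y, ∀ j, y ∉ S j

/-- The combinatorial requirement on the pool `P` following the pools of `l`. -/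
def Comb (n0 : ℕ) (l : List Pl) (P : Pl) : Prop :=
  (∀ q ∈ P.O, q.1 ⊆ P.Y ∧ weight l < q.2.card) ∧
  (∀ u ∈ bits P, n0 ≤ u ∧ ∀ w ∈ allBits l, w < u) ∧
  Thick ((allBits l).card + 1) P ∧
  (∀ y ∈ P.Y, l.length ≤ y ∧ ∀ Q ∈ l, ∀ z ∈ Q.Y, z < y)

/-- `l` selects one element from each pool. -/
def Sel (ps : List Pl) (l : List ℕ) : Prop := List.Forall₂ (fun P x => x ∈ P.Y) ps l

/-- The combinatorial lemma. -/
def TargetSL : Prop :=
  ∀ (n0 : ℕ) (ps : List Pl), (∀ (i : ℕ) (h : i < ps.length), Comb n0 (ps.take i) ps[i]) →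
    ∀ φ : List ℕ → ℕ, ∃ U : Finset ℕ,
      (∀ P ∈ ps, ∀ q ∈ P.O, ∃ w ∈ q.2, w ∉ U) ∧
      ∀ β : Set ℕ, (∀ P ∈ ps, Free P β) →
        (∃ l, Sel ps l ∧ (∀ x ∈ l, ∀ y ∈ l, x ∈ β → y ∈ β → x = y) ∧ φ l ∈ U) ∨
        (∃ l, Sel ps l ∧ (∀ x ∈ l, x ∉ β) ∧ φ l ∉ allBits ps)

end Pool.Agent.CB9
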