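import Pool.Agent.CB9.Defs

/-!
Construction of a stable colouring whose code is good (finite extension forcing with
retraction of commitments).
-/

set_option autoImplicit false

namespace Pool.Agent.CB9.Force

open Set Filter Topology

/-- Colourings of pairs. -/
abbrev Cl := ℕ → ℕ → Bool

theorem continuous_code : Continuous code := by
  refine continuous_pi fun n => ?_
  simp only [code]
  by_cases h : (Nat.unpair n).1 < (Nat.unpair n).2
  · simp only [h, decide_true, Bool.true_and]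
    fun_prop
  · simp only [h, decide_false, Bool.false_and]
    fun_prop

theorem continuous_JC : Continuous (fun p : Cl × Om => J (code p.1) p.2) :=
  continuous_J.comp ((continuous_code.comp continuous_fst).prodMk continuous_snd)

/-- `f` and `g` agree below `N`. -/
def Agree (N : ℕ) (f g : Cl) : Prop := ∀ x < N, ∀ y < N, f x y = g x y

theorem Agree.mono {M N : ℕ} {f g : Cl} (h : Agree N f g) (hMN : M ≤ N) : Agree M f g :=
  fun x hx y hy => h x (by omega) y (by omega)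

/-- Neighbourhoods contain basic neighbourhoods. -/
theorem exists_agree {P : Set Cl} (hP : IsOpen P) {φ : Cl} (hφ : φ ∈ P) (n : ℕ) :
    ∃ N, n ≤ N ∧ ∀ ψ, Agree N ψ φ → ψ ∈ P := by
  by_contra hcon
  push Not at hcon
  have h : ∀ N : ℕ, ∃ ψ, Agree (n + N) ψ φ ∧ ψ ∉ P := fun N => hcon (n + N) (by omega)
  choose ψ h1 h2 using h
  have ht : Tendsto ψ atTop (𝓝 φ) := by
    refine tendsto_pi_nhds.2 fun x => tendsto_pi_nhds.2 fun y => ?_
    refine tendsto_const_nhds.congr' ?_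
    filter_upwards [eventually_gt_atTop (max x y)] with N hN
    have hx : x < N := lt_of_le_of_lt (le_max_left _ _) hN
    have hy : y < N := lt_of_le_of_lt (le_max_right _ _) hN
    exact (h1 N x (by omega) y (by omega)).symm
  have := hP.isClosed_compl.mem_of_tendsto ht (Eventually.of_forall h2)
  exact this hφ

/-- Conditions. -/
structure Cd where
  n : ℕ
  g : Cl
  l : ℕ → Bool

/-- The colourings satisfying a condition. -/
def Cd.In (c : Cd) (f : Cl) : Prop :=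
  (∀ x < c.n, ∀ y < c.n, f x y = c.g x y) ∧ ∀ x < c.n, ∀ y, c.n ≤ y → f x y = c.l x

/-- Extension of conditions. -/
structure Cd.Le (c' c : Cd) : Prop where
  n : c.n ≤ c'.n
  l : ∀ x < c.n, c'.l x = c.l x
  sub : ∀ f, c'.In f → c.In f

theorem Cd.Le.rfl' (c : Cd) : c.Le c := ⟨le_rfl, fun _ _ => rfl, fun _ h => h⟩

theorem Cd.Le.trans {a b c : Cd} (h : a.Le b) (h' : b.Le c) : a.Le c :=
  ⟨h'.n.trans h.n, fun x hx => (h.l x (lt_of_lt_of_le hx h'.n)).trans (h'.l x hx),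
    fun f hf => h'.sub f (h.sub f hf)⟩

/-- The basic way of extending a condition. -/
theorem Cd.ext_le (c : Cd) (φ : Cl) (hφ : c.In φ) (N : ℕ) (hN : c.n ≤ N) (l : ℕ → Bool)
    (hl : ∀ x < c.n, l x = c.l x) : (Cd.mk N φ l).Le c := by
  refine ⟨hN, hl, ?_⟩
  intro f hf
  obtain ⟨h1, h2⟩ := hf
  refine ⟨?_, ?_⟩
  · intro x hx y hy
    rw [h1 x (lt_of_lt_of_le hx hN) y (lt_of_lt_of_le hy hN)]
    exact hφ.1 x hx y hy
  · intro x hx y hy
    by_cases hyN : y < N
    · rw [h1 x (lt_of_lt_of_le hx hN) y hyN]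
      exact hφ.2 x hx y hy
    · rw [h2 x (lt_of_lt_of_le hx hN) y (not_lt.1 hyN)]
      exact hl x hx

theorem Cd.nonempty (c : Cd) : ∃ f, c.In f := by
  refine ⟨fun x y => if y < c.n then c.g x y else c.l x, ?_, ?_⟩
  · intro x _ y hy
    simp only [hy, if_true]
  · intro x _ y hy
    simp only [not_lt.2 hy, if_false]

theorem Cd.isClosed (c : Cd) : IsClosed {f | c.In f} := by
  have : {f | c.In f} = (⋂ x, ⋂ (_ : x < c.n), ⋂ y, ⋂ (_ : y < c.n), {f : Cl | f x y = c.g x y}) ∩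
      (⋂ x, ⋂ (_ : x < c.n), ⋂ y, ⋂ (_ : c.n ≤ y), {f : Cl | f x y = c.l x}) := by
    ext f
    simp only [Cd.In, mem_ofPred_eq, mem_inter_iff, mem_iInter]
  rw [this]
  refine IsClosed.inter ?_ ?_
  · refine isClosed_iInter fun x => isClosed_iInter fun _ => isClosed_iInter fun y =>
      isClosed_iInter fun _ => isClosed_eq (by fun_prop) continuous_const
  · refine isClosed_iInter fun x => isClosed_iInter fun _ => isClosed_iInter fun y =>
      isClosed_iInter fun _ => isClosed_eq (by fun_prop) continuous_const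

/-- The colourings for which the class misses the closed set `S` form an open set. -/
theorem isOpen_miss {U : Fam} (hU : ∀ a, IsOpen (U a)) {S : Set Om} (hS : IsClosed S) :
    IsOpen {φ : Cl | ∀ β ∈ K U (code φ), β ∉ S} := by
  have hcl : IsClosed {p : Cl × Om | (∀ a, J (code p.1) p.2 ∉ U a) ∧ p.2 ∈ S} := by
    have : {p : Cl × Om | (∀ a, J (code p.1) p.2 ∉ U a) ∧ p.2 ∈ S} =
        (⋂ a, (fun p : Cl × Om => J (code p.1) p.2) ⁻¹' (U a)ᶜ) ∩ (Prod.snd ⁻¹' S) := by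
      ext p
      simp only [mem_ofPred_eq, mem_inter_iff, mem_iInter, mem_preimage, mem_compl_iff]
    rw [this]
    refine IsClosed.inter (isClosed_iInter fun a => ?_) (hS.preimage continuous_snd)
    exact (hU a).isClosed_compl.preimage continuous_JC
  have hcl2 := isClosedMap_fst_of_compactSpace _ hcl
  have : {φ : Cl | ∀ β ∈ K U (code φ), β ∉ S} =
      (Prod.fst '' {p : Cl × Om | (∀ a, J (code p.1) p.2 ∉ U a) ∧ p.2 ∈ S})ᶜ := by
    ext φ
    simp only [mem_ofPred_eq, mem_compl_iff, mem_image, Prod.exists, exists_and_right,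
      exists_eq_right, not_exists, not_and, K]
  rw [this]
  exact hcl2.isOpen_compl

theorem isClosed_K {U : Fam} (hU : ∀ a, IsOpen (U a)) (Z : Om) : IsClosed (K U Z) := by
  have : K U Z = ⋂ a, (fun β : Om => J Z β) ⁻¹' (U a)ᶜ := by
    ext β
    simp only [K, mem_ofPred_eq, mem_iInter, mem_preimage, mem_compl_iff]
  rw [this]
  refine isClosed_iInter fun a => ?_
  refine (hU a).isClosed_compl.preimage ?_
  exact continuous_J.comp (continuous_const.prodMk continuous_id)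

/-- The finite cover obtained by compactness. -/
theorem exists_cover {U V : Fam} (hU : ∀ a, IsOpen (U a)) (hV : ∀ a, IsOpen (V a)) (n : ℕ)
    (φ : Cl) (hconv : ∀ β ∈ K U (code φ), ∃ a, Far n a ∧ J (code φ) β ∈ V a) :
    ∃ (L : List (Set Om × Asg)) (N : ℕ), n ≤ N ∧ (∀ p ∈ L, IsClosed p.1 ∧ Far n p.2) ∧
      ∀ ψ, Agree N ψ φ → (∀ β ∈ K U (code ψ), ∃ p ∈ L, β ∈ p.1) ∧
        ∀ p ∈ L, ∀ β ∈ p.1, J (code ψ) β ∈ V p.2 := by
  have hK : IsCompact (K U (code φ)) := (isClosed_K hU _).isCompact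
  have key : ∃ (L : List (Set Om × Asg)) (P : Set Cl), IsOpen P ∧ φ ∈ P ∧
      (∀ p ∈ L, IsClopen p.1 ∧ Far n p.2) ∧ (∀ β ∈ K U (code φ), ∃ p ∈ L, β ∈ p.1) ∧
      ∀ ψ ∈ P, ∀ p ∈ L, ∀ β ∈ p.1, J (code ψ) β ∈ V p.2 := by
    refine hK.induction_on (p := fun s => ∃ (L : List (Set Om × Asg)) (P : Set Cl), IsOpen P ∧
      φ ∈ P ∧ (∀ p ∈ L, IsClopen p.1 ∧ Far n p.2) ∧ (∀ β ∈ s, ∃ p ∈ L, β ∈ p.1) ∧
      ∀ ψ ∈ P, ∀ p ∈ L, ∀ β ∈ p.1, J (code ψ) β ∈ V p.2) ?_ ?_ ?_ ?_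
    · exact ⟨[], univ, isOpen_univ, mem_univ _, by simp, by simp, by simp⟩
    · rintro s t hst ⟨L, P, h1, h2, h3, h4, h5⟩
      exact ⟨L, P, h1, h2, h3, fun β hβ => h4 β (hst hβ), h5⟩
    · rintro s t ⟨L, P, h1, h2, h3, h4, h5⟩ ⟨L', P', h1', h2', h3', h4', h5'⟩
      refine ⟨L ++ L', P ∩ P', h1.inter h1', ⟨h2, h2'⟩, ?_, ?_, ?_⟩
      · intro p hp
        rcases List.mem_append.1 hp with h | h
        · exact h3 p h
        · exact h3' p h
      · rintro β (hβ | hβ)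
        · obtain ⟨p, hp, hβp⟩ := h4 β hβ
          exact ⟨p, List.mem_append.2 (Or.inl hp), hβp⟩
        · obtain ⟨p, hp, hβp⟩ := h4' β hβ
          exact ⟨p, List.mem_append.2 (Or.inr hp), hβp⟩
      · intro ψ hψ p hp
        rcases List.mem_append.1 hp with h | h
        · exact h5 ψ hψ.1 p h
        · exact h5' ψ hψ.2 p h
    · intro β hβ
      obtain ⟨a, ha, hβa⟩ := hconv β hβ
      have hop : IsOpen ((fun p : Cl × Om => J (code p.1) p.2) ⁻¹' (V a)) :=
        (hV a).preimage continuous_JC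
      obtain ⟨P, Q, hP, hQ, hφP, hβQ, hPQ⟩ := isOpen_prod_iff.1 hop φ β hβa
      obtain ⟨C, hC, hβC, hCQ⟩ := compact_exists_isClopen_in_isOpen hQ hβQ
      refine ⟨C, mem_nhdsWithin_of_mem_nhds (hC.isOpen.mem_nhds hβC), [(C, a)], P, hP, hφP,
        ?_, ?_, ?_⟩
      · intro p hp
        rw [List.mem_singleton] at hp
        subst hp
        exact ⟨hC, ha⟩
      · intro β' hβ'
        exact ⟨(C, a), List.mem_singleton.2 rfl, hβ'⟩
      · intro ψ hψ p hp β' hβ'
        rw [List.mem_singleton] at hp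
        subst hp
        exact hPQ (mk_mem_prod hψ (hCQ hβ'))
  obtain ⟨L, P, hP, hφP, h3, h4, h5⟩ := key
  have hcl : IsClosed {β : Om | ∀ p ∈ L, β ∉ p.1} := by
    have : {β : Om | ∀ p ∈ L, β ∉ p.1} = ⋂ p : {p // p ∈ L}, (p.1.1)ᶜ := by
      ext β
      simp only [mem_ofPred_eq, mem_iInter, mem_compl_iff, Subtype.forall]
    rw [this]
    exact isClosed_iInter fun p => (h3 p.1 p.2).1.isOpen.isClosed_compl
  have hop := isOpen_miss hU hcl
  have hmem : φ ∈ {φ : Cl | ∀ β ∈ K U (code φ), β ∉ {β : Om | ∀ p ∈ L, β ∉ p.1}} := by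
    intro β hβ hβ'
    obtain ⟨p, hp, hβp⟩ := h4 β hβ
    exact hβ' p hp hβp
  obtain ⟨N, hnN, hN⟩ := exists_agree (hP.inter hop) ⟨hφP, hmem⟩ n
  refine ⟨L, N, hnN, fun p hp => ⟨(h3 p hp).1.isClosed, (h3 p hp).2⟩, ?_⟩
  intro ψ hψ
  obtain ⟨hψP, hψ2⟩ := hN ψ hψ
  refine ⟨?_, h5 ψ hψP⟩
  intro β hβ
  have := hψ2 β hβ
  by_contra hcon
  push Not at hcon
  exact this hcon

/-- The requirement. -/
def Req (U V : Fam) (A : ℕ → Bool) (Z : Om) : Prop :=
  (K U Z).Nonempty → (∀ β ∈ K U Z, ∀ n, ∃ a, Far n a ∧ J Z β ∈ V a) →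
    ∃ β ∈ K U Z, ∃ a, J Z β ∈ V a ∧ Agr a A

/-- The claim: induction on the length of the cover. -/
theorem claim {U V : Fam} (hU : ∀ a, IsOpen (U a)) (c : Cd)
    (hne : ∀ φ, c.In φ → (K U (code φ)).Nonempty) :
    ∀ (L : List (Set Om × Asg)) (φ : Cl) (N : ℕ), c.In φ → c.n ≤ N →
      (∀ p ∈ L, IsClosed p.1 ∧ Far c.n p.2) →
      (∀ ψ, c.In ψ → Agree N ψ φ → (∀ β ∈ K U (code ψ), ∃ p ∈ L, β ∈ p.1) ∧
        ∀ p ∈ L, ∀ β ∈ p.1, J (code ψ) β ∈ V p.2) →
      ∃ c' : Cd, c'.Le c ∧ ∀ φ, c'.In φ → ∀ A : ℕ → Bool, (∀ x < c'.n, A x = c'.l x) →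
        Req U V A (code φ) := by
  intro L
  induction L with
  | nil =>
    intro φ N hφ _ _ h
    obtain ⟨β, hβ⟩ := hne φ hφ
    obtain ⟨p, hp, _⟩ := (h φ hφ (fun _ _ _ _ => rfl)).1 β hβ
    simp at hp
  | cons q L ih =>
    intro φ N hφ hcN hL h
    obtain ⟨S, a⟩ := q
    have hSa := hL (S, a) (List.mem_cons_self)
    obtain ⟨N', hNN', hN'⟩ : ∃ N', N ≤ N' ∧ ∀ x ∈ a.1, x < N' := by
      refine ⟨max N (a.1.sup id + 1), le_max_left _ _, ?_⟩
      intro x hx
      have : x ≤ a.1.sup id := Finset.le_sup (f := id) hx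
      exact lt_of_lt_of_le (Nat.lt_succ_of_le this) (le_max_right _ _)
    set l1 : ℕ → Bool := fun x => if x < c.n then c.l x else decide (x ∈ a.2) with hl1
    have hle : (Cd.mk N' φ l1).Le c := by
      apply c.ext_le φ hφ N' (hcN.trans hNN') l1
      intro x hx
      simp only [hl1, hx, if_true]
    by_cases hall : ∀ ψ, (Cd.mk N' φ l1).In ψ → ∃ β ∈ K U (code ψ), β ∈ S
    · refine ⟨Cd.mk N' φ l1, hle, ?_⟩
      intro ψ hψ A hA _ _
      obtain ⟨β, hβ, hβS⟩ := hall ψ hψ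
      refine ⟨β, hβ, a, ?_, ?_⟩
      · have hag : Agree N ψ φ := by
          intro x hx y hy
          exact hψ.1 x (lt_of_lt_of_le hx hNN') y (lt_of_lt_of_le hy hNN')
        exact (h ψ (hle.sub ψ hψ) hag).2 (S, a) (List.mem_cons_self) β hβS
      · intro x hx
        rw [hA x (hN' x hx)]
        have : ¬ x < c.n := not_lt.2 (hSa.2 x hx)
        simp only [hl1, this, if_false]
    · push Not at hall
      obtain ⟨φ', hφ', hmiss⟩ := hall
      obtain ⟨N'', hN'N'', hN''⟩ := exists_agree (isOpen_miss hU hSa.1)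
        (show φ' ∈ {φ : Cl | ∀ β ∈ K U (code φ), β ∉ S} from hmiss) N'
      have hφφ' : Agree N' φ' φ := fun x hx y hy => hφ'.1 x hx y hy
      refine ih φ' N'' (hle.sub φ' hφ') ((hcN.trans hNN').trans hN'N'')
        (fun p hp => hL p (List.mem_cons_of_mem _ hp)) ?_
      intro ψ hψ hag
      have hag' : Agree N ψ φ := by
        intro x hx y hy
        have hx' : x < N' := lt_of_lt_of_le hx hNN'
        have hy' : y < N' := lt_of_lt_of_le hy hNN'
        rw [hag x (lt_of_lt_of_le hx' hN'N'') y (lt_of_lt_of_le hy' hN'N''), hφφ' x hx' y hy']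
      obtain ⟨h1, h2⟩ := h ψ hψ hag'
      refine ⟨?_, fun p hp => h2 p (List.mem_cons_of_mem _ hp)⟩
      intro β hβ
      obtain ⟨p, hp, hβp⟩ := h1 β hβ
      rcases List.mem_cons.1 hp with hp | hp
      · subst hp
        exact absurd hβp (hN'' ψ hag β hβ)
      · exact ⟨p, hp, hβp⟩

/-- The step lemma. -/
theorem step {U V : Fam} (hU : ∀ a, IsOpen (U a)) (hV : ∀ a, IsOpen (V a)) (c : Cd) :
    ∃ c' : Cd, c'.Le c ∧ ∀ φ, c'.In φ → ∀ A : ℕ → Bool, (∀ x < c'.n, A x = c'.l x) →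
      Req U V A (code φ) := by
  by_cases h1 : ∃ φ, c.In φ ∧ ¬ (K U (code φ)).Nonempty
  · obtain ⟨φ, hφ, hemp⟩ := h1
    obtain ⟨N, hN, hN'⟩ := exists_agree (isOpen_miss hU (isClosed_univ))
      (show φ ∈ {φ : Cl | ∀ β ∈ K U (code φ), β ∉ univ} from
        fun β hβ => absurd ⟨β, hβ⟩ hemp) c.n
    refine ⟨Cd.mk N φ c.l, c.ext_le φ hφ N hN c.l (fun _ _ => rfl), ?_⟩
    intro ψ hψ A _ hne _
    obtain ⟨β, hβ⟩ := hne
    exact absurd (mem_univ β) (hN' ψ hψ.1 β hβ)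
  · push Not at h1
    by_cases h2 : ∃ φ, c.In φ ∧ ∀ β ∈ K U (code φ), ∃ a, Far c.n a ∧ J (code φ) β ∈ V a
    · obtain ⟨φ, hφ, hconv⟩ := h2
      obtain ⟨L, N, hN, hL, hcov⟩ := exists_cover hU hV c.n φ hconv
      exact claim hU c h1 L φ N hφ hN hL (fun ψ _ hag => hcov ψ hag)
    · refine ⟨c, Cd.Le.rfl' c, ?_⟩
      intro φ hφ A _ _ hconv
      exact absurd ⟨φ, hφ, fun β hβ => hconv β hβ c.n⟩ h2

/-- One step of the construction, increasing the length. -/
theorem step' {U V : Fam} (hU : ∀ a, IsOpen (U a)) (hV : ∀ a, IsOpen (V a)) (c : Cd) :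
    ∃ c' : Cd, c'.Le c ∧ c.n < c'.n ∧ ∀ φ, c'.In φ → ∀ A : ℕ → Bool,
      (∀ x < c'.n, A x = c'.l x) → Req U V A (code φ) := by
  obtain ⟨c1, hle, hreq⟩ := step hU hV c
  obtain ⟨φ, hφ⟩ := c1.nonempty
  have hle2 := c1.ext_le φ hφ (c1.n + 1) (Nat.le_succ _) c1.l (fun _ _ => rfl)
  refine ⟨Cd.mk (c1.n + 1) φ c1.l, hle2.trans hle, Nat.lt_succ_of_le hle.n, ?_⟩
  intro ψ hψ A hA
  exact hreq ψ (hle2.sub ψ hψ) A (fun x hx => hA x (Nat.lt_succ_of_lt hx))

theorem targetForce : TargetForce := by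
  intro 𝓕 hcount hopen
  rcases 𝓕.eq_empty_or_nonempty with h | hne
  · subst h
    refine ⟨fun _ _ => false, fun _ => false, fun x => ⟨0, fun _ _ => rfl⟩, ?_⟩
    intro U hU
    exact absurd hU (notMem_empty U)
  obtain ⟨e, he⟩ := hcount.exists_eq_range hne
  have heo : ∀ k a, IsOpen (e k a) := by
    intro k a
    exact hopen (e k) (by rw [he]; exact mem_range_self k) a
  have hstep : ∀ (k : ℕ) (c : Cd), ∃ c' : Cd, c'.Le c ∧ c.n < c'.n ∧ ∀ φ, c'.In φ →
      ∀ A : ℕ → Bool, (∀ x < c'.n, A x = c'.l x) →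
      Req (e (Nat.unpair k).1) (e (Nat.unpair k).2) A (code φ) :=
    fun k c => step' (heo _) (heo _) c
  choose F hF1 hF2 hF3 using hstep
  let C : ℕ → Cd := fun k => Nat.rec (Cd.mk 0 (fun _ _ => false) (fun _ => false))
    (fun k c => F k c) k
  have hC : ∀ k, C (k + 1) = F k (C k) := fun k => rfl
  have hCle1 : ∀ k, (C (k + 1)).Le (C k) := fun k => by rw [hC]; exact hF1 k (C k)
  have hCle : ∀ j k, j ≤ k → (C k).Le (C j) := by
    intro j k hjk
    induction k, hjk using Nat.le_induction with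
    | base => exact Cd.Le.rfl' _
    | succ k _ ih => exact (hCle1 k).trans ih
  have hCn : ∀ k, k ≤ (C k).n := by
    intro k
    induction k with
    | zero => exact Nat.zero_le _
    | succ k ih =>
      have := hF2 k (C k)
      rw [← hC] at this
      omega
  obtain ⟨φ, hφ⟩ := IsCompact.nonempty_iInter_of_sequence_nonempty_isCompact_isClosed
    (fun k => {f | (C k).In f}) (fun k f hf => (hCle1 k).sub f hf) (fun k => (C k).nonempty)
    (Cd.isClosed _).isCompact (fun k => (C k).isClosed)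
  have hφk : ∀ k, (C k).In φ := fun k => mem_iInter.1 hφ k
  set A : ℕ → Bool := fun x => (C (x + 1)).l x with hA
  have hAl : ∀ k, ∀ x < (C k).n, A x = (C k).l x := by
    intro k x hx
    rcases le_total k (x + 1) with h | h
    · exact (hCle k (x + 1) h).l x hx
    · have hx' : x < (C (x + 1)).n := lt_of_lt_of_le (Nat.lt_succ_self x) (hCn (x + 1))
      exact ((hCle (x + 1) k h).l x hx').symm
  refine ⟨φ, A, ?_, ?_⟩
  · intro x
    refine ⟨(C (x + 1)).n, fun y hy => ?_⟩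
    have hx' : x < (C (x + 1)).n := lt_of_lt_of_le (Nat.lt_succ_self x) (hCn (x + 1))
    rw [(hφk (x + 1)).2 x hx' y hy]
  · intro U hU V hV
    rw [he] at hU hV
    obtain ⟨i, rfl⟩ := hU
    obtain ⟨j, rfl⟩ := hV
    have := hF3 (Nat.pair i j) (C (Nat.pair i j)) φ (hφk (Nat.pair i j + 1)) A
      (hAl (Nat.pair i j + 1))
    rw [Nat.unpair_pair] at this
    exact this

end Pool.Agent.CB9.Force
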