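import Pool.Agent.CB9.Levels

namespace Pool.Agent.CB9

variable {g : ℕ → ℕ → Bool} {A : ℕ → Bool} {Out : ℕ → Set ℕ → ℕ → Prop} {GX : Set ℕ → Prop}

theorem mem_allBits {l : List Pl} {u : ℕ} : u ∈ allBits l ↔ ∃ P ∈ l, u ∈ bits P := by
  induction l with
  | nil => simp [allBits]
  | cons Q l ih =>
    have : allBits (Q :: l) = bits Q ∪ allBits l := rfl
    rw [this, Finset.mem_union, ih]
    simp

theorem mem_bits {P : Pl} {u : ℕ} : u ∈ bits P ↔ ∃ q ∈ P.O, u ∈ q.2 := by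
  simp [bits]

/-- Existence of the next pool. -/
theorem Env.exists_pool (H : Env g A Out GX) {e1 : ℕ} {v1 : Bool} {F1 : Finset ℕ} {X1 : Set ℕ}
    (hC : CaseC g A Out GX e1 v1 F1 X1) (X : Set ℕ) (hX : X ⊆ X1) (hgX : GX X) (n0 : ℕ)
    (l : List Pl) : ∃ P, VP g Out e1 F1 X P ∧ Comb n0 l P := by
  classical
  obtain ⟨N, hN⟩ : ∃ N, ∀ y, N < y → l.length ≤ y ∧ ∀ Q ∈ l, ∀ z ∈ Q.Y, z < y := by
    obtain ⟨N1, hN1⟩ : ∃ N1, ∀ Q ∈ l, ∀ z ∈ Q.Y, z ≤ N1 := by
      clear hC hX hgX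
      induction l with
      | nil => exact ⟨0, by simp⟩
      | cons Q l ih =>
        obtain ⟨N1, h1⟩ := ih
        refine ⟨max N1 (Q.Y.sup id), ?_⟩
        intro Q' hQ' z hz
        rcases List.mem_cons.1 hQ' with rfl | h
        · exact (Finset.le_sup (f := id) hz).trans (le_max_right _ _)
        · exact (h1 Q' h z hz).trans (le_max_left _ _)
    refine ⟨max N1 l.length, fun y hy => ⟨?_, fun Q hQ z hz => ?_⟩⟩
    · exact ((le_max_right _ _).trans_lt hy).le
    · exact lt_of_le_of_lt ((hN1 Q hQ z hz).trans (le_max_left _ _)) hy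
  set n := max n0 ((allBits l).sup id + 1) with hn
  set k := weight l + 1 with hk
  set r := (allBits l).card + 1 with hr
  -- the finite set
  have hY : ∃ Y : Finset ℕ, (∀ y ∈ Y, y ∈ X ∧ N < y) ∧ ∀ S : ℕ → Set ℕ,
      (∀ y ∈ Y, ∃ j < r, y ∈ S j) → ∃ j < r, ∃ E : Finset ℕ, E ⊆ Y ∧ ↑E ⊆ S j ∧
        Hom g true ↑E ∧ Many Out e1 F1 k n E := by
    by_contra hcon
    push Not at hcon
    obtain ⟨X', h1, h2, h3⟩ := H.thin X hgX e1 F1 r k n N (by
      intro Y hY
      obtain ⟨S, hS1, hS2⟩ := hcon Y hY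
      exact ⟨S, hS1, fun j hj E hE1 hE2 hE3 => hS2 j hj E hE1 hE2 hE3⟩)
    obtain ⟨E, hE1, hE2, hE3⟩ := hC.c2 X' (h1.trans hX) h2 n k
    exact h3 E hE1 hE2 hE3
  obtain ⟨Y, hY1, hY2⟩ := hY
  let fO : Finset ℕ → Finset ℕ := fun E => if h : Many Out e1 F1 k n E then h.choose else ∅
  have hfO : ∀ E, Many Out e1 F1 k n E → k ≤ (fO E).card ∧
      ∀ u ∈ fO E, n ≤ u ∧ Out e1 (↑F1 ∪ ↑E) u := by
    intro E h
    simp only [fO, h, dif_pos]
    exact h.choose_spec
  let P : Pl := ⟨Y, (Y.powerset.filter (fun E : Finset ℕ => Hom g true ↑E ∧ Many Out e1 F1 k n E)).image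
    (fun E => (E, fO E))⟩
  have hPO : ∀ q ∈ P.O, q.1 ⊆ Y ∧ Hom g true ↑q.1 ∧ Many Out e1 F1 k n q.1 ∧ q.2 = fO q.1 := by
    intro q hq
    simp only [P, Finset.mem_image, Finset.mem_filter, Finset.mem_powerset] at hq
    obtain ⟨E, ⟨h1, h2, h3⟩, rfl⟩ := hq
    exact ⟨h1, h2, h3, rfl⟩
  refine ⟨P, ⟨fun y hy => (hY1 y hy).1, fun q hq => ?_⟩, fun q hq => ?_, fun u hu => ?_, ?_,
    fun y hy => hN y (hY1 y hy).2⟩
  · obtain ⟨h1, h2, h3, h4⟩ := hPO q hq
    refine ⟨h2, fun u hu => ?_⟩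
    rw [h4] at hu
    exact ((hfO q.1 h3).2 u hu).2
  · obtain ⟨h1, h2, h3, h4⟩ := hPO q hq
    refine ⟨h1, ?_⟩
    rw [h4]
    have := (hfO q.1 h3).1
    omega
  · obtain ⟨q, hq, hu⟩ := mem_bits.1 hu
    obtain ⟨h1, h2, h3, h4⟩ := hPO q hq
    rw [h4] at hu
    have h5 := ((hfO q.1 h3).2 u hu).1
    refine ⟨(le_max_left _ _).trans h5, fun w hw => ?_⟩
    have h6 : w ≤ (allBits l).sup id := Finset.le_sup (f := id) hw
    have h7 := (le_max_right n0 ((allBits l).sup id + 1)).trans h5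
    omega
  · intro S hS
    by_contra hcon
    push Not at hcon
    obtain ⟨j, hj, E, hE1, hE2, hE3, hE4⟩ := hY2
      (fun j => if h : j < r then S ⟨j, h⟩ else ∅) (by
        intro y hy
        obtain ⟨j, hj⟩ := hcon y hy
        refine ⟨j, j.2, ?_⟩
        show y ∈ (if h : (j : ℕ) < r then S ⟨j, h⟩ else ∅)
        rw [dif_pos j.2]
        exact hj)
    simp only [hj, dif_pos] at hE2
    refine hS ⟨j, hj⟩ (E, fO E) ?_ hE2
    simp only [P, Finset.mem_image, Finset.mem_filter, Finset.mem_powerset]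
    exact ⟨E, ⟨hE1, hE3, hE4⟩, rfl⟩

/-- Conditions of level 0. -/
def P0 (g : ℕ → ℕ → Bool) (GX : Set ℕ → Prop) (X1 : Set ℕ) (F : Finset ℕ) (X : Set ℕ) : Prop :=
  GX X ∧ X ⊆ X1 ∧ (∀ x ∈ F, ∀ y ∈ X, x < y) ∧ SH g ↑F ∧
    ∃ D : Finset ℕ, (∀ x ∈ F, ∀ y ∈ X, g x y = decide (x ∈ D)) ∧ Hom g true (↑F ∩ ↑D)

theorem Env.ext0 (H : Env g A Out GX) {X1 : Set ℕ} {F : Finset ℕ} {X : Set ℕ}
    (hP : P0 g GX X1 F X) (E : Finset ℕ) (N : ℕ) (hE : ↑E ⊆ X) (hSH : SH g ↑E)
    (X' : Set ℕ) (hX' : X' ⊆ X) (hgX' : GX X') (D' : Finset ℕ)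
    (hD' : ∀ x ∈ E, ∀ y ∈ X', x < y → g x y = decide (x ∈ D')) (hHom : Hom g true (↑E ∩ ↑D')) :
    ∃ X'', P0 g GX X1 (F ∪ E) X'' ∧ X'' ⊆ X ∧ ∀ y ∈ X'', N < y := by
  classical
  obtain ⟨h1, h2, h3, h4, D, h5, h6⟩ := hP
  have hlt : ∀ y, max N (E.sup id) < y → ∀ x ∈ E, x < y := by
    intro y hy x hx
    have : x ≤ E.sup id := Finset.le_sup (f := id) hx
    exact lt_of_le_of_lt (this.trans (le_max_right _ _)) hy
  have hFE : ∀ x ∈ F, x ∉ E := fun x hx hxE => lt_irrefl _ (h3 x hx x (hE hxE))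
  refine ⟨{y | y ∈ X' ∧ max N (E.sup id) < y},
    ⟨H.cut X' hgX' _, fun y hy => h2 (hX' hy.1), ?_, ?_, (F ∩ D) ∪ (E ∩ D'), ?_, ?_⟩,
    fun y hy => hX' hy.1, fun y hy => (le_max_left _ _).trans_lt hy.2⟩
  · rintro x hx y ⟨hy1, hy2⟩
    rcases Finset.mem_union.1 hx with hx | hx
    · exact h3 x hx y (hX' hy1)
    · exact hlt y hy2 x hx
  · intro a ha b hb c hc hab hbc
    rw [Finset.coe_union] at ha hb hc
    have key : ∀ x ∈ E, ∀ y ∈ F, ¬ x < y := fun x hx y hy hxy =>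
      lt_asymm hxy (h3 y hy x (hE hx))
    rcases hc with hc | hc
    · rcases ha with ha | ha
      · rcases hb with hb | hb
        · exact h4 a ha b hb c hc hab hbc
        · exact absurd hbc (key b hb c hc)
      · exact absurd (hab.trans hbc) (key a ha c hc)
    · rcases ha with ha | ha
      · rcases hb with hb | hb
        · rintro ⟨k1, k2, k3⟩
          rw [h5 a ha c (hE hc), decide_eq_true_iff] at k2
          rw [h5 b hb c (hE hc), decide_eq_true_iff] at k3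
          rw [h6 a ⟨ha, k2⟩ b ⟨hb, k3⟩ hab] at k1
          exact Bool.false_ne_true k1.symm
        · rintro ⟨k1, k2, -⟩
          rw [h5 a ha c (hE hc)] at k2
          rw [h5 a ha b (hE hb), k2] at k1
          exact Bool.false_ne_true k1.symm
      · rcases hb with hb | hb
        · exact absurd hab (key a ha b hb)
        · exact hSH a ha b hb c hc hab hbc
  · rintro x hx y ⟨hy1, hy2⟩
    rcases Finset.mem_union.1 hx with hx | hx
    · rw [h5 x hx y (hX' hy1)]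
      have := hFE x hx
      simp [hx, this]
    · rw [hD' x hx y hy1 (hlt y hy2 x hx)]
      have : x ∉ F := fun h => hFE x h hx
      simp [hx, this]
  · rintro x ⟨hx1, hx2⟩ y ⟨hy1, hy2⟩ hxy
    simp only [Finset.coe_union, Finset.coe_inter, Set.mem_union, Set.mem_inter_iff,
      Finset.mem_coe] at hx1 hx2 hy1 hy2
    rcases hx2 with hx2 | hx2 <;> rcases hy2 with hy2 | hy2
    · exact h6 x hx2 y hy2 hxy
    · rw [h5 x hx2.1 y (hE hy2.1)]
      simpa using hx2.2
    · exact absurd (h3 y hy2.1 x (hE hx2.1)) (lt_asymm hxy)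
    · exact hHom x hx2 y hy2 hxy

/-- The main relation is satisfied by arbitrarily far assignments. -/
theorem Env.far_rel (hSL : TargetSL) (H : Env g A Out GX) {e1 : ℕ} {v1 : Bool}
    {F1 : Finset ℕ} {X1 : Set ℕ}
    (hC : CaseC g A Out GX e1 v1 F1 X1) (X : Set ℕ) (hX : X ⊆ X1) (hgX : GX X)
    (e : ℕ) (F : Finset ℕ) (v : Bool)
    (hL2 : ∀ X' ⊆ X, GX X' → ∀ n, Hit g Out e F n X') (n0 : ℕ) :
    ∃ a, Far n0 a ∧ Rel g Out e1 e F1 F v1 v X a := by
  classical
  obtain ⟨P, hP1, hP2⟩ := H.pools X hgX e1 e F1 F n0 (H.exists_pool hC X hX hgX n0)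
  have hm : ∃ m, ∀ s : ℕ → ℕ, (∀ i < m, s i ∈ (P i).Y) → Hit g Out e F n0 (s '' {i | i < m}) := by
    by_contra hcon
    push Not at hcon
    obtain ⟨X', h1, h2, h3⟩ := hP2 hcon
    exact h3 (hL2 X' h1 h2 n0)
  obtain ⟨m, hm⟩ := hm
  set ps := (List.range m).map P with hps
  have hlen : ps.length = m := by simp [hps]
  have hmem : ∀ Q ∈ ps, ∃ i < m, P i = Q := by
    intro Q hQ
    simpa [hps] using hQ
  have hmem' : ∀ i < m, P i ∈ ps := by
    intro i hi
    simp only [hps, List.mem_map, List.mem_range]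
    exact ⟨i, hi, rfl⟩
  have hcomb : ∀ (i : ℕ) (h : i < ps.length), Comb n0 (ps.take i) ps[i] := by
    intro i h
    have h1 : ps[i] = P i := by simp [hps]
    have h2 : ps.take i = (List.range i).map P := by
      rw [hps, ← List.map_take, List.take_range]
      rw [hlen] at h
      rw [min_eq_left h.le]
    rw [h1, h2]
    exact (hP1 i).2
  -- the output function
  let Ok : List ℕ → ℕ → Prop := fun l u => n0 ≤ u ∧ ∃ E : Finset ℕ, (∀ x ∈ E, x ∈ l) ∧ SH g ↑E ∧
    Out e (↑F ∪ ↑E) u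
  let φ : List ℕ → ℕ := fun l => if h : ∃ u, Ok l u then h.choose else 0
  have hφ : ∀ l, Sel ps l → Ok l (φ l) := by
    intro l hl
    have hl1 : l.length = m := by rw [← hlen]; exact hl.length_eq.symm
    have hex : ∃ u, Ok l u := by
      obtain ⟨E, hE1, hE2, u, hu1, hu2⟩ := hm (fun i => l.getD i 0) (by
        intro i hi
        have hi' : i < l.length := by omega
        have h2 := List.forall₂_iff_get.1 hl
        have h3 := h2.2 i (by rw [hlen]; exact hi) hi'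
        simp only [List.get_eq_getElem, hps, List.getElem_map, List.getElem_range] at h3
        simpa [List.getD_eq_getElem?_getD, hi'] using h3)
      refine ⟨u, hu1, E, fun x hx => ?_, hE2, hu2⟩
      obtain ⟨i, hi, rfl⟩ := hE1 hx
      have hi' : i < l.length := by
        have : i < m := hi
        omega
      simp [List.getD_eq_getElem?_getD, hi']
    have : φ l = hex.choose := by
      simp only [φ]
      rw [dif_pos hex]
    rw [this]
    exact hex.choose_spec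
  obtain ⟨U, hU1, hU2⟩ := hSL n0 ps hcomb φ
  let sels : List (List ℕ) := (ps.map (fun Q => Q.Y.toList)).sections
  have hsels : ∀ l, Sel ps l → l ∈ sels := by
    intro l hl
    rw [List.mem_sections]
    unfold Sel at hl
    rw [List.forall₂_map_right_iff]
    exact List.Forall₂.flip (hl.imp fun a b hab => by simpa [flip] using hab)
  let val : ℕ → Bool := fun w => if w ∈ allBits ps ∧ w ∉ U then !v1 else !v
  let D1 : Finset ℕ := allBits ps ∪ (sels.filter (fun l => Sel ps l)).toFinset.image φ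
  let a : Asg := (D1, D1.filter (fun w => val w = true))
  have hval : ∀ w ∈ D1, decide (w ∈ a.2) = val w := by
    intro w hw
    have : w ∈ a.2 ↔ val w = true := by simp [a, hw]
    cases h : val w
    · simp [this, h]
    · simp [this, h]
  have hφD : ∀ l, Sel ps l → φ l ∈ D1 := by
    intro l hl
    simp only [D1, Finset.mem_union, Finset.mem_image, List.mem_toFinset, List.mem_filter]
    exact Or.inr ⟨l, ⟨hsels l hl, by simpa using hl⟩, rfl⟩
  refine ⟨a, ?_, (Finset.range m).biUnion (fun i => (P i).Y), ?_, ?_⟩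
  · intro w hw
    simp only [a, D1, Finset.mem_union, Finset.mem_image, List.mem_toFinset,
      List.mem_filter] at hw
    rcases hw with hw | ⟨l, ⟨-, hl⟩, rfl⟩
    · obtain ⟨Q, hQ, hw⟩ := mem_allBits.1 hw
      obtain ⟨i, hi, rfl⟩ := hmem Q hQ
      exact ((hP1 i).2.2.1 w hw).1
    · exact (hφ l (by simpa using hl)).1
  · intro y hy
    simp only [Finset.mem_biUnion, Finset.mem_range] at hy
    obtain ⟨i, hi, hy⟩ := hy
    exact (hP1 i).1.1 y hy
  · intro D hD
    have hYsel : ∀ l, Sel ps l → ∀ x ∈ l, x ∈ (Finset.range m).biUnion (fun i => (P i).Y) := by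
      intro l hl x hx
      obtain ⟨i, hi, hix⟩ := List.getElem_of_mem hx
      have hl1 : l.length = m := by rw [← hlen]; exact hl.length_eq.symm
      have h2 := List.forall₂_iff_get.1 hl
      have h3 := h2.2 i (by rw [hlen]; omega) hi
      simp only [List.get_eq_getElem, hps, List.getElem_map, List.getElem_range] at h3
      simp only [Finset.mem_biUnion, Finset.mem_range]
      exact ⟨i, by omega, by rw [← hix]; exact h3⟩
    by_cases hfree : ∀ Q ∈ ps, Free Q (↑D)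
    · right
      rcases hU2 ↑D hfree with ⟨l, hl1, hl2, hl3⟩ | ⟨l, hl1, hl2, hl3⟩
      · obtain ⟨-, E, hE1, hE2, hE3⟩ := hφ l hl1
        refine ⟨E, ?_, hE2, ?_, φ l, hφD l hl1, ?_, hE3⟩
        · exact Finset.mem_powerset.2 fun x hx => hYsel l hl1 x (hE1 x hx)
        · rintro x ⟨hx1, hx2⟩ y ⟨hy1, hy2⟩ hxy
          have := hl2 x (hE1 x hx1) y (hE1 y hy1) hx2 hy2
          omega
        · rw [hval _ (hφD l hl1)]
          simp [val, hl3]
      · obtain ⟨-, E, hE1, hE2, hE3⟩ := hφ l hl1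
        refine ⟨E, ?_, hE2, ?_, φ l, hφD l hl1, ?_, hE3⟩
        · exact Finset.mem_powerset.2 fun x hx => hYsel l hl1 x (hE1 x hx)
        · rintro x ⟨hx1, hx2⟩ y ⟨hy1, hy2⟩ hxy
          exact absurd hx2 (hl2 x (hE1 x hx1))
        · rw [hval _ (hφD l hl1)]
          simp [val, hl3]
    · left
      simp only [Free, not_forall, not_not] at hfree
      obtain ⟨Q, hQ, q, hq, hqD⟩ := hfree
      obtain ⟨w, hw1, hw2⟩ := hU1 Q hQ q hq
      obtain ⟨i, hi, rfl⟩ := hmem Q hQ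
      have hwA : w ∈ allBits ps := mem_allBits.2 ⟨P i, hQ, mem_bits.2 ⟨q, hq, hw1⟩⟩
      have hwD : w ∈ D1 := Finset.mem_union_left _ hwA
      refine ⟨q.1, ?_, by exact_mod_cast hqD, ((hP1 i).1.2 q hq).1, w, hwD, ?_,
        ((hP1 i).1.2 q hq).2 w hw1⟩
      · refine Finset.mem_powerset.2 fun x hx => ?_
        simp only [Finset.mem_biUnion, Finset.mem_range]
        exact ⟨i, hi, ((hP1 i).2.1 q hq).1 hx⟩
      · rw [hval _ hwD]
        simp [val, hwA, hw2]

end Pool.Agent.CB9
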