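import Pool.Agent.CB9.Search
import Pool.Agent.CB9.Levels0

namespace Pool.Agent.CB9

open Encodable

variable (𝓡 : ℕ → ℕ → Bool → Set Om)

/-! ### Base families -/

/-- The singleton class of a computed real. -/
def famG (e : ℕ) : Fam := fun _ =>
  {Y | ∃ (n : ℕ) (i : Bool), J (L Y) (L Y) ∈ 𝓡 e n i ∧ R Y n = !i}

/-- The class of bad covers. -/
def famThin (p : ℕ × Finset ℕ × ℕ × ℕ × ℕ × ℕ) : Fam := fun _ =>
  {Y | (∃ x, R (L Y) x = true ∧ p.2.2.2.2.2 < x ∧ ∀ j < p.2.2.1, R Y (Nat.pair j x) = false) ∨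
    ∃ j, j < p.2.2.1 ∧ ∃ E : Finset ℕ,
      (∀ x ∈ E, R (L Y) x = true ∧ p.2.2.2.2.2 < x ∧ R Y (Nat.pair j x) = true) ∧
      Hom (col (R (L (L Y)))) true ↑E ∧
      Many (out 𝓡 (L (L (L Y)))) p.1 p.2.1 p.2.2.2.1 p.2.2.2.2.1 E}

/-- The pool relation. -/
def Qr (p : ℕ × Finset ℕ × ℕ) : Om → List Pl → Pl → Prop := fun Z l P =>
  VP (col (R (L Z))) (out 𝓡 (L (L Z))) p.1 p.2.1 (st (R Z)) P ∧ Comb p.2.2 l P

/-- The class of selections without large outputs. -/
def famSel (p : ℕ × Finset ℕ × ℕ) : Fam := fun _ =>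
  {Y | (∃ l, Path (R (L Y)) l ∧ ∃ Q, Q ∈ l ∧ ∀ y ∈ Q.Y, R Y y = false) ∨
    (∃ x, R Y x = true ∧ ∃ l, x < l.length ∧ Path (R (L Y)) l ∧ ∀ Q ∈ l, x ∉ Q.Y) ∨
    Hit (col (R (L (L (L Y))))) (out 𝓡 (L (L (L (L Y))))) p.1 p.2.1 p.2.2 (st (R Y))}

/-- The main relation as a family. -/
def famRel (p : (ℕ × ℕ × Finset ℕ × Finset ℕ) × Bool × Bool) : Fam := fun a =>
  {Y | Rel (col (R (L (L Y)))) (out 𝓡 (L (L (L Y)))) p.1.1 p.1.2.1 p.1.2.2.1 p.1.2.2.2
    p.2.1 p.2.2 (st (R (L Y))) a}

/-- The assignment giving `u` the value `!v`. -/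
def asg (u : ℕ) (v : Bool) : Asg := ({u}, if v then ∅ else {u})

/-- Outputs on `0`-homogeneous sets. -/
def famWrong (p : ℕ × Finset ℕ × Bool) : Fam := fun a =>
  {Y | ∃ E : Finset ℕ, ↑E ⊆ st (R (L Y)) ∧ Hom (col (R (L (L Y)))) false ↑E ∧
    ∃ u, a = asg u p.2.2 ∧ out 𝓡 (L (L (L Y))) p.1 (↑p.2.1 ∪ ↑E) u}

/-! ### Reductions -/

/-- Restriction by colours. -/
noncomputable def tRestr (p : Finset ℕ × Finset ℕ × ℕ) : Om → Om := fun Z =>
  J (L Z) (ind {y | y ∈ st (R Z) ∧ p.2.2 < y ∧ ∀ x ∈ p.1, col (R (L Z)) x y = decide (x ∈ p.2.1)})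

/-- A part of a cover. -/
noncomputable def tThin (p : ℕ × ℕ) : Om → Om := fun Y =>
  J (L (L Y)) (ind {x | x ∈ st (R (L Y)) ∧ p.2 < x ∧ R Y (Nat.pair p.1 x) = true})

/-- The selected set. -/
def tSel : Om → Om := fun Y => J (L (L (L Y))) (R Y)

/-- The full set. -/
noncomputable def tUniv : Om → Om := fun b => J b (ind Set.univ)

/-- The search. -/
noncomputable def tSrch (p : ℕ × Finset ℕ × ℕ) : Om → Om := fun Z => J Z (srch (Qr 𝓡 p) Z)

/-- All base families. -/
def baseB : Set Fam :=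
  Set.range (famG 𝓡) ∪ Set.range (famThin 𝓡) ∪ Set.range (famSel 𝓡) ∪ Set.range (famRel 𝓡) ∪
    Set.range (famWrong 𝓡)

/-- All reductions. -/
def baseT : Set (Om → Om) :=
  Set.range tRestr ∪ Set.range tThin ∪ {tSel} ∪ {tUniv} ∪ Set.range (tSrch 𝓡)

theorem countable_baseB : (baseB 𝓡).Countable := by
  unfold baseB
  refine (((Set.countable_range _).union (Set.countable_range _)).union
    (Set.countable_range _)).union (Set.countable_range _) |>.union (Set.countable_range _)

theorem countable_baseT : (baseT 𝓡).Countable := by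
  unfold baseT
  refine ((((Set.countable_range _).union (Set.countable_range _)).union
    (Set.countable_singleton _)).union (Set.countable_singleton _)).union
    (Set.countable_range _)

theorem cLL : Continuous fun Y => L (L Y) := continuous_L.comp continuous_L
theorem cLLL : Continuous fun Y => L (L (L Y)) := continuous_L.comp cLL
theorem cLLLL : Continuous fun Y => L (L (L (L Y))) := continuous_L.comp cLLL
theorem cRL : Continuous fun Y => R (L Y) := continuous_R.comp continuous_L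
theorem cRLL : Continuous fun Y => R (L (L Y)) := continuous_R.comp cLL
theorem cRLLL : Continuous fun Y => R (L (L (L Y))) := continuous_R.comp cLLL

variable {𝓡}

theorem open_baseB (h𝓡 : ∀ e n i, IsOpen (𝓡 e n i)) : ∀ U ∈ baseB 𝓡, ∀ a, IsOpen (U a) := by
  rintro U ((((⟨e, rfl⟩ | ⟨p, rfl⟩) | ⟨p, rfl⟩) | ⟨p, rfl⟩) | ⟨p, rfl⟩) a
  · unfold famG
    refine open_exists fun n => open_exists fun i => open_and ?_
      (clopen_bit continuous_R n (!i)).isOpen
    exact (h𝓡 e n i).preimage (continuous_JJ continuous_L continuous_L)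
  · unfold famThin
    refine open_or ?_ ?_
    · refine open_exists fun x => open_and (clopen_bit cRL x true).isOpen
        (open_and (clopen_const _).isOpen (open_blt _ fun j _ => ?_))
      exact (clopen_bit continuous_R _ _).isOpen
    · refine open_exists fun j => open_and (clopen_const _).isOpen (open_exists fun E =>
        open_and (open_ball E fun x _ => ?_) (open_and (clopen_Hom cRLL true E).isOpen
        (open_Many cLLL h𝓡 _ _ _ _ _)))
      exact open_and (clopen_bit cRL x true).isOpen (open_and (clopen_const _).isOpen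
        (clopen_bit continuous_R _ _).isOpen)
  · unfold famSel
    refine open_or ?_ (open_or ?_ ?_)
    · refine open_exists fun l => open_and (open_Path cRL l) (open_exists fun Q =>
        open_and (clopen_const _).isOpen (open_ball _ fun y _ => ?_))
      exact (clopen_bit continuous_R _ _).isOpen
    · refine open_exists fun x => open_and (clopen_bit continuous_R x true).isOpen
        (open_exists fun l => open_and (clopen_const _).isOpen (open_and (open_Path cRL l)
        (clopen_const _).isOpen))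
    · exact open_Hit cRLLL cLLLL continuous_R h𝓡 _ _ _
  · exact open_Rel cRLL cLLL cRL h𝓡 _ _ _ _ _ _ a
  · unfold famWrong
    refine open_exists fun E => open_and (clopen_sub cRL E).isOpen
      (open_and (clopen_Hom cRLL false E).isOpen (open_exists fun u =>
      open_and (clopen_const _).isOpen (open_out cLLL h𝓡 _ _ u)))

theorem ind_true {S : Om → Set ℕ} {n : ℕ} : {Y : Om | ind (S Y) n = true} = {Y | n ∈ S Y} := by
  ext Y
  simp [ind]

theorem continuous_baseT : ∀ θ ∈ baseT 𝓡, Continuous θ := by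
  rintro θ ((((⟨p, rfl⟩ | ⟨p, rfl⟩) | rfl) | rfl) | ⟨p, rfl⟩)
  · refine continuous_JJ continuous_L (continuous_of_clopen fun n => ?_)
    rw [ind_true]
    refine clopen_and (clopen_bit continuous_R n true) (clopen_and (clopen_const _)
      (clopen_ball _ fun x _ => ?_))
    exact clopen_bit cRL _ _
  · refine continuous_JJ cLL (continuous_of_clopen fun n => ?_)
    rw [ind_true]
    exact clopen_and (clopen_bit cRL n true) (clopen_and (clopen_const _)
      (clopen_bit continuous_R _ _))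
  · exact continuous_JJ cLLL continuous_R
  · exact continuous_JJ continuous_id continuous_const
  · exact continuous_JJ continuous_id (continuous_srch _)

/-! ### Consequences of goodness -/

theorem good_reduce {T : Set (Om → Om)} {𝓕 : Set Fam} (hC : Clone T 𝓕) {A : ℕ → Bool} {Z : Om}
    (hZ : Good 𝓕 A Z) {θ : Om → Om} (hθ : θ ∈ T) : Good 𝓕 A (θ Z) := by
  intro U hU V hV h1 h2
  have hK : K (fun a => {Y | J (θ (L Y)) (R Y) ∈ U a}) Z = K U (θ Z) := by
    ext β
    simp only [K, Set.mem_ofPred_eq, L_J, R_J]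
  obtain ⟨β, hβ, a, ha1, ha2⟩ := hZ _ (hC.comp θ hθ U hU) _ (hC.comp θ hθ V hV)
    (by rw [hK]; exact h1) (by
      intro β hβ n
      rw [hK] at hβ
      obtain ⟨a, ha1, ha2⟩ := h2 β hβ n
      refine ⟨a, ha1, ?_⟩
      simpa only [Set.mem_ofPred_eq, L_J, R_J] using ha2)
  rw [hK] at hβ
  refine ⟨β, hβ, a, ?_, ha2⟩
  simpa only [Set.mem_ofPred_eq, L_J, R_J] using ha1

/-- Goodness for the trivial class. -/
theorem good_trivial {T : Set (Om → Om)} {𝓕 : Set Fam} (hC : Clone T 𝓕) {A : ℕ → Bool} {Z : Om}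
    (hZ : Good 𝓕 A Z) {V : Fam} (hV : V ∈ 𝓕)
    (h : ∀ β n, ∃ a, Far n a ∧ J Z β ∈ V a) : ∃ β a, J Z β ∈ V a ∧ Agr a A := by
  have h0 := hC.clopen ∅ isClopen_empty
  obtain ⟨β, -, a, ha⟩ := hZ _ h0 V hV ⟨fun _ => true, fun a => by simp⟩ (fun β _ n => h β n)
  exact ⟨β, a, ha⟩

end Pool.Agent.CB9
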