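import Pool.Agent.CB9.Defs

namespace Pool.Agent.CB9

/-- `S` is homogeneous for `g` with colour `c`. -/
def Hom (g : ℕ → ℕ → Bool) (c : Bool) (S : Set ℕ) : Prop :=
  ∀ x ∈ S, ∀ y ∈ S, x < y → g x y = c

/-- `S` avoids the pattern `120`. -/
def SH (g : ℕ → ℕ → Bool) (S : Set ℕ) : Prop :=
  ∀ a ∈ S, ∀ b ∈ S, ∀ c ∈ S, a < b → b < c →
    ¬ (g a b = false ∧ g a c = true ∧ g b c = true)

/-- `F ∪ E` has at least `k` outputs which are at least `n`. -/
def Many (Out : ℕ → Set ℕ → ℕ → Prop) (e : ℕ) (F : Finset ℕ) (k n : ℕ) (E : Finset ℕ) : Prop :=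
  ∃ O : Finset ℕ, k ≤ O.card ∧ ∀ u ∈ O, n ≤ u ∧ Out e (↑F ∪ ↑E) u

/-- A pool which is verified inside `X`. -/
def VP (g : ℕ → ℕ → Bool) (Out : ℕ → Set ℕ → ℕ → Prop) (e : ℕ) (F : Finset ℕ) (X : Set ℕ)
    (P : Pl) : Prop :=
  (∀ y ∈ P.Y, y ∈ X) ∧ ∀ q ∈ P.O, Hom g true (↑q.1) ∧ ∀ u ∈ q.2, Out e (↑F ∪ ↑q.1) u

/-- The finite set `S` contains an `SH` subset with a large output. -/
def Hit (g : ℕ → ℕ → Bool) (Out : ℕ → Set ℕ → ℕ → Prop) (e : ℕ) (F : Finset ℕ) (n0 : ℕ)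
    (S : Set ℕ) : Prop :=
  ∃ E : Finset ℕ, ↑E ⊆ S ∧ SH g ↑E ∧ ∃ u, n0 ≤ u ∧ Out e (↑F ∪ ↑E) u

/-- The main relation. -/
def Rel (g : ℕ → ℕ → Bool) (Out : ℕ → Set ℕ → ℕ → Prop) (e e' : ℕ) (F F' : Finset ℕ)
    (v v' : Bool) (X : Set ℕ) (a : Asg) : Prop :=
  ∃ Y : Finset ℕ, (∀ y ∈ Y, y ∈ X) ∧ ∀ D ∈ Y.powerset,
    (∃ E ∈ Y.powerset, E ⊆ D ∧ Hom g true ↑E ∧
      ∃ w ∈ a.1, decide (w ∈ a.2) = (!v) ∧ Out e (↑F ∪ ↑E) w) ∨
    (∃ E ∈ Y.powerset, SH g ↑E ∧ Hom g true (↑E ∩ ↑D) ∧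
      ∃ u ∈ a.1, decide (u ∈ a.2) = (!v') ∧ Out e' (↑F' ∪ ↑E) u)

/-- What the combinatorial argument needs to know about goodness. -/
structure Env (g : ℕ → ℕ → Bool) (A : ℕ → Bool) (Out : ℕ → Set ℕ → ℕ → Prop)
    (GX : Set ℕ → Prop) : Prop where
  use : ∀ e G u, Out e G u → ∃ m, ∀ G' : Set ℕ, (∀ n < m, n ∈ G' ↔ n ∈ G) → Out e G' u
  univ : GX Set.univ
  inf : ∀ X, GX X → X.Infinite
  restr : ∀ X, GX X → ∀ (E D : Finset ℕ) (N : ℕ),
    {y | y ∈ X ∧ N < y ∧ ∀ x ∈ E, g x y = decide (x ∈ D)}.Infinite →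
    GX {y | y ∈ X ∧ N < y ∧ ∀ x ∈ E, g x y = decide (x ∈ D)}
  thin : ∀ X, GX X → ∀ (e : ℕ) (F : Finset ℕ) (r k n N : ℕ),
    (∀ Y : Finset ℕ, (∀ y ∈ Y, y ∈ X ∧ N < y) → ∃ S : ℕ → Set ℕ,
      (∀ y ∈ Y, ∃ j < r, y ∈ S j) ∧
      ∀ j < r, ∀ E : Finset ℕ, E ⊆ Y → ↑E ⊆ S j → Hom g true ↑E → ¬ Many Out e F k n E) →
    ∃ X' ⊆ X, GX X' ∧
      ∀ E : Finset ℕ, ↑E ⊆ X' → Hom g true ↑E → ¬ Many Out e F k n E
  wrong : ∀ X, GX X → ∀ (e : ℕ) (F : Finset ℕ) (v : Bool),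
    (∀ n, ∃ E : Finset ℕ, ↑E ⊆ X ∧ Hom g false ↑E ∧ ∃ u, n ≤ u ∧ Out e (↑F ∪ ↑E) u) →
    ∃ E : Finset ℕ, ↑E ⊆ X ∧ Hom g false ↑E ∧ ∃ u, A u = (!v) ∧ Out e (↑F ∪ ↑E) u
  rel : ∀ X, GX X → ∀ (e e' : ℕ) (F F' : Finset ℕ) (v v' : Bool),
    (∀ n, ∃ a, Far n a ∧ Rel g Out e e' F F' v v' X a) →
    ∃ a, Rel g Out e e' F F' v v' X a ∧ Agr a A
  pools : ∀ X, GX X → ∀ (e e' : ℕ) (F F' : Finset ℕ) (n0 : ℕ),
    (∀ l : List Pl, ∃ P, VP g Out e F X P ∧ Comb n0 l P) →
    ∃ P : ℕ → Pl, (∀ i, VP g Out e F X (P i) ∧ Comb n0 ((List.range i).map P) (P i)) ∧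
      ((∀ m, ∃ s : ℕ → ℕ, (∀ i < m, s i ∈ (P i).Y) ∧
          ¬ Hit g Out e' F' n0 (s '' {i | i < m})) →
        ∃ X' ⊆ X, GX X' ∧ ¬ Hit g Out e' F' n0 X')

section generic

theorem generic (ψ : ℕ → ℕ → ℕ → Prop) (P : Finset ℕ → Set ℕ → Prop)
    (Req : ℕ → Set ℕ → Prop)
    (hψ : ∀ F X, P F X → ∀ a ∈ F, ∀ b ∈ F, ∀ c ∈ F, ψ a b c)
    (hadd : ∀ F X, P F X → ∃ F' X', P F' X' ∧ F ⊆ F' ∧ F.card < F'.card ∧
      (∀ x ∈ F', x ∈ F ∨ x ∈ X) ∧ X' ⊆ X)
    (hreq : ∀ i F X, P F X → ∃ F' X', P F' X' ∧ F ⊆ F' ∧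
      (∀ x ∈ F', x ∈ F ∨ x ∈ X) ∧ X' ⊆ X ∧
      ∀ G : Set ℕ, ↑F' ⊆ G → (∀ x ∈ G, x ∈ F' ∨ x ∈ X') →
        (∀ a ∈ G, ∀ b ∈ G, ∀ c ∈ G, ψ a b c) → Req i G)
    (F0 : Finset ℕ) (X0 : Set ℕ) (h0 : P F0 X0) :
    ∃ G : Set ℕ, G.Infinite ∧ (∀ a ∈ G, ∀ b ∈ G, ∀ c ∈ G, ψ a b c) ∧ ∀ i, Req i G := by
  classical
  have step : ∀ i (c : {c : Finset ℕ × Set ℕ // P c.1 c.2}),
      ∃ c' : {c : Finset ℕ × Set ℕ // P c.1 c.2}, c.1.1 ⊆ c'.1.1 ∧
        c.1.1.card < c'.1.1.card ∧ (∀ x ∈ c'.1.1, x ∈ c.1.1 ∨ x ∈ c.1.2) ∧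
        c'.1.2 ⊆ c.1.2 ∧
        ∀ G : Set ℕ, ↑c'.1.1 ⊆ G → (∀ x ∈ G, x ∈ c'.1.1 ∨ x ∈ c'.1.2) →
          (∀ a ∈ G, ∀ b ∈ G, ∀ c ∈ G, ψ a b c) → Req i G := by
    rintro i ⟨⟨F, X⟩, hc⟩
    obtain ⟨F', X', h1, h2, h3, h4, h5⟩ := hadd F X hc
    obtain ⟨F'', X'', k1, k2, k3, k4, k5⟩ := hreq i F' X' h1
    refine ⟨⟨⟨F'', X''⟩, k1⟩, h2.trans k2, h3.trans_le (Finset.card_le_card k2), ?_,
      k4.trans h5, k5⟩
    intro x hx
    rcases k3 x hx with h | h
    · exact h4 x h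
    · exact Or.inr (h5 h)
  choose nxt hn1 hn2 hn3 hn4 hn5 using step
  let c : ℕ → {c : Finset ℕ × Set ℕ // P c.1 c.2} := fun n =>
    Nat.rec ⟨⟨F0, X0⟩, h0⟩ (fun i c => nxt i c) n
  have hc : ∀ n, c (n + 1) = nxt n (c n) := fun n => rfl
  have hF : ∀ n m, n ≤ m → (c n).1.1 ⊆ (c m).1.1 := by
    intro n m h
    induction m, h using Nat.le_induction with
    | base => exact subset_rfl
    | succ m _ ih => rw [hc]; exact ih.trans (hn1 _ _)
  have hX : ∀ n m, n ≤ m → (∀ x ∈ (c m).1.1, x ∈ (c n).1.1 ∨ x ∈ (c n).1.2) ∧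
      (c m).1.2 ⊆ (c n).1.2 := by
    intro n m h
    induction m, h using Nat.le_induction with
    | base => exact ⟨fun x hx => Or.inl hx, subset_rfl⟩
    | succ m _ ih =>
      rw [hc]
      refine ⟨fun x hx => ?_, (hn4 _ _).trans ih.2⟩
      rcases hn3 _ _ x hx with h | h
      · exact ih.1 x h
      · exact Or.inr (ih.2 h)
  have hcard : ∀ n, n ≤ (c n).1.1.card := by
    intro n
    induction n with
    | zero => exact Nat.zero_le _
    | succ n ih => rw [hc]; exact Nat.succ_le_of_lt (ih.trans_lt (hn2 _ _))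
  let G : Set ℕ := {x | ∃ n, x ∈ (c n).1.1}
  have hGF : ∀ n, ∀ x ∈ G, x ∈ (c n).1.1 ∨ x ∈ (c n).1.2 := by
    rintro n x ⟨m, hm⟩
    rcases le_total n m with h | h
    · exact (hX n m h).1 x hm
    · exact Or.inl (hF m n h hm)
  have hGψ : ∀ a ∈ G, ∀ b ∈ G, ∀ c ∈ G, ψ a b c := by
    rintro a ⟨n1, h1⟩ b ⟨n2, h2⟩ d ⟨n3, h3⟩
    have h1' := hF n1 (max n1 (max n2 n3)) (by omega) h1
    have h2' := hF n2 (max n1 (max n2 n3)) (by omega) h2
    have h3' := hF n3 (max n1 (max n2 n3)) (by omega) h3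
    exact hψ _ _ (c (max n1 (max n2 n3))).2 a h1' b h2' d h3'
  refine ⟨G, ?_, hGψ, ?_⟩
  · intro hfin
    obtain ⟨S, hS⟩ := hfin.exists_finset_coe
    have : (c (S.card + 1)).1.1 ⊆ S := by
      intro x hx
      have : x ∈ (S : Set ℕ) := by rw [hS]; exact ⟨S.card + 1, hx⟩
      exact_mod_cast this
    have h1 := Finset.card_le_card this
    have h2 := hcard (S.card + 1)
    omega
  · intro i
    refine hn5 i (c i) G ?_ ?_ hGψ
    · intro x hx
      exact ⟨i + 1, by rw [hc]; exact_mod_cast hx⟩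
    · intro x hx
      have := hGF (i + 1) x hx
      rwa [hc] at this

end generic

section basics

variable {g : ℕ → ℕ → Bool} {A : ℕ → Bool} {Out : ℕ → Set ℕ → ℕ → Prop} {GX : Set ℕ → Prop}

theorem Env.use_finset (H : Env g A Out GX) (e : ℕ) (G : Set ℕ) (O : Finset ℕ)
    (hO : ∀ u ∈ O, Out e G u) :
    ∃ m, ∀ G' : Set ℕ, (∀ n < m, n ∈ G' ↔ n ∈ G) → ∀ u ∈ O, Out e G' u := by
  classical
  induction O using Finset.induction_on with
  | empty => exact ⟨0, fun _ _ u hu => absurd hu (Finset.notMem_empty u)⟩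
  | insert a O _ ih =>
    obtain ⟨m1, h1⟩ := ih fun u hu => hO u (Finset.mem_insert_of_mem hu)
    obtain ⟨m2, h2⟩ := H.use e G a (hO a (Finset.mem_insert_self a O))
    refine ⟨max m1 m2, fun G' hG' u hu => ?_⟩
    rcases Finset.mem_insert.1 hu with rfl | hu
    · exact h2 G' fun n hn => hG' n (lt_of_lt_of_le hn (le_max_right _ _))
    · exact h1 G' (fun n hn => hG' n (lt_of_lt_of_le hn (le_max_left _ _))) u hu

/-- Outputs of a set between `F` and `F ∪ X` are outputs of finite parts. -/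
theorem Env.use_part (H : Env g A Out GX) (e : ℕ) (F : Finset ℕ) (X G : Set ℕ)
    (hFG : ↑F ⊆ G) (hG : ∀ x ∈ G, x ∈ F ∨ x ∈ X) (O : Finset ℕ) (hO : ∀ u ∈ O, Out e G u) :
    ∃ E : Finset ℕ, ↑E ⊆ X ∧ ↑E ⊆ G ∧ ∀ u ∈ O, Out e (↑F ∪ ↑E) u := by
  classical
  obtain ⟨m, hm⟩ := H.use_finset e G O hO
  refine ⟨(Finset.range m).filter (fun x => x ∈ G ∧ x ∈ X), ?_, ?_, ?_⟩
  · intro x hx
    simp only [Finset.coe_filter, Finset.mem_range, Set.mem_ofPred_eq] at hx
    exact hx.2.2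
  · intro x hx
    simp only [Finset.coe_filter, Finset.mem_range, Set.mem_ofPred_eq] at hx
    exact hx.2.1
  · refine hm _ fun n hn => ?_
    simp only [Finset.coe_filter, Finset.mem_range, Set.mem_union, Finset.mem_coe,
      Set.mem_ofPred_eq]
    constructor
    · rintro (h | h)
      · exact hFG h
      · exact h.2.1
    · intro h
      rcases hG n h with h' | h'
      · exact Or.inl h'
      · exact Or.inr ⟨hn, h, h'⟩

/-- Cutting off an initial segment. -/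
theorem Env.cut (H : Env g A Out GX) (X : Set ℕ) (hX : GX X) (N : ℕ) :
    GX {y | y ∈ X ∧ N < y} := by
  have h1 : {y | y ∈ X ∧ N < y ∧ ∀ x ∈ (∅ : Finset ℕ), g x y = decide (x ∈ (∅ : Finset ℕ))} =
      {y | y ∈ X ∧ N < y} := by
    ext y
    simp
  have h2 : {y | y ∈ X ∧ N < y}.Infinite := by
    have h3 := (H.inf X hX).sdiff (Set.finite_Iic N)
    refine h3.mono ?_
    rintro y ⟨hy1, hy2⟩
    exact ⟨hy1, by simpa using hy2⟩
  have := H.restr X hX ∅ ∅ N (by rw [h1]; exact h2)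
  rwa [h1] at this

/-- Deciding the colours of finitely many elements. -/
theorem Env.decide_colors (H : Env g A Out GX) (X : Set ℕ) (hX : GX X) (E : Finset ℕ) (N : ℕ) :
    ∃ D : Finset ℕ, D ⊆ E ∧
      GX {y | y ∈ X ∧ N < y ∧ ∀ x ∈ E, g x y = decide (x ∈ D)} := by
  classical
  have key : ∃ D ∈ E.powerset,
      {y | y ∈ X ∧ N < y ∧ ∀ x ∈ E, g x y = decide (x ∈ D)}.Infinite := by
    by_contra hcon
    push Not at hcon
    have hfin : (⋃ D ∈ E.powerset,
        {y | y ∈ X ∧ N < y ∧ ∀ x ∈ E, g x y = decide (x ∈ D)}).Finite := by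
      refine Set.Finite.biUnion (Finset.finite_toSet _) fun D hD => ?_
      exact hcon D hD
    refine H.inf _ (H.cut X hX N) (hfin.subset ?_)
    rintro y ⟨hy1, hy2⟩
    refine Set.mem_biUnion (x := E.filter (fun x => g x y = true)) ?_ ?_
    · exact_mod_cast Finset.mem_powerset.2 (Finset.filter_subset _ _)
    · refine ⟨hy1, hy2, fun x hx => ?_⟩
      cases h : g x y
      · simp [h]
      · simp [h, hx]
  obtain ⟨D, hD, hinf⟩ := key
  exact ⟨D, Finset.mem_powerset.1 hD, H.restr X hX E D N hinf⟩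

/-- Case A: a good infinite set all of whose elements have limit colour `0`. -/
theorem Env.caseA (H : Env g A Out GX) (XA : Set ℕ) (hXA : GX XA)
    (hfin : ∀ x ∈ XA, {y | y ∈ XA ∧ g x y = true}.Finite) :
    ∃ G : Set ℕ, G.Infinite ∧ SH g G ∧
      ∀ e v, {u | Out e G u}.Finite ∨ ∃ u, Out e G u ∧ A u = (!v) := by
  classical
  let ψ : ℕ → ℕ → ℕ → Prop := fun a b _ => a < b → g a b = false
  let P : Finset ℕ → Set ℕ → Prop := fun F X => GX X ∧ X ⊆ XA ∧
    (∀ x ∈ F, ∀ y ∈ X, x < y ∧ g x y = false) ∧ Hom g false ↑F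
  have hinf : ∀ X, GX X → X ⊆ XA → ∀ (E : Finset ℕ) (N : ℕ), ↑E ⊆ X →
      GX {y | y ∈ X ∧ N < y ∧ ∀ x ∈ E, g x y = decide (x ∈ (∅ : Finset ℕ))} := by
    intro X hX hXX E N hE
    refine H.restr X hX E ∅ N ?_
    have h1 : (⋃ x ∈ E, {y | y ∈ XA ∧ g x y = true}).Finite :=
      Set.Finite.biUnion (Finset.finite_toSet _) fun x hx => hfin x (hXX (hE hx))
    refine ((H.inf _ (H.cut X hX N)).sdiff h1).mono ?_
    rintro y ⟨⟨hy1, hy2⟩, hy3⟩
    refine ⟨hy1, hy2, fun x hx => ?_⟩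
    simp only [Finset.notMem_empty, decide_false]
    by_contra hg
    apply hy3
    refine Set.mem_biUnion (x := x) hx ⟨hXX hy1, ?_⟩
    simpa using hg
  -- extending a condition by a finite homogeneous set
  have hext : ∀ F X, P F X → ∀ (E : Finset ℕ) (N : ℕ), ↑E ⊆ X → Hom g false ↑E →
      ∃ X', P (F ∪ E) X' ∧ X' ⊆ X ∧ ∀ y ∈ X', N < y := by
    rintro F X ⟨h1, h2, h3, h4⟩ E N hE hHE
    refine ⟨{y | y ∈ X ∧ max N (E.sup id) < y ∧
      ∀ x ∈ E, g x y = decide (x ∈ (∅ : Finset ℕ))},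
      ⟨hinf X h1 h2 E _ hE, fun y hy => h2 hy.1, ?_, ?_⟩, fun y hy => hy.1,
      fun y hy => (le_max_left _ _).trans_lt hy.2.1⟩
    · rintro x hx y ⟨hy1, hy2, hy3⟩
      rcases Finset.mem_union.1 hx with hx | hx
      · exact h3 x hx y hy1
      · refine ⟨?_, by simpa using hy3 x hx⟩
        have : x ≤ E.sup id := Finset.le_sup (f := id) hx
        exact lt_of_le_of_lt (this.trans (le_max_right _ _)) hy2
    · intro x hx y hy hxy
      rw [Finset.coe_union] at hx hy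
      rcases hx with hx | hx <;> rcases hy with hy | hy
      · exact h4 x hx y hy hxy
      · exact (h3 x hx y (hE hy)).2
      · have := (h3 y hy x (hE hx)).1
        omega
      · exact hHE x hx y hy hxy
  have hgen := generic ψ P
    (fun i G => ∀ e v, Encodable.decode i = some (e, v) →
      {u | Out e G u}.Finite ∨ ∃ u, Out e G u ∧ A u = (!v))
    (fun F X hP a ha b hb _ _ hab => hP.2.2.2 a ha b hb hab)
    (by
      intro F X hP
      obtain ⟨x, hx⟩ := (H.inf X hP.1).nonempty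
      have hxF : x ∉ F := fun h => lt_irrefl _ (hP.2.2.1 x h x hx).1
      obtain ⟨X', h1, h2, -⟩ := hext F X hP {x} 0 (by simpa using hx) (by
        intro a ha b hb hab
        simp only [Finset.coe_singleton, Set.mem_singleton_iff] at ha hb
        omega)
      refine ⟨F ∪ {x}, X', h1, Finset.subset_union_left, ?_, ?_, h2⟩
      · rw [Finset.card_union_of_disjoint (by simpa using hxF)]
        simp
      · intro y hy
        rcases Finset.mem_union.1 hy with hy | hy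
        · exact Or.inl hy
        · rw [Finset.mem_singleton] at hy
          exact Or.inr (hy ▸ hx)) (by
      intro i F X hP
      rcases hdec : (Encodable.decode i : Option (ℕ × Bool)) with _ | ⟨e, v⟩
      · refine ⟨F, X, hP, subset_rfl, fun x hx => Or.inl hx, subset_rfl, ?_⟩
        intro G _ _ _ e v h
        simp at h
      · by_cases hW : ∃ E : Finset ℕ, ↑E ⊆ X ∧ Hom g false ↑E ∧
          ∃ u, A u = (!v) ∧ Out e (↑F ∪ ↑E) u
        · obtain ⟨E, hE1, hE2, u, hu1, hu2⟩ := hW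
          obtain ⟨m, hm⟩ := H.use e _ u hu2
          obtain ⟨X', h1, h2, h3⟩ := hext F X hP E m hE1 hE2
          refine ⟨F ∪ E, X', h1, Finset.subset_union_left, ?_, h2, ?_⟩
          · intro y hy
            rcases Finset.mem_union.1 hy with hy | hy
            · exact Or.inl hy
            · exact Or.inr (hE1 hy)
          · intro G hG1 hG2 _ e' v' hev
            simp only [Option.some.injEq, Prod.mk.injEq] at hev
            obtain ⟨rfl, rfl⟩ := hev
            refine Or.inr ⟨u, hm G fun n hn => ?_, hu1⟩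
            constructor
            · intro h
              rcases hG2 n h with h | h
              · rwa [← Finset.coe_union]
              · have := h3 n h
                omega
            · intro h
              apply hG1
              rwa [Finset.coe_union]
        · have hn : ∃ n, ¬ ∃ E : Finset ℕ, ↑E ⊆ X ∧ Hom g false ↑E ∧
              ∃ u, n ≤ u ∧ Out e (↑F ∪ ↑E) u := by
            by_contra hcon
            push Not at hcon
            exact hW (H.wrong X hP.1 e F v hcon)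
          obtain ⟨n, hn⟩ := hn
          refine ⟨F, X, hP, subset_rfl, fun x hx => Or.inl hx, subset_rfl, ?_⟩
          intro G hG1 hG2 hG3 e' v' hev
          simp only [Option.some.injEq, Prod.mk.injEq] at hev
          obtain ⟨rfl, rfl⟩ := hev
          refine Or.inl ((Set.finite_Iio n).subset fun u hu => ?_)
          by_contra hun
          obtain ⟨E, hE1, hE2, hE3⟩ := H.use_part e F X G hG1 hG2 {u} (by
            intro w hw
            rw [Finset.mem_singleton] at hw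
            exact hw ▸ hu)
          refine hn ⟨E, hE1, fun a ha b hb hab => ?_, u, by simpa using hun,
            hE3 u (Finset.mem_singleton_self u)⟩
          exact hG3 a (hE2 ha) b (hE2 hb) a (hE2 ha) hab) ∅ XA ⟨hXA, subset_rfl, by simp, by simp [Hom]⟩
  obtain ⟨G, hG1, hG2, hG3⟩ := hgen
  refine ⟨G, hG1, ?_, fun e v => hG3 (Encodable.encode (e, v)) e v (Encodable.encodek _)⟩
  rintro a ha b hb c hc hab hbc ⟨-, h, -⟩
  have := hG2 a ha c hc a ha (hab.trans hbc)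
  rw [this] at h
  exact Bool.false_ne_true h

/-- The data of Case C. -/
structure CaseC (g : ℕ → ℕ → Bool) (A : ℕ → Bool) (Out : ℕ → Set ℕ → ℕ → Prop)
    (GX : Set ℕ → Prop) (e1 : ℕ) (v1 : Bool) (F1 : Finset ℕ) (X1 : Set ℕ) : Prop where
  gx : GX X1
  c1 : ∀ E : Finset ℕ, ↑E ⊆ X1 → Hom g true ↑E → ∀ w, Out e1 (↑F1 ∪ ↑E) w → A w = (!v1) →
    ∀ X' ⊆ X1, GX X' → (∀ x ∈ E, ∀ y ∈ X', x < y → g x y = true) → False
  c2 : ∀ X ⊆ X1, GX X → ∀ n k, ∃ E : Finset ℕ, ↑E ⊆ X ∧ Hom g true ↑E ∧ Many Out e1 F1 k n E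

/-- Cases B and C. -/
theorem Env.caseBC (H : Env g A Out GX)
    (hnA : ∀ X, GX X → ∃ x ∈ X, ¬ {y | y ∈ X ∧ g x y = true}.Finite) :
    (∃ G : Set ℕ, G.Infinite ∧ SH g G ∧
      ∀ e v, {u | Out e G u}.Finite ∨ ∃ u, Out e G u ∧ A u = (!v)) ∨
    ∃ e1 v1 F1 X1, CaseC g A Out GX e1 v1 F1 X1 := by
  classical
  let ψ : ℕ → ℕ → ℕ → Prop := fun a b _ => a < b → g a b = true
  let P : Finset ℕ → Set ℕ → Prop := fun F X => GX X ∧
    (∀ x ∈ F, ∀ y ∈ X, x < y ∧ g x y = true) ∧ Hom g true ↑F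
  let Req : ℕ → Set ℕ → Prop := fun i G => ∀ e v, Encodable.decode i = some (e, v) →
      {u | Out e G u}.Finite ∨ ∃ u, Out e G u ∧ A u = (!v)
  -- extending a condition by a finite homogeneous set
  have hext : ∀ F X, P F X → ∀ (E : Finset ℕ) (N : ℕ), ↑E ⊆ X → Hom g true ↑E →
      ∀ X' ⊆ X, GX X' → (∀ x ∈ E, ∀ y ∈ X', x < y → g x y = true) →
      ∃ X'', P (F ∪ E) X'' ∧ X'' ⊆ X ∧ ∀ y ∈ X'', N < y := by
    rintro F X ⟨h1, h3, h4⟩ E N hE hHE X' hX' hgX' hcol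
    refine ⟨{y | y ∈ X' ∧ max N (E.sup id) < y},
      ⟨H.cut X' hgX' _, ?_, ?_⟩, fun y hy => hX' hy.1,
      fun y hy => (le_max_left _ _).trans_lt hy.2⟩
    · rintro x hx y ⟨hy1, hy2⟩
      rcases Finset.mem_union.1 hx with hx | hx
      · exact h3 x hx y (hX' hy1)
      · have : x ≤ E.sup id := Finset.le_sup (f := id) hx
        have hlt : x < y := lt_of_le_of_lt (this.trans (le_max_right _ _)) hy2
        exact ⟨hlt, hcol x hx y hy1 hlt⟩
    · intro x hx y hy hxy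
      rw [Finset.coe_union] at hx hy
      rcases hx with hx | hx <;> rcases hy with hy | hy
      · exact h4 x hx y hy hxy
      · exact (h3 x hx y (hE hy)).2
      · have := (h3 y hy x (hE hx)).1
        omega
      · exact hHE x hx y hy hxy
  by_cases hB : ∀ i F X, P F X → ∃ F' X', P F' X' ∧ F ⊆ F' ∧
      (∀ x ∈ F', x ∈ F ∨ x ∈ X) ∧ X' ⊆ X ∧
      ∀ G : Set ℕ, ↑F' ⊆ G → (∀ x ∈ G, x ∈ F' ∨ x ∈ X') →
        (∀ a ∈ G, ∀ b ∈ G, ∀ c ∈ G, ψ a b c) → Req i G
  · left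
    obtain ⟨G, hG1, hG2, hG3⟩ := generic ψ P Req
      (fun F X hP a ha b hb _ _ hab => hP.2.2 a ha b hb hab)
      (by
        intro F X hP
        obtain ⟨x, hx, hxinf⟩ := hnA X hP.1
        have hxF : x ∉ F := fun h => lt_irrefl _ (hP.2.1 x h x hx).1
        have hX' : GX {y | y ∈ X ∧ x < y ∧ ∀ z ∈ ({x} : Finset ℕ),
            g z y = decide (z ∈ ({x} : Finset ℕ))} := by
          apply H.restr X hP.1
          rw [← Set.Infinite] at hxinf
          refine (hxinf.sdiff (Set.finite_Iic x)).mono ?_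
          rintro y ⟨⟨hy1, hy2⟩, hy3⟩
          refine ⟨hy1, by simpa using hy3, fun z hz => ?_⟩
          rw [Finset.mem_singleton] at hz
          subst hz
          simpa using hy2
        obtain ⟨X'', h1, h2, -⟩ := hext F X hP {x} 0 (by simpa using hx) (by
          intro a ha b hb hab
          simp only [Finset.coe_singleton, Set.mem_singleton_iff] at ha hb
          omega) _ (fun y hy => hy.1) hX' (by
          intro z hz y hy _
          have := hy.2.2 z hz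
          rw [this]
          simpa using hz)
        refine ⟨F ∪ {x}, X'', h1, Finset.subset_union_left, ?_, ?_, h2⟩
        · rw [Finset.card_union_of_disjoint (by simpa using hxF)]
          simp
        · intro y hy
          rcases Finset.mem_union.1 hy with hy | hy
          · exact Or.inl hy
          · rw [Finset.mem_singleton] at hy
            exact Or.inr (hy ▸ hx))
      hB ∅ Set.univ ⟨H.univ, by simp, by simp [Hom]⟩
    refine ⟨G, hG1, ?_, fun e v => hG3 (Encodable.encode (e, v)) e v (Encodable.encodek _)⟩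
    rintro a ha b hb c hc hab hbc ⟨h, -, -⟩
    have := hG2 a ha b hb a ha hab
    rw [this] at h
    exact Bool.false_ne_true h.symm
  · right
    push Not at hB
    obtain ⟨i, F1, X1, hP1, hno⟩ := hB
    rcases hdec : (Encodable.decode i : Option (ℕ × Bool)) with _ | ⟨e1, v1⟩
    · obtain ⟨G, -, -, -, hG⟩ := hno F1 X1 hP1 subset_rfl (fun x hx => Or.inl hx) subset_rfl
      exact absurd (fun e v h => by simp [hdec] at h) hG
    · refine ⟨e1, v1, F1, X1, hP1.1, ?_, ?_⟩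
      · intro E hE hHE w hw1 hw2 X' hX' hgX' hcol
        obtain ⟨m, hm⟩ := H.use e1 _ w hw1
        obtain ⟨X'', h1, h2, h3⟩ := hext F1 X1 hP1 E m hE hHE X' hX' hgX' hcol
        obtain ⟨G, hG1, hG2, -, hG3⟩ := hno (F1 ∪ E) X'' h1 Finset.subset_union_left (by
          intro y hy
          rcases Finset.mem_union.1 hy with hy | hy
          · exact Or.inl hy
          · exact Or.inr (hE hy)) h2
        apply hG3
        intro e v hev
        rw [hdec] at hev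
        simp only [Option.some.injEq, Prod.mk.injEq] at hev
        obtain ⟨rfl, rfl⟩ := hev
        refine Or.inr ⟨w, hm G fun n hn => ?_, hw2⟩
        constructor
        · intro h
          rcases hG2 n h with h | h
          · rwa [← Finset.coe_union]
          · have := h3 n h
            omega
        · intro h
          apply hG1
          rwa [Finset.coe_union]
      · intro X hX hgX n k
        obtain ⟨G, hG1, hG2, hG3, hG4⟩ := hno F1 X
          ⟨hgX, fun x hx y hy => hP1.2.1 x hx y (hX hy), hP1.2.2⟩ subset_rfl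
          (fun x hx => Or.inl hx) hX
        have hG5 : {u | Out e1 G u}.Infinite := by
          intro hfin
          apply hG4
          intro e v hev
          rw [hdec] at hev
          simp only [Option.some.injEq, Prod.mk.injEq] at hev
          obtain ⟨rfl, rfl⟩ := hev
          exact Or.inl hfin
        obtain ⟨O, hO1, hO2⟩ := (hG5.sdiff (Set.finite_Iio n)).exists_subset_card_eq k
        obtain ⟨E, hE1, hE2, hE3⟩ := H.use_part e1 F1 X G hG1 hG2 O
          (fun u hu => (hO1 hu).1)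
        refine ⟨E, hE1, fun a ha b hb hab => hG3 a (hE2 ha) b (hE2 hb) a (hE2 ha) hab,
          O, hO2.ge, fun u hu => ⟨?_, hE3 u hu⟩⟩
        have := (hO1 hu).2
        simpa using this

end basics

end Pool.Agent.CB9
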