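import Pool.Agent.CB9.Levels0

namespace Pool.Agent.CB9

variable {g : ℕ → ℕ → Bool} {A : ℕ → Bool} {Out : ℕ → Set ℕ → ℕ → Prop} {GX : Set ℕ → Prop}

/-- Every requirement can be satisfied at level 0. -/
theorem Env.dense0 (hSL : TargetSL) (H : Env g A Out GX) {e1 : ℕ} {v1 : Bool}
    {F1 : Finset ℕ} {X1 : Set ℕ}
    (hC : CaseC g A Out GX e1 v1 F1 X1) (e : ℕ) (v : Bool) (F : Finset ℕ) (X : Set ℕ)
    (hP : P0 g GX X1 F X) :
    ∃ F' X', P0 g GX X1 F' X' ∧ F ⊆ F' ∧ (∀ x ∈ F', x ∈ F ∨ x ∈ X) ∧ X' ⊆ X ∧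
      ∀ G : Set ℕ, ↑F' ⊆ G → (∀ x ∈ G, x ∈ F' ∨ x ∈ X') → SH g G →
        ({u | Out e G u}.Finite ∨ ∃ u, Out e G u ∧ A u = (!v)) := by
  classical
  by_contra hcon
  push Not at hcon
  have hX1 : X ⊆ X1 := hP.2.1
  -- a wrong output on a finite set whose elements have a good colour pattern
  have L1 : ∀ E : Finset ℕ, ↑E ⊆ X → SH g ↑E → ∀ u, Out e (↑F ∪ ↑E) u → A u = (!v) →
      ∀ X' ⊆ X, GX X' → ∀ D' : Finset ℕ,
        (∀ x ∈ E, ∀ y ∈ X', x < y → g x y = decide (x ∈ D')) →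
        Hom g true (↑E ∩ ↑D') → False := by
    intro E hE hSH u hu1 hu2 X' hX' hgX' D' hD' hHom
    obtain ⟨m, hm⟩ := H.use e _ u hu1
    obtain ⟨X'', h1, h2, h3⟩ := H.ext0 hP E m hE hSH X' hX' hgX' D' hD' hHom
    obtain ⟨G, hG1, hG2, -, -, hG3⟩ := hcon (F ∪ E) X'' h1 Finset.subset_union_left (by
      intro y hy
      rcases Finset.mem_union.1 hy with hy | hy
      · exact Or.inl hy
      · exact Or.inr (hE hy)) h2
    refine hG3 u (hm G fun n hn => ?_) hu2
    constructor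
    · intro h
      rcases hG2 n h with h | h
      · rwa [← Finset.coe_union]
      · have := h3 n h
        omega
    · intro h
      apply hG1
      rwa [Finset.coe_union]
  have L2 : ∀ X' ⊆ X, GX X' → ∀ n, Hit g Out e F n X' := by
    intro X' hX' hgX' n
    obtain ⟨h1, h2, h3, h4, D, h5, h6⟩ := hP
    obtain ⟨G, hG1, hG2, hG3, hG4, -⟩ := hcon F X'
      ⟨hgX', hX'.trans h2, fun x hx y hy => h3 x hx y (hX' hy), h4, D,
        fun x hx y hy => h5 x hx y (hX' hy), h6⟩ subset_rfl (fun x hx => Or.inl hx) hX'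
    obtain ⟨u, hu1, hu2⟩ := (hG4.sdiff (Set.finite_Iio n)).nonempty
    obtain ⟨E, hE1, hE2, hE3⟩ := H.use_part e F X' G hG1 hG2 {u} (by
      intro w hw
      rw [Finset.mem_singleton] at hw
      exact hw ▸ hu1)
    exact ⟨E, hE1, fun a ha b hb c hc => hG3 a (hE2 ha) b (hE2 hb) c (hE2 hc), u,
      by simpa using hu2, hE3 u (Finset.mem_singleton_self u)⟩
  obtain ⟨a, ⟨Y, hY, ha⟩, hagr⟩ := H.rel X hP.1 e1 e F1 F v1 v
    (H.far_rel hSL hC X hX1 hP.1 e F v L2)
  obtain ⟨D, hD, hgX'⟩ := H.decide_colors X hP.1 Y 0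
  rcases ha D (Finset.mem_powerset.2 hD) with ⟨E, hE1, hE2, hE3, w, hw1, hw2, hw3⟩ |
    ⟨E, hE1, hE2, hE3, u, hu1, hu2, hu3⟩
  · refine hC.c1 E (fun x hx => hX1 (hY x (Finset.mem_powerset.1 hE1 hx))) hE3 w hw3
      (by rw [hagr w hw1, hw2]) _ (fun y hy => hX1 hy.1) hgX' ?_
    intro x hx y hy _
    rw [hy.2.2 x (Finset.mem_powerset.1 hE1 hx)]
    simpa using hE2 hx
  · refine L1 E (fun x hx => hY x (Finset.mem_powerset.1 hE1 hx)) hE2 u hu3
      (by rw [hagr u hu1, hu2]) _ (fun y hy => hy.1) hgX' D ?_ hE3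
    intro x hx y hy _
    exact hy.2.2 x (Finset.mem_powerset.1 hE1 hx)

/-- The combinatorial part of the main theorem. -/
theorem Env.main (hSL : TargetSL) (H : Env g A Out GX) :
    ∃ G : Set ℕ, G.Infinite ∧ SH g G ∧
      ∀ e v, {u | Out e G u}.Finite ∨ ∃ u, Out e G u ∧ A u = (!v) := by
  classical
  by_cases hA : ∃ X, GX X ∧ ∀ x ∈ X, {y | y ∈ X ∧ g x y = true}.Finite
  · obtain ⟨X, h1, h2⟩ := hA
    exact H.caseA X h1 h2
  push Not at hA
  rcases H.caseBC (fun X hX => hA X hX) with h | ⟨e1, v1, F1, X1, hC⟩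
  · exact h
  let ψ : ℕ → ℕ → ℕ → Prop := fun a b c => a < b → b < c →
    ¬ (g a b = false ∧ g a c = true ∧ g b c = true)
  let Req : ℕ → Set ℕ → Prop := fun i G => ∀ e v, Encodable.decode i = some (e, v) →
      {u | Out e G u}.Finite ∨ ∃ u, Out e G u ∧ A u = (!v)
  obtain ⟨G, hG1, hG2, hG3⟩ := generic ψ (P0 g GX X1) Req
    (fun F X hP a ha b hb c hc hab hbc => hP.2.2.2.1 a ha b hb c hc hab hbc)
    (by
      intro F X hP
      obtain ⟨x, hx⟩ := (H.inf X hP.1).nonempty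
      have hxF : x ∉ F := fun h => lt_irrefl _ (hP.2.2.1 x h x hx)
      obtain ⟨D, hD, hgX'⟩ := H.decide_colors X hP.1 {x} 0
      obtain ⟨X'', h1, h2, -⟩ := H.ext0 hP {x} 0 (by simpa using hx) (by
        intro a ha b hb c hc hab hbc
        simp only [Finset.coe_singleton, Set.mem_singleton_iff] at ha hb
        omega) _ (fun y hy => hy.1) hgX' D (fun z hz y hy _ => hy.2.2 z hz) (by
        rintro a ⟨ha, -⟩ b ⟨hb, -⟩ hab
        simp only [Finset.coe_singleton, Set.mem_singleton_iff] at ha hb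
        omega)
      refine ⟨F ∪ {x}, X'', h1, Finset.subset_union_left, ?_, ?_, h2⟩
      · rw [Finset.card_union_of_disjoint (by simpa using hxF)]
        simp
      · intro y hy
        rcases Finset.mem_union.1 hy with hy | hy
        · exact Or.inl hy
        · rw [Finset.mem_singleton] at hy
          exact Or.inr (hy ▸ hx))
    (by
      intro i F X hP
      rcases hdec : (Encodable.decode i : Option (ℕ × Bool)) with _ | ⟨e, v⟩
      · refine ⟨F, X, hP, subset_rfl, fun x hx => Or.inl hx, subset_rfl, ?_⟩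
        intro G _ _ _ e v h
        simp [hdec] at h
      · obtain ⟨F', X', h1, h2, h3, h4, h5⟩ := H.dense0 hSL hC e v F X hP
        refine ⟨F', X', h1, h2, h3, h4, ?_⟩
        intro G hG1 hG2 hG3 e' v' hev
        rw [hdec] at hev
        simp only [Option.some.injEq, Prod.mk.injEq] at hev
        obtain ⟨rfl, rfl⟩ := hev
        exact h5 G hG1 hG2 (fun a ha b hb c hc hab hbc => hG3 a ha b hb c hc hab hbc))
    ∅ X1 ⟨hC.gx, subset_rfl, by simp, by simp [SH], ∅, by simp, by simp [Hom]⟩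
  exact ⟨G, hG1, fun a ha b hb c hc hab hbc => hG2 a ha b hb c hc hab hbc,
    fun e v => hG3 (Encodable.encode (e, v)) e v (Encodable.encodek _)⟩

end Pool.Agent.CB9
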