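import Pool.Agent.CB9.Defs

/-!
Preservation of goodness (job CB9-PRES of MP_cb9c95_lc).
-/

namespace Pool.Agent.CB9.Pres

open Set Pool.Agent.CB9

theorem mem_K {U : Fam} {Z β : Om} : β ∈ K U Z ↔ ∀ a, J Z β ∉ U a := Iff.rfl

theorem isClosed_K {U : Fam} (hU : ∀ a, IsOpen (U a)) (Z : Om) : IsClosed (K U Z) := by
  have h : K U Z = ⋂ a, (fun β => J Z β) ⁻¹' (U a)ᶜ := by
    ext β
    simp [K]
  rw [h]
  refine isClosed_iInter fun a => IsClosed.preimage ?_ (hU a).isClosed_compl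
  exact continuous_J.comp (continuous_const.prodMk continuous_id)

/-- The requirement of goodness for one pair of families. -/
def Req (A : ℕ → Bool) (U V : Fam) (Z : Om) : Prop :=
  (K U Z).Nonempty → (∀ β ∈ K U Z, ∀ n, ∃ a, Far n a ∧ J Z β ∈ V a) →
    ∃ β ∈ K U Z, ∃ a, J Z β ∈ V a ∧ Agr a A

theorem good_iff {𝓕 : Set Fam} {A : ℕ → Bool} {Z : Om} :
    Good 𝓕 A Z ↔ ∀ U ∈ 𝓕, ∀ V ∈ 𝓕, Req A U V Z := Iff.rfl

theorem exists_clopen {O : Set Om} (hO : IsOpen O) {x : Om} (hx : x ∈ O) :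
    ∃ C : Set Om, IsClopen C ∧ x ∈ C ∧ C ⊆ O :=
  compact_exists_isClopen_in_isOpen hO hx

theorem step {T : Set (Om → Om)} {𝓕 : Set Fam} (c : Clone T 𝓕) {A : ℕ → Bool} {Z : Om}
    (hg : Good 𝓕 A Z) {W U V : Fam} (hW : W ∈ 𝓕) (hU : U ∈ 𝓕) (hV : V ∈ 𝓕)
    (hne : (K W Z).Nonempty) :
    ∃ W' ∈ 𝓕, (K W' Z).Nonempty ∧ K W' Z ⊆ K W Z ∧ ∀ β ∈ K W' Z, Req A U V (J Z β) := by
  classical
  by_cases h1 : ∃ β ∈ K W Z, ¬ (K U (J Z β)).Nonempty
  · obtain ⟨β, hβ, hemp⟩ := h1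
    have hO : IsOpen {Y : Om | ∀ γ, ∃ a, J Y γ ∈ U a} :=
      c.isOpen _ (c.proj U hU) (∅, ∅)
    have hmem : J Z β ∈ {Y : Om | ∀ γ, ∃ a, J Y γ ∈ U a} := by
      intro γ
      by_contra hcon
      push Not at hcon
      exact hemp ⟨γ, hcon⟩
    obtain ⟨C, hC, hxC, hCO⟩ := exists_clopen hO hmem
    refine ⟨_, c.union W hW _ (c.clopen Cᶜ hC.compl), ⟨β, ?_⟩, ?_, ?_⟩
    · intro a ha
      rcases ha with ha | ha
      · exact hβ a ha
      · exact ha hxC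
    · intro β' hβ' a ha
      exact hβ' a (Or.inl ha)
    · intro β' hβ' hne' _
      obtain ⟨γ, hγ⟩ := hne'
      have hC' : J Z β' ∈ C := by
        by_contra hcon
        exact hβ' (∅, ∅) (Or.inr hcon)
      obtain ⟨a, ha⟩ := hCO hC' γ
      exact absurd ha (hγ a)
  push Not at h1
  by_cases h2 : ∃ β ∈ K W Z, ∃ γ ∈ K U (J Z β), ∃ n, ∀ a, ¬ (Far n a ∧ J (J Z β) γ ∈ V a)
  · obtain ⟨β, hβ, γ, hγ, n, hn⟩ := h2
    refine ⟨_, c.proj _ (c.union _ (c.left W hW) _ (c.union _ hU _ (c.far n V hV))), ⟨β, ?_⟩, ?_, ?_⟩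
    · intro a ha
      obtain ⟨a', ha'⟩ := ha γ
      rcases ha' with ha' | ha' | ha'
      · rw [mem_ofPred_eq, L_J] at ha'
        exact hβ a' ha'
      · exact hγ a' ha'
      · exact hn a' ha'
    · intro β' hβ' a ha
      refine hβ' a fun γ' => ⟨a, Or.inl ?_⟩
      rw [mem_ofPred_eq, L_J]
      exact ha
    · intro β' hβ' _ hprem
      exfalso
      have h := hβ' (∅, ∅)
      simp only [mem_ofPred_eq, not_forall, not_exists] at h
      obtain ⟨γ', hγ'⟩ := h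
      have hγK : γ' ∈ K U (J Z β') := fun a ha => hγ' a (Or.inr (Or.inl ha))
      obtain ⟨a, hfar, ha⟩ := hprem γ' hγK n
      exact hγ' a (Or.inr (Or.inr ⟨hfar, ha⟩))
  push Not at h2
  -- third case
  have hU' := c.assoc _ (c.union _ (c.left W hW) _ hU)
  have hV' := c.assoc V hV
  have hchar : ∀ δ : Om, δ ∈ K (fun a => {Y | J (J (L Y) (L (R Y))) (R (R Y)) ∈
      (fun a => {Y | L Y ∈ W a} ∪ U a) a}) Z → L δ ∈ K W Z ∧ R δ ∈ K U (J Z (L δ)) := by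
    intro δ hδ
    constructor
    · intro a ha
      apply hδ a
      simp only [mem_ofPred_eq, L_J, R_J]
      exact Or.inl (by simpa using ha)
    · intro a ha
      apply hδ a
      simp only [mem_ofPred_eq, L_J, R_J]
      exact Or.inr ha
  have happ := hg _ hU' _ hV' ?_ ?_
  · obtain ⟨δ, hδ, a, haV, hAgr⟩ := happ
    simp only [mem_ofPred_eq, L_J, R_J] at haV
    obtain ⟨hδL, hδR⟩ := hchar δ hδ
    obtain ⟨C, hC, hxC, hCO⟩ := exists_clopen (c.isOpen V hV a) haV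
    refine ⟨_, c.proj _ (c.union _ (c.left W hW) _ (c.union _ hU _ (c.clopen Cᶜ hC.compl))),
      ⟨L δ, ?_⟩, ?_, ?_⟩
    · intro a' ha'
      obtain ⟨b, hb⟩ := ha' (R δ)
      rcases hb with hb | hb | hb
      · rw [mem_ofPred_eq, L_J] at hb
        exact hδL b hb
      · exact hδR b hb
      · exact hb hxC
    · intro β' hβ' b hb
      refine hβ' b fun γ' => ⟨b, Or.inl ?_⟩
      rw [mem_ofPred_eq, L_J]
      exact hb
    · intro β' hβ' _ _
      have h := hβ' (∅, ∅)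
      simp only [mem_ofPred_eq, not_forall, not_exists] at h
      obtain ⟨γ', hγ'⟩ := h
      refine ⟨γ', fun b hb => hγ' b (Or.inr (Or.inl hb)), a, hCO ?_, hAgr⟩
      by_contra hcon
      exact hγ' (∅, ∅) (Or.inr (Or.inr hcon))
  · obtain ⟨β, hβ⟩ := hne
    obtain ⟨γ, hγ⟩ := h1 β hβ
    refine ⟨J β γ, ?_⟩
    intro a ha
    simp only [mem_ofPred_eq, L_J, R_J] at ha
    rcases ha with ha | ha
    · rw [mem_ofPred_eq, L_J] at ha
      exact hβ a ha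
    · exact hγ a ha
  · intro δ hδ n
    obtain ⟨hδL, hδR⟩ := hchar δ hδ
    obtain ⟨a, hfar, ha⟩ := h2 (L δ) hδL (R δ) hδR n
    refine ⟨a, hfar, ?_⟩
    simp only [mem_ofPred_eq, L_J, R_J]
    exact ha

theorem targetPreserve : TargetPreserve := by
  classical
  intro T 𝓕 c A Z hg U hU hne
  -- enumerate the pairs
  have hcount : (𝓕 ×ˢ 𝓕).Countable := c.countable.prod c.countable
  have hnon : (𝓕 ×ˢ 𝓕).Nonempty := ⟨(U, U), hU, hU⟩
  obtain ⟨e, he⟩ := hcount.exists_eq_range hnon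
  have hmem : ∀ n, (e n).1 ∈ 𝓕 ∧ (e n).2 ∈ 𝓕 := by
    intro n
    have : e n ∈ 𝓕 ×ˢ 𝓕 := by rw [he]; exact mem_range_self n
    exact this
  -- the sequence of families
  let S := {W : Fam // W ∈ 𝓕 ∧ (K W Z).Nonempty}
  have hstep : ∀ (n : ℕ) (W : S), ∃ W' : S, K W'.1 Z ⊆ K W.1 Z ∧
      ∀ β ∈ K W'.1 Z, Req A (e n).1 (e n).2 (J Z β) := by
    intro n W
    obtain ⟨W', h1, h2, h3, h4⟩ := step c hg W.2.1 (hmem n).1 (hmem n).2 W.2.2
    exact ⟨⟨W', h1, h2⟩, h3, h4⟩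
  choose F hF1 hF2 using hstep
  let seq : ℕ → S := fun n => Nat.rec (motive := fun _ => S) ⟨U, hU, hne⟩ (fun n W => F n W) n
  have hseq0 : (seq 0).1 = U := rfl
  have hseqS : ∀ n, seq (n + 1) = F n (seq n) := fun n => rfl
  have hdec : ∀ n, K (seq (n + 1)).1 Z ⊆ K (seq n).1 Z := by
    intro n
    rw [hseqS]
    exact hF1 n (seq n)
  have hclosed : ∀ n, IsClosed (K (seq n).1 Z) := fun n => isClosed_K (c.isOpen _ (seq n).2.1) Z
  have hinter : (⋂ n, K (seq n).1 Z).Nonempty :=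
    IsCompact.nonempty_iInter_of_sequence_nonempty_isCompact_isClosed _ hdec
      (fun n => (seq n).2.2) (hclosed 0).isCompact hclosed
  obtain ⟨β, hβ⟩ := hinter
  rw [mem_iInter] at hβ
  refine ⟨β, hβ 0, ?_⟩
  rw [good_iff]
  intro U' hU' V' hV'
  have hp : (U', V') ∈ range e := by
    rw [← he]
    exact ⟨hU', hV'⟩
  obtain ⟨n, hn⟩ := hp
  have := hF2 n (seq n) β (by rw [← hseqS]; exact hβ (n + 1))
  rw [hn] at this
  exact this

end Pool.Agent.CB9.Pres
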