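import Pool.Agent.CB9.Defs

/-!
The finite combinatorial lemma on pools (`TargetSL`).
-/

namespace Pool.Agent.CB9.SL

open Pool.Agent.CB9

/-- `u` is the value of `φ` on a rich tree of selections. -/
def rich (u : ℕ) : List Pl → (List ℕ → ℕ) → Prop
  | [], φ => φ [] = u
  | P :: ps, φ => ∃ q ∈ P.O, ∀ e ∈ q.1, rich u ps (fun l => φ (e :: l))

/-- The well-formedness of a list of pools after earlier pools with bits `B` and `k`
selections. -/
def WF : Finset ℕ → ℕ → List Pl → Prop
  | _, _, [] => True
  | B, k, P :: ps => (∀ q ∈ P.O, q.1 ⊆ P.Y ∧ k < q.2.card) ∧ Disjoint (bits P) B ∧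
      Thick (B.card + 1) P ∧ WF (B ∪ bits P) (k * P.Y.card) ps

theorem allBits_cons (P : Pl) (ps : List Pl) : allBits (P :: ps) = bits P ∪ allBits ps := rfl

theorem allBits_append (l : List Pl) (P : Pl) : allBits (l ++ [P]) = allBits l ∪ bits P := by
  induction l with
  | nil => simp [allBits]
  | cons Q l ih => rw [List.cons_append, allBits_cons, ih, allBits_cons, Finset.union_assoc]

theorem weight_append (l : List Pl) (P : Pl) : weight (l ++ [P]) = weight l * P.Y.card := by
  simp [weight]

theorem WF_of_comb (n0 : ℕ) (ps : List Pl) : ∀ l : List Pl,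
    (∀ (i : ℕ) (h : i < ps.length), Comb n0 (l ++ ps.take i) ps[i]) →
    WF (allBits l) (weight l) ps := by
  induction ps with
  | nil => intro l _; trivial
  | cons P ps ih =>
    intro l h
    have h0 := h 0 (by simp)
    simp only [List.take_zero, List.append_nil, List.getElem_cons_zero] at h0
    refine ⟨h0.1, ?_, h0.2.2.1, ?_⟩
    · rw [Finset.disjoint_left]
      intro u hu hu'
      exact lt_irrefl _ ((h0.2.1 u hu).2 u hu')
    · rw [← allBits_append, ← weight_append]
      apply ih
      intro i hi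
      have h1 := h (i + 1) (by simpa using hi)
      simpa using h1

theorem disj_of_WF (ps : List Pl) : ∀ (B : Finset ℕ) (k : ℕ), WF B k ps →
    Disjoint (allBits ps) B := by
  induction ps with
  | nil => intro B k _; simp [allBits]
  | cons P ps ih =>
    intro B k h
    rw [allBits_cons, Finset.disjoint_union_left]
    exact ⟨h.2.1, (ih _ _ h.2.2.2).mono_right Finset.subset_union_left⟩

theorem descent (u : ℕ) (β : Set ℕ) (ps : List Pl) : ∀ (B : Finset ℕ) (k : ℕ)
    (φ : List ℕ → ℕ), WF B k ps → (∀ P ∈ ps, Free P β) → rich u ps φ →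
    ∃ l, Sel ps l ∧ (∀ x ∈ l, x ∉ β) ∧ φ l = u := by
  induction ps with
  | nil =>
    intro B k φ _ _ h
    exact ⟨[], List.Forall₂.nil, by simp, h⟩
  | cons P ps ih =>
    intro B k φ hW hF h
    obtain ⟨q, hq, hr⟩ := h
    have h1 := hF P (by simp) q hq
    rw [Set.not_subset] at h1
    obtain ⟨e, he, heβ⟩ := h1
    obtain ⟨l, hl, hlβ, hlu⟩ := ih _ _ (fun l => φ (e :: l)) hW.2.2.2
      (fun Q hQ => hF Q (List.mem_cons_of_mem _ hQ)) (hr e he)
    refine ⟨e :: l, List.Forall₂.cons ((hW.1 q hq).1 he) hl, ?_, hlu⟩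
    intro x hx
    rcases List.mem_cons.1 hx with rfl | hx
    · exact heβ
    · exact hlβ x hx

theorem bits_of_mem {P : Pl} {q : Finset ℕ × Finset ℕ} (hq : q ∈ P.O) : q.2 ⊆ bits P :=
  fun _ hw => Finset.mem_biUnion.2 ⟨q, hq, hw⟩

theorem bits_subset_allBits {P : Pl} {ps : List Pl} (h : P ∈ ps) : bits P ⊆ allBits ps := by
  induction ps with
  | nil => simp at h
  | cons Q ps ih =>
    rw [allBits_cons]
    rcases List.mem_cons.1 h with rfl | h
    · exact Finset.subset_union_left
    · exact (ih h).trans Finset.subset_union_right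

theorem thick_use {P : Pl} {B : Finset ℕ} (hT : Thick (B.card + 1) P) (β : Set ℕ)
    (hβ : Free P β) (T : ℕ → Set ℕ) (hFT : ∀ u ∈ B, Free P (T u)) :
    ∃ y ∈ P.Y, y ∉ β ∧ ∀ u ∈ B, y ∉ T u := by
  obtain ⟨y, hy, hyS⟩ := hT (Fin.cons β (fun j => T (B.equivFin.symm j))) (by
    intro j
    refine Fin.cases ?_ (fun j => ?_) j
    · simpa using hβ
    · simpa using hFT _ (B.equivFin.symm j).2)
  refine ⟨y, hy, by simpa using hyS 0, fun u hu => ?_⟩
  have h1 := hyS (B.equivFin ⟨u, hu⟩).succ
  simpa using h1

open Classical in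
theorem main (ps : List Pl) : ∀ (B : Finset ℕ) (k : ℕ) (nodes : List (List ℕ → ℕ)),
    nodes.length ≤ k → WF B k ps → ∃ U : Finset ℕ, U ⊆ allBits ps ∧
      (∀ P ∈ ps, ∀ q ∈ P.O, ¬ q.2 ⊆ U) ∧
      ∀ β : Set ℕ, (∀ P ∈ ps, Free P β) → ∀ φ ∈ nodes,
        (∃ u ∈ B, rich u ps φ) ∨
        (∃ l, Sel ps l ∧ (∀ x ∈ l, ∀ y ∈ l, x ∈ β → y ∈ β → x = y) ∧ φ l ∈ U) ∨
        (∃ l, Sel ps l ∧ (∀ x ∈ l, x ∉ β) ∧ φ l ∉ B ∪ allBits ps) := by
  induction ps with
  | nil =>
    intro B k nodes _ _
    refine ⟨∅, by simp, by simp, ?_⟩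
    intro β _ φ _
    by_cases h : φ [] ∈ B
    · exact Or.inl ⟨_, h, rfl⟩
    · refine Or.inr (Or.inr ⟨[], List.Forall₂.nil, by simp, ?_⟩)
      simpa [allBits] using h
  | cons P ps ih =>
    intro B k nodes hk hW
    obtain ⟨hO, hdis, hT, hW'⟩ := hW
    obtain ⟨U', hU', hq', hmain⟩ := ih (B ∪ bits P) (k * P.Y.card)
      (nodes.flatMap (fun φ => P.Y.toList.map (fun e => fun l => φ (e :: l))))
      (by
        rw [List.length_flatMap]
        simp only [List.length_map, Finset.length_toList, List.map_const', List.sum_replicate,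
          smul_eq_mul]
        exact Nat.mul_le_mul_right _ hk) hW'
    have hdis' : Disjoint (allBits ps) (B ∪ bits P) := disj_of_WF ps _ _ hW'
    have hdP : Disjoint (allBits ps) (bits P) := hdis'.mono_right Finset.subset_union_right
    set g : (List ℕ → ℕ) → ℕ := fun φ =>
      if h : ∃ u ∈ bits P, ∃ e ∈ P.Y, rich u ps (fun l => φ (e :: l)) then h.choose else 0
      with hg
    set UP : Finset ℕ := (nodes.map g).toFinset.filter (· ∈ bits P) with hUP
    have hUPb : UP ⊆ bits P := fun x hx => (Finset.mem_filter.1 hx).2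
    have hUPc : UP.card ≤ k := by
      refine (Finset.card_filter_le _ _).trans ((List.toFinset_card_le _).trans ?_)
      simpa using hk
    refine ⟨UP ∪ U', ?_, ?_, ?_⟩
    · rw [allBits_cons]
      exact Finset.union_subset_union hUPb hU'
    · intro Q hQ q hq hsub
      rcases List.mem_cons.1 hQ with rfl | hQ
      · have h1 : q.2 ⊆ UP := by
          intro w hw
          rcases Finset.mem_union.1 (hsub hw) with h | h
          · exact h
          · exact absurd (bits_of_mem hq hw) (Finset.disjoint_left.1 hdP (hU' h))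
        have h2 := Finset.card_le_card h1
        have h3 := (hO q hq).2
        omega
      · refine hq' Q hQ q hq ?_
        intro w hw
        rcases Finset.mem_union.1 (hsub hw) with h | h
        · exact absurd (hUPb h)
            (Finset.disjoint_left.1 hdP (bits_subset_allBits hQ (bits_of_mem hq hw)))
        · exact h
    · intro β hβ φ hφ
      by_cases hB : ∃ u ∈ B, rich u (P :: ps) φ
      · exact Or.inl hB
      right
      have hβ' : ∀ Q ∈ ps, Free Q β := fun Q hQ => hβ Q (List.mem_cons_of_mem _ hQ)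
      by_cases h : ∃ u ∈ bits P, ∃ e ∈ P.Y, rich u ps (fun l => φ (e :: l))
      · left
        have hgφ : g φ = h.choose := by
          simp only [hg]
          rw [dif_pos h]
        have hspec := h.choose_spec
        rw [← hgφ] at hspec
        obtain ⟨hgb, e, he, hr⟩ := hspec
        obtain ⟨l, hl, hlβ, hlu⟩ := descent (g φ) β ps _ _ _ hW' hβ' hr
        refine ⟨e :: l, List.Forall₂.cons he hl, ?_, ?_⟩
        · intro x hx y hy hxβ hyβ
          rcases List.mem_cons.1 hx with rfl | hx
          · rcases List.mem_cons.1 hy with rfl | hy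
            · rfl
            · exact absurd hyβ (hlβ y hy)
          · exact absurd hxβ (hlβ x hx)
        · rw [hlu]
          refine Finset.mem_union_left _ (Finset.mem_filter.2 ⟨?_, hgb⟩)
          rw [List.mem_toFinset]
          exact List.mem_map_of_mem hφ
      · obtain ⟨y, hy, hyβ, hyT⟩ := thick_use hT β (hβ P (by simp))
          (fun u => {e | rich u ps (fun l => φ (e :: l))}) (by
            intro u hu q hq hsub
            exact hB ⟨u, hu, q, hq, fun e he => hsub he⟩)
        have hmem : (fun l => φ (y :: l)) ∈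
            nodes.flatMap (fun φ => P.Y.toList.map (fun e => fun l => φ (e :: l))) := by
          rw [List.mem_flatMap]
          exact ⟨φ, hφ, List.mem_map.2 ⟨y, Finset.mem_toList.2 hy, rfl⟩⟩
        rcases hmain β hβ' _ hmem with ⟨u, hu, hr⟩ | ⟨l, hl, hlβ, hlU⟩ | ⟨l, hl, hlβ, hlU⟩
        · exfalso
          rcases Finset.mem_union.1 hu with hu | hu
          · exact hyT u hu hr
          · exact h ⟨u, hu, y, hy, hr⟩
        · left
          refine ⟨y :: l, List.Forall₂.cons hy hl, ?_, Finset.mem_union_right _ hlU⟩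
          intro a ha b hb haβ hbβ
          rcases List.mem_cons.1 ha with rfl | ha
          · exact absurd haβ hyβ
          · rcases List.mem_cons.1 hb with rfl | hb
            · exact absurd hbβ hyβ
            · exact hlβ a ha b hb haβ hbβ
        · right
          refine ⟨y :: l, List.Forall₂.cons hy hl, ?_, ?_⟩
          · intro x hx
            rcases List.mem_cons.1 hx with rfl | hx
            · exact hyβ
            · exact hlβ x hx
          · rw [allBits_cons, ← Finset.union_assoc]
            exact hlU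

theorem targetSL : TargetSL := by
  intro n0 ps hps φ
  have hW : WF ∅ 1 ps := by
    have h := WF_of_comb n0 ps [] (by simpa using hps)
    simpa [allBits, weight] using h
  obtain ⟨U, _, hq, hmain⟩ := main ps ∅ 1 [φ] (by simp) hW
  refine ⟨U, fun P hP q hqO => ?_, fun β hβ => ?_⟩
  · have := hq P hP q hqO
    rw [Finset.not_subset] at this
    exact this
  · rcases hmain β hβ φ (by simp) with ⟨u, hu, _⟩ | h | ⟨l, hl, hlβ, hlU⟩
    · simp at hu
    · exact Or.inl h
    · exact Or.inr ⟨l, hl, hlβ, by simpa using hlU⟩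

end Pool.Agent.CB9.SL
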