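import Pool.Agent.CB9.Defs

/-!
The notions of MP_cb9c95_lc: patterns, separable permutations, computable reducibility.
Uses `Om`, `code` and `orc` from `Defs`.
-/

namespace Pool.Agent.CB9

open Classical in
/-- The characteristic function of a set. -/
noncomputable def chi (H : Set ℕ) : Om := fun n => decide (n ∈ H)

/-- `H` is homogeneous for the colouring `f` of pairs `x < y`. -/
def Homog (f : ℕ → ℕ → Bool) (H : Set ℕ) : Prop :=
  ∃ c, ∀ x ∈ H, ∀ y ∈ H, x < y → f x y = c

/-- `H` avoids the pattern `p` (only the values `p i j` with `i < j` matter). -/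
def Avoids {ℓ : ℕ} (p : Fin ℓ → Fin ℓ → Bool) (f : ℕ → ℕ → Bool) (H : Set ℕ) : Prop :=
  ¬ ∃ x : Fin ℓ → ℕ, StrictMono x ∧ (∀ i, x i ∈ H) ∧ ∀ i j, i < j → f (x i) (x j) = p i j

/-- `RT22` is computably reducible to `RT22(p)`. -/
def Reduces {ℓ : ℕ} (p : Fin ℓ → Fin ℓ → Bool) : Prop :=
  ∀ f : ℕ → ℕ → Bool, ∃ g : ℕ → ℕ → Bool, RecursiveIn {orc (code f)} (orc (code g)) ∧
    ∀ G : Set ℕ, G.Infinite → Avoids p g G →
      ∃ H : Set ℕ, H.Infinite ∧ Homog f H ∧
        RecursiveIn {orc (code f), orc (chi G)} (orc (chi H))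

/-- Direct sum of permutations given as value sequences. -/
def dsum (π σ : List ℕ) : List ℕ := π ++ σ.map (· + π.length)

/-- Skew sum of permutations given as value sequences. -/
def ssum (π σ : List ℕ) : List ℕ := π.map (· + σ.length) ++ σ

/-- Separable permutations, as value sequences. -/
inductive Separable : List ℕ → Prop
  | one : Separable [0]
  | dsum {π σ : List ℕ} : Separable π → Separable σ → Separable (dsum π σ)
  | ssum {π σ : List ℕ} : Separable π → Separable σ → Separable (ssum π σ)

/-- The pattern of a permutation. -/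
def pat (π : List ℕ) : Fin π.length → Fin π.length → Bool :=
  fun x y => if π.get x < π.get y then false else true

/-- `π` contains `σ` as a sub-pattern. -/
def Contains (σ π : List ℕ) : Prop :=
  ∃ x : Fin σ.length → Fin π.length, StrictMono x ∧
    ∀ i j, i < j → pat π (x i) (x j) = pat σ i j

/-- The positive half: patterns with constant rows. -/
def TargetPos : Prop :=
  ∀ (ℓ : ℕ) (p : Fin ℓ → Fin ℓ → Bool),
    (∀ i j k, i < j → i < k → p i j = p i k) → Reduces p

end Pool.Agent.CB9
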