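import Pool.Agent.CB9.MkEnv
import Pool.Agent.CB9.LevelsMain
import Pool.Agent.CB9.Statement
import Pool.Agent.CB9.Clone
import Pool.Agent.CB9.Comp
import Pool.Agent.CB9.Force
import Pool.Agent.CB9.Pres
import Pool.Agent.CB9.SL

namespace Pool.Agent.CB9

theorem col_code {g : ℕ → ℕ → Bool} {a b : ℕ} (h : a < b) : col (code g) a b = g a b := by
  simp [col, code, h]

/-- The main theorem, for reals `γ` computable from `f`. -/
theorem main_real : ∃ (f : ℕ → ℕ → Bool) (A : ℕ → Bool), (∀ x, ∃ N, ∀ y, N ≤ y → f x y = A x) ∧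
    ∀ γ : Om, RecursiveIn {orc (code f)} (orc γ) →
      ∃ G : Set ℕ, G.Infinite ∧ SH (col γ) G ∧
        ∀ H : Set ℕ, H.Infinite → Homog f H →
          ¬ RecursiveIn {orc (code f), orc (chi G)} (orc (chi H)) := by
  obtain ⟨𝓡, h𝓡, hcomp⟩ := Comp.targetComp
  obtain ⟨𝓕, hB, hC⟩ := Clone.targetClone (baseT 𝓡) (baseB 𝓡) (countable_baseT 𝓡)
    continuous_baseT (countable_baseB 𝓡) (open_baseB h𝓡)
  obtain ⟨f, A, hst, hgood⟩ := Force.targetForce 𝓕 hC.countable hC.isOpen
  refine ⟨f, A, hst, fun γ hγ => ?_⟩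
  obtain ⟨e, he⟩ := hcomp (code f) (code f) γ (by simpa using hγ)
  have hfam : famG 𝓡 e ∈ 𝓕 := hB (Or.inl (Or.inl (Or.inl (Or.inl ⟨e, rfl⟩))))
  have hK : ∀ δ, δ ∈ K (famG 𝓡 e) (code f) ↔ δ = γ := by
    intro δ
    simp only [K, famG, Set.mem_ofPred_eq, L_J, R_J, he]
    constructor
    · intro h
      have h' := h (∅, ∅)
      funext n
      by_contra hne
      apply h'
      refine ⟨n, γ n, rfl, ?_⟩
      cases h1 : δ n <;> cases h2 : γ n <;> simp_all
    · rintro rfl _ ⟨n, i, h1, h2⟩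
      rw [h1] at h2
      cases i <;> simp at h2
  obtain ⟨δ, hδ, hb⟩ := Pres.targetPreserve _ 𝓕 hC A _ hgood _ hfam ⟨γ, (hK γ).2 rfl⟩
  rw [hK] at hδ
  subst hδ
  obtain ⟨G, hG1, hG2, hG3⟩ := (mkEnv Pres.targetPreserve h𝓡 hC hB hb).main SL.targetSL
  refine ⟨G, hG1, hG2, fun H hH hhom hrec => ?_⟩
  obtain ⟨e', he'⟩ := hcomp _ _ _ hrec
  obtain ⟨c, hc⟩ := hhom
  have hout : ∀ u, out 𝓡 (code f) e' G u ↔ u ∈ H := by
    intro u
    have := he' u true
    simp only [chi, decide_eq_true_eq] at this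
    exact this
  rcases hG3 e' c with h | ⟨u, h1, h2⟩
  · apply hH
    refine h.subset fun u hu => ?_
    exact (hout u).2 hu
  · have huH := (hout u).1 h1
    obtain ⟨N, hN⟩ := hst u
    obtain ⟨y, hy1, hy2⟩ := hH.exists_gt (max u N)
    have h3 := hc u huH y hy1 (lt_of_le_of_lt (le_max_left _ _) hy2)
    rw [hN y ((le_max_right u N).trans hy2.le), h2] at h3
    cases c <;> simp at h3

theorem recursive_not {O : Set (ℕ →. ℕ)} {γ : Om} (h : RecursiveIn O (orc γ)) :
    RecursiveIn O (orc fun n => !γ n) := by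
  rw [RecursiveIn.iff_nat] at h ⊢
  have h1 : Nat.RecursiveIn O (fun m : ℕ => Part.some (1 - m)) := by
    have h2 : Nat.Primrec (fun m : ℕ => 1 - m) := by
      have := Primrec.nat_sub.comp (Primrec.const 1) (Primrec.id (α := ℕ))
      exact Primrec.nat_iff.1 this
    exact h2.recursiveIn
  refine (Nat.RecursiveIn.comp h1 h).of_eq fun n => ?_
  have key : ∀ b : Bool, ((Part.some (if b = true then 1 else 0) : Part ℕ) >>=
      fun m => Part.some (1 - m)) = Part.some (if (!b) = true then 1 else 0) := by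
    intro b
    cases b <;> simp
  exact key (γ n)

theorem avoids_120 {g : ℕ → ℕ → Bool} {G : Set ℕ} (h : SH (col (code g)) G) :
    Avoids (pat [1, 2, 0]) g G := by
  rintro ⟨x, hx1, hx2, hx3⟩
  have h01 : x 0 < x 1 := hx1 (by decide)
  have h12 : x 1 < x 2 := hx1 (by decide)
  refine h (x 0) (hx2 0) (x 1) (hx2 1) (x 2) (hx2 2) h01 h12 ⟨?_, ?_, ?_⟩
  · rw [col_code h01, hx3 0 1 (by decide)]
    rfl
  · rw [col_code (h01.trans h12), hx3 0 2 (by decide)]
    rfl
  · rw [col_code h12, hx3 1 2 (by decide)]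
    rfl

theorem avoids_102 {g : ℕ → ℕ → Bool} {G : Set ℕ} (h : SH (col fun n => !code g n) G) :
    Avoids (pat [1, 0, 2]) g G := by
  rintro ⟨x, hx1, hx2, hx3⟩
  have h01 : x 0 < x 1 := hx1 (by decide)
  have h12 : x 1 < x 2 := hx1 (by decide)
  have hcol : ∀ a b, a < b → col (fun n => !code g n) a b = !g a b := by
    intro a b hab
    have := col_code (g := g) hab
    simp only [col] at this ⊢
    rw [this]
  refine h (x 0) (hx2 0) (x 1) (hx2 1) (x 2) (hx2 2) h01 h12 ⟨?_, ?_, ?_⟩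
  · rw [hcol _ _ h01, hx3 0 1 (by decide)]
    rfl
  · rw [hcol _ _ (h01.trans h12), hx3 0 2 (by decide)]
    rfl
  · rw [hcol _ _ h12, hx3 1 2 (by decide)]
    rfl

/-- A set avoiding a sub-pattern avoids the pattern. -/
theorem Avoids.of_contains {σ π : List ℕ} (h : Contains σ π) {g : ℕ → ℕ → Bool} {G : Set ℕ}
    (hG : Avoids (pat σ) g G) : Avoids (pat π) g G := by
  obtain ⟨x, hx1, hx2⟩ := h
  rintro ⟨y, hy1, hy2, hy3⟩
  exact hG ⟨fun i => y (x i), hy1.comp hx1, fun i => hy2 _, fun i j hij => by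
    rw [hy3 _ _ (hx1 hij), hx2 i j hij]⟩

/-- The negative half, with one colouring for all patterns containing `120` or `102`. -/
theorem negative : ∃ f : ℕ → ℕ → Bool, (∃ A : ℕ → Bool, ∀ x, ∃ N, ∀ y, N ≤ y → f x y = A x) ∧
    ∀ π : List ℕ, Contains [1, 2, 0] π ∨ Contains [1, 0, 2] π →
      ∀ g : ℕ → ℕ → Bool, RecursiveIn {orc (code f)} (orc (code g)) →
        ∃ G : Set ℕ, G.Infinite ∧ Avoids (pat π) g G ∧
          ∀ H : Set ℕ, H.Infinite → Homog f H →
            ¬ RecursiveIn {orc (code f), orc (chi G)} (orc (chi H)) := by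
  obtain ⟨f, A, h1, h2⟩ := main_real
  refine ⟨f, ⟨A, h1⟩, fun π hπ g hg => ?_⟩
  rcases hπ with hπ | hπ
  · obtain ⟨G, k1, k2, k3⟩ := h2 (code g) hg
    exact ⟨G, k1, (avoids_120 k2).of_contains hπ, k3⟩
  · obtain ⟨G, k1, k2, k3⟩ := h2 _ (recursive_not hg)
    exact ⟨G, k1, (avoids_102 k2).of_contains hπ, k3⟩

theorem separable_120 : Separable [1, 2, 0] := by
  have h1 : Separable (dsum [0] [0]) := Separable.dsum Separable.one Separable.one
  exact Separable.ssum h1 Separable.one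

theorem separable_102 : Separable [1, 0, 2] := by
  have h1 : Separable (ssum [0] [0]) := Separable.ssum Separable.one Separable.one
  exact Separable.dsum h1 Separable.one

theorem contains_self (π : List ℕ) : Contains π π := ⟨id, strictMono_id, fun _ _ _ => rfl⟩

theorem not_reduces {π : List ℕ} (hπ : Contains [1, 2, 0] π ∨ Contains [1, 0, 2] π) :
    ¬ Reduces (pat π) := by
  intro h
  obtain ⟨f, -, h2⟩ := negative
  obtain ⟨g, hg, h3⟩ := h f
  obtain ⟨G, k1, k2, k3⟩ := h2 π hπ g hg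
  obtain ⟨H, l1, l2, l3⟩ := h3 G k1 k2
  exact k3 H l1 l2 l3

end Pool.Agent.CB9
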