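import Pool.Agent.CB9.Interface

namespace Pool.Agent.CB9

open Encodable

variable {𝓡 : ℕ → ℕ → Bool → Set Om}

@[simp] theorem ind_st (x : Om) : ind (st x) = x :=
  (ind_eq fun _ => Iff.rfl).symm

theorem ind_apply {S : Set ℕ} {n : ℕ} : ind S n = true ↔ n ∈ S := by
  simp [ind]

theorem ind_apply_false {S : Set ℕ} {n : ℕ} : ind S n = false ↔ n ∉ S := by
  simp [ind]

/-- Compactness in the form used below. -/
theorem compact_cover (O : ℕ → Set Om) (hO : ∀ m, IsOpen (O m)) (hmono : Monotone O)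
    (hcov : ∀ β, ∃ m, β ∈ O m) : ∃ m, ∀ β, β ∈ O m := by
  obtain ⟨m, hm⟩ := isCompact_univ.elim_directed_cover O hO
    (fun β _ => Set.mem_iUnion.2 (hcov β)) (directed_of_isDirected_le hmono)
  exact ⟨m, fun β => hm (Set.mem_univ β)⟩

theorem mem_K_thin {f γ : Om} {X : Set ℕ} {e : ℕ} {F : Finset ℕ} {r k n N : ℕ} {β : Om} :
    β ∈ K (famThin 𝓡 (e, F, r, k, n, N)) (J (J f γ) (ind X)) ↔
      ¬ ((∃ x, x ∈ X ∧ N < x ∧ ∀ j < r, β (Nat.pair j x) = false) ∨
        ∃ j, j < r ∧ ∃ E : Finset ℕ, (∀ x ∈ E, x ∈ X ∧ N < x ∧ β (Nat.pair j x) = true) ∧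
          Hom (col γ) true ↑E ∧ Many (out 𝓡 f) e F k n E) := by
  simp only [K, famThin, Set.mem_ofPred_eq, L_J, R_J, ind_apply]
  exact forall_const _

theorem mem_K_sel {f γ h : Om} {X : Set ℕ} {e : ℕ} {F : Finset ℕ} {n0 : ℕ} {β : Om} :
    β ∈ K (famSel 𝓡 (e, F, n0)) (J (J (J f γ) (ind X)) h) ↔
      ¬ ((∃ l, Path h l ∧ ∃ Q, Q ∈ l ∧ ∀ y ∈ Q.Y, β y = false) ∨
        (∃ x, β x = true ∧ ∃ l, x < l.length ∧ Path h l ∧ ∀ Q ∈ l, x ∉ Q.Y) ∨
        Hit (col γ) (out 𝓡 f) e F n0 (st β)) := by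
  simp only [K, famSel, Set.mem_ofPred_eq, L_J, R_J]
  exact forall_const _

theorem mkEnv (hPres : TargetPreserve) (h𝓡 : ∀ e n i, IsOpen (𝓡 e n i)) {𝓕 : Set Fam}
    (hC : Clone (baseT 𝓡) 𝓕) (hB : baseB 𝓡 ⊆ 𝓕) {A : ℕ → Bool} {f γ : Om}
    (hb : Good 𝓕 A (J f γ)) :
    Env (col γ) A (out 𝓡 f) (fun X => X.Infinite ∧ Good 𝓕 A (J (J f γ) (ind X))) where
  use := by
    intro e G u hG
    have hO : IsOpen {x : Om | J f x ∈ 𝓡 e u true} :=
      (h𝓡 e u true).preimage (continuous_JJ continuous_const continuous_id)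
    obtain ⟨t, ht⟩ := exists_use hO (Z := ind G) hG
    refine ⟨t, fun G' hG' => ht (ind G') fun i hi => ?_⟩
    by_cases h : i ∈ G
    · have h' := (hG' i hi).2 h
      simp [ind, h, h']
    · have h' : i ∉ G' := fun h' => h ((hG' i hi).1 h')
      simp [ind, h, h']
  univ := by
    refine ⟨Set.infinite_univ, ?_⟩
    exact good_reduce hC hb (θ := tUniv) (Or.inl (Or.inr rfl))
  inf := fun X h => h.1
  restr := by
    intro X hX E D N hinf
    refine ⟨hinf, ?_⟩
    have := good_reduce hC hX.2 (θ := tRestr (E, D, N))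
      (Or.inl (Or.inl (Or.inl (Or.inl ⟨_, rfl⟩))))
    simpa only [tRestr, L_J, R_J, st_ind] using this
  thin := by
    classical
    intro X hX e F r k n N hyp
    have hne : (K (famThin 𝓡 (e, F, r, k, n, N)) (J (J f γ) (ind X))).Nonempty := by
      by_contra hcon
      rw [Set.not_nonempty_iff_eq_empty] at hcon
      let O : ℕ → Set Om := fun m =>
        {β | (∃ x, (x ≤ m ∧ x ∈ X ∧ N < x) ∧ ∀ j < r, β (Nat.pair j x) = false) ∨
        ∃ j, j < r ∧ ∃ E : Finset ℕ, (∀ x ∈ E, (x ∈ X ∧ N < x) ∧ β (Nat.pair j x) = true) ∧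
          Hom (col γ) true ↑E ∧ Many (out 𝓡 f) e F k n E}
      have hO : ∀ m, IsOpen (O m) := by
        intro m
        refine open_or (open_exists fun x => open_and (clopen_const _).isOpen
          (open_blt _ fun j _ => (clopen_bit continuous_id _ _).isOpen))
          (open_exists fun j => open_and (clopen_const _).isOpen (open_exists fun E =>
          open_and (open_ball E fun x _ => open_and (clopen_const _).isOpen
          (clopen_bit continuous_id _ _).isOpen) (clopen_const _).isOpen))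
      have hmono : Monotone O := by
        intro m m' hm β hβ
        rcases hβ with ⟨x, ⟨h1, h2⟩, h3⟩ | h
        · exact Or.inl ⟨x, ⟨h1.trans hm, h2⟩, h3⟩
        · exact Or.inr h
      have hcov : ∀ β, ∃ m, β ∈ O m := by
        intro β
        have hβ : β ∉ K (famThin 𝓡 (e, F, r, k, n, N)) (J (J f γ) (ind X)) := by
          rw [hcon]
          exact Set.notMem_empty β
        rw [mem_K_thin, not_not] at hβ
        rcases hβ with ⟨x, h1, h2, h3⟩ | ⟨j, hj, E, h1, h2⟩
        · exact ⟨x, Or.inl ⟨x, ⟨le_rfl, h1, h2⟩, h3⟩⟩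
        · exact ⟨0, Or.inr ⟨j, hj, E, fun x hx => ⟨⟨(h1 x hx).1, (h1 x hx).2.1⟩,
            (h1 x hx).2.2⟩, h2⟩⟩
      obtain ⟨m, hm⟩ := compact_cover O hO hmono hcov
      obtain ⟨S, hS1, hS2⟩ := hyp ((Finset.range (m + 1)).filter (fun x => x ∈ X ∧ N < x)) (by
        intro y hy
        simpa using (Finset.mem_filter.1 hy).2)
      set Y := (Finset.range (m + 1)).filter (fun x => x ∈ X ∧ N < x) with hY
      let β : Om := fun q => decide ((Nat.unpair q).2 ∈ Y ∧ (Nat.unpair q).2 ∈ S (Nat.unpair q).1)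
      have hβ : ∀ j x, β (Nat.pair j x) = true ↔ x ∈ Y ∧ x ∈ S j := by
        intro j x
        simp [β]
      rcases hm β with ⟨x, ⟨h1, h2, h3⟩, h4⟩ | ⟨j, hj, E, h1, h2, h3⟩
      · have hxY : x ∈ Y := by
          rw [hY, Finset.mem_filter, Finset.mem_range]
          exact ⟨by omega, h2, h3⟩
        obtain ⟨j, hj, hjx⟩ := hS1 x hxY
        have h5 := h4 j hj
        have h6 := (hβ j x).2 ⟨hxY, hjx⟩
        rw [h5] at h6
        exact Bool.false_ne_true h6
      · refine hS2 j hj E (fun x hx => ((hβ j x).1 (h1 x hx).2).1)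
          (fun x hx => ((hβ j x).1 (h1 x hx).2).2) h2 h3
    obtain ⟨β, hβ, hgood⟩ := hPres _ 𝓕 hC A _ hX.2 _
      (hB (Or.inl (Or.inl (Or.inl (Or.inr ⟨_, rfl⟩))))) hne
    rw [mem_K_thin] at hβ
    push Not at hβ
    obtain ⟨hβ1, hβ2⟩ := hβ
    have hj : ∃ j < r, {x | x ∈ X ∧ N < x ∧ β (Nat.pair j x) = true}.Infinite := by
      by_contra hcon
      push Not at hcon
      have hfin : (⋃ j ∈ Finset.range r, {x | x ∈ X ∧ N < x ∧ β (Nat.pair j x) = true}).Finite := by
        refine Set.Finite.biUnion (Finset.finite_toSet _) fun j hj => ?_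
        exact hcon j (Finset.mem_range.1 hj)
      refine (hX.1.sdiff (Set.finite_Iic N)) (hfin.subset ?_)
      rintro x ⟨hx1, hx2⟩
      have hx3 : N < x := by simpa using hx2
      obtain ⟨j, hj, hjx⟩ := hβ1 x hx1 hx3
      refine Set.mem_biUnion (x := j) (by simpa using hj) ⟨hx1, hx3, ?_⟩
      simpa using hjx
    obtain ⟨j, hj, hjinf⟩ := hj
    refine ⟨_, fun x hx => hx.1, ⟨hjinf, ?_⟩, ?_⟩
    · have := good_reduce hC hgood (θ := tThin (j, N)) (Or.inl (Or.inl (Or.inl (Or.inr ⟨_, rfl⟩))))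
      simpa only [tThin, L_J, R_J, st_ind] using this
    · intro E hE hHom
      exact hβ2 j hj E (fun x hx => hE hx) hHom
  wrong := by
    intro X hX e F v hyp
    obtain ⟨β, a, ha1, ha2⟩ := good_trivial hC hX.2 (V := famWrong 𝓡 (e, F, v))
      (hB (Or.inr ⟨_, rfl⟩)) (by
        intro β n
        obtain ⟨E, h1, h2, u, h3, h4⟩ := hyp n
        refine ⟨asg u v, ?_, ?_⟩
        · intro x hx
          simp only [asg, Finset.mem_singleton] at hx
          omega
        · simp only [famWrong, Set.mem_ofPred_eq, L_J, R_J, st_ind]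
          exact ⟨E, h1, h2, u, rfl, h4⟩)
    simp only [famWrong, Set.mem_ofPred_eq, L_J, R_J, st_ind] at ha1
    obtain ⟨E, h1, h2, u, rfl, h4⟩ := ha1
    refine ⟨E, h1, h2, u, ?_, h4⟩
    have := ha2 u (by simp [asg])
    rw [this]
    cases v <;> simp [asg]
  rel := by
    intro X hX e e' F F' v v' hyp
    obtain ⟨β, a, ha1, ha2⟩ := good_trivial hC hX.2 (V := famRel 𝓡 ((e, e', F, F'), (v, v')))
      (hB (Or.inl (Or.inr ⟨_, rfl⟩))) (by
        intro β n
        obtain ⟨a, h1, h2⟩ := hyp n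
        refine ⟨a, h1, ?_⟩
        simpa only [famRel, Set.mem_ofPred_eq, L_J, R_J, st_ind] using h2)
    simp only [famRel, Set.mem_ofPred_eq, L_J, R_J, st_ind] at ha1
    exact ⟨a, ha1, ha2⟩
  pools := by
    classical
    intro X hX e e' F F' n0 hyp
    set Z := J (J f γ) (ind X) with hZ
    set Q := Qr 𝓡 (e, F, n0) with hQ
    have hQZ : ∀ l P, Q Z l P ↔ VP (col γ) (out 𝓡 f) e F X P ∧ Comb n0 l P := by
      intro l P
      simp only [hQ, hZ, Qr, L_J, R_J, st_ind]
    have hQo : ∀ l P, IsOpen {Z | Q Z l P} := by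
      intro l P
      exact open_and (open_VP cRL cLL continuous_R h𝓡 _ _ _) (clopen_const _).isOpen
    obtain ⟨P, hP1, hP2⟩ := exists_seq (Q := Q) (Z := Z) fun l =>
      exists_Lw hQo ((hyp l).imp fun P hP => (hQZ l P).2 hP)
    refine ⟨P, fun i => (hQZ _ _).1 (hP1 i), fun hbad => ?_⟩
    have hgood' : Good 𝓕 A (J Z (srch Q Z)) :=
      good_reduce hC hX.2 (θ := tSrch 𝓡 (e, F, n0)) (Or.inr ⟨_, rfl⟩)
    have hne : (K (famSel 𝓡 (e', F', n0)) (J Z (srch Q Z))).Nonempty := by
      by_contra hcon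
      rw [Set.not_nonempty_iff_eq_empty] at hcon
      let O : ℕ → Set Om := fun m =>
        {S | (∃ i, i < m ∧ ∀ y ∈ (P i).Y, S y = false) ∨
          (∃ x, S x = true ∧ ∀ i ≤ x, x ∉ (P i).Y) ∨
          Hit (col γ) (out 𝓡 f) e' F' n0 (st S)}
      have hO : ∀ m, IsOpen (O m) := by
        intro m
        refine open_or (open_exists fun i => open_and (clopen_const _).isOpen
          (open_ball _ fun y _ => (clopen_bit continuous_id _ _).isOpen)) (open_or
          (open_exists fun x => open_and (clopen_bit continuous_id _ _).isOpen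
          (clopen_const _).isOpen) ?_)
        exact open_Hit (γ := fun _ => γ) (f := fun _ => f) (S := fun S => S) continuous_const
          continuous_const continuous_id h𝓡 _ _ _
      have hmono : Monotone O := by
        intro m m' hm S hS
        rcases hS with ⟨i, h1, h2⟩ | h
        · exact Or.inl ⟨i, lt_of_lt_of_le h1 hm, h2⟩
        · exact Or.inr h
      have hcov : ∀ S, ∃ m, S ∈ O m := by
        intro S
        have hS : S ∉ K (famSel 𝓡 (e', F', n0)) (J Z (srch Q Z)) := by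
          rw [hcon]
          exact Set.notMem_empty S
        rw [hZ, mem_K_sel, not_not] at hS
        rcases hS with ⟨l, h1, Q', h2, h3⟩ | ⟨x, h1, l, h2, h3, h4⟩ | h
        · rw [← hZ, hP2] at h1
          rw [h1] at h2
          simp only [List.mem_map, List.mem_range] at h2
          obtain ⟨i, hi, rfl⟩ := h2
          exact ⟨l.length, Or.inl ⟨i, hi, h3⟩⟩
        · rw [← hZ, hP2] at h3
          refine ⟨0, Or.inr (Or.inl ⟨x, h1, fun i hi => h4 (P i) ?_⟩)⟩
          rw [h3]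
          simp only [List.mem_map, List.mem_range]
          exact ⟨i, by omega, rfl⟩
        · exact ⟨0, Or.inr (Or.inr h)⟩
      obtain ⟨m, hm⟩ := compact_cover O hO hmono hcov
      obtain ⟨s, hs1, hs2⟩ := hbad m
      rcases hm (ind (s '' {i | i < m})) with ⟨i, h1, h2⟩ | ⟨x, h1, h2⟩ | h
      · have h3 := h2 (s i) (hs1 i h1)
        rw [ind_apply_false] at h3
        exact h3 ⟨i, h1, rfl⟩
      · rw [ind_apply] at h1
        obtain ⟨i, hi, rfl⟩ := h1
        refine h2 i ?_ (hs1 i hi)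
        have h3 := (((hQZ _ _).1 (hP1 i)).2.2.2.2 (s i) (hs1 i hi)).1
        simpa using h3
      · rw [st_ind] at h
        exact hs2 h
    obtain ⟨S, hS, hgood⟩ := hPres _ 𝓕 hC A _ hgood' _
      (hB (Or.inl (Or.inl (Or.inr ⟨_, rfl⟩)))) hne
    rw [hZ, mem_K_sel, ← hZ] at hS
    push Not at hS
    obtain ⟨hS1, hS2, hS3⟩ := hS
    have hpath : ∀ n, Path (srch Q Z) ((List.range n).map P) := by
      intro n
      rw [hP2]
      simp
    refine ⟨st S, ?_, ⟨?_, ?_⟩, hS3⟩
    · intro x hx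
      obtain ⟨Q', h1, h2⟩ := hS2 x hx ((List.range (x + 1)).map P) (by simp) (hpath _)
      simp only [List.mem_map, List.mem_range] at h1
      obtain ⟨i, hi, rfl⟩ := h1
      exact ((hQZ _ _).1 (hP1 i)).1.1 x h2
    · refine Set.infinite_of_forall_exists_gt fun i => ?_
      obtain ⟨y, hy1, hy2⟩ := hS1 _ (hpath (i + 2)) (P (i + 1)) (by
        simp only [List.mem_map, List.mem_range]
        exact ⟨i + 1, by omega, rfl⟩)
      refine ⟨y, by simpa [st] using hy2, ?_⟩
      have h3 := (((hQZ _ _).1 (hP1 (i + 1))).2.2.2.2 y hy1).1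
      simp only [List.length_map, List.length_range] at h3
      omega
    · have := good_reduce hC hgood (θ := tSel) (Or.inl (Or.inl (Or.inr rfl)))
      simpa only [tSel, hZ, L_J, R_J, ind_st] using this

end Pool.Agent.CB9
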