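import Pool.Agent.CB9.Statement

/-!
The positive half of the classification: patterns with constant rows.
-/

namespace Pool.Agent.CB9.Pos

open Pool.Agent.CB9

/-! ### Total functions computable in a set of oracles -/

/-- Total functions computable in the oracles `O`. -/
def C (O : Set (ℕ →. ℕ)) (f : ℕ → ℕ) : Prop := Nat.RecursiveIn O (fun n => Part.some (f n))

variable {O : Set (ℕ →. ℕ)}

theorem C.of_eq {f g : ℕ → ℕ} (hf : C O f) (h : ∀ n, f n = g n) : C O g := by
  have : f = g := funext h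
  rwa [← this]

theorem C.comp {f g : ℕ → ℕ} (hf : C O f) (hg : C O g) : C O (fun n => f (g n)) := by
  have h := Nat.RecursiveIn.comp hf hg
  refine h.of_eq fun n => ?_
  simp

theorem C.pair {f g : ℕ → ℕ} (hf : C O f) (hg : C O g) :
    C O (fun n => Nat.pair (f n) (g n)) := by
  have h := Nat.RecursiveIn.pair hf hg
  refine h.of_eq fun n => ?_
  simp [Seq.seq]

theorem C.prim {f : ℕ → ℕ} (hf : Primrec f) : C O f :=
  Nat.Primrec.recursiveIn (Primrec.nat_iff.1 hf)

theorem C.prim₂ {h : ℕ → ℕ → ℕ} (hh : Primrec₂ h) {f g : ℕ → ℕ} (hf : C O f) (hg : C O g) :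
    C O (fun n => h (f n) (g n)) := by
  have h1 : Primrec (fun m : ℕ => h m.unpair.1 m.unpair.2) :=
    hh.comp (Primrec.fst.comp Primrec.unpair) (Primrec.snd.comp Primrec.unpair)
  exact ((C.prim h1).comp (hf.pair hg)).of_eq fun n => by simp

theorem C.const (a : ℕ) : C O (fun _ => a) := C.prim (Primrec.const a)

theorem C.id : C O (fun n => n) := C.prim Primrec.id

theorem C.left {f : ℕ → ℕ} (hf : C O f) : C O (fun n => (Nat.unpair (f n)).1) :=
  (C.prim (Primrec.fst.comp Primrec.unpair)).comp hf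

theorem C.right {f : ℕ → ℕ} (hf : C O f) : C O (fun n => (Nat.unpair (f n)).2) :=
  (C.prim (Primrec.snd.comp Primrec.unpair)).comp hf

theorem C.add {f g : ℕ → ℕ} (hf : C O f) (hg : C O g) : C O (fun n => f n + g n) :=
  C.prim₂ Primrec.nat_add hf hg

theorem C.mul {f g : ℕ → ℕ} (hf : C O f) (hg : C O g) : C O (fun n => f n * g n) :=
  C.prim₂ Primrec.nat_mul hf hg

theorem C.div {f g : ℕ → ℕ} (hf : C O f) (hg : C O g) : C O (fun n => f n / g n) :=
  C.prim₂ Primrec.nat_div hf hg

theorem C.mod {f g : ℕ → ℕ} (hf : C O f) (hg : C O g) : C O (fun n => f n % g n) :=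
  C.prim₂ Primrec.nat_mod hf hg

theorem C.rec {f g h : ℕ → ℕ} (hf : C O f) (hg : C O g) (hh : C O h) :
    C O (fun n => Nat.rec (f n) (fun y r => g (Nat.pair n (Nat.pair y r))) (h n)) := by
  have h1 := Nat.RecursiveIn.prec hf hg
  have h2 : C O (fun p => Nat.rec (f p.unpair.1)
      (fun y r => g (Nat.pair p.unpair.1 (Nat.pair y r))) p.unpair.2) := by
    refine h1.of_eq fun p => ?_
    simp only
    induction p.unpair.2 with
    | zero => rfl
    | succ k ih =>
      simp only [ih]
      simp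
  exact (h2.comp (C.id.pair hh)).of_eq fun n => by simp

theorem C.pow {f g : ℕ → ℕ} (hf : C O f) (hg : C O g) : C O (fun n => f n ^ g n) := by
  have h1 : C O (fun m => Nat.rec 1 (fun y r => (Nat.unpair (Nat.unpair
      (Nat.pair m (Nat.pair y r))).2).2 * (Nat.unpair (Nat.unpair
      (Nat.pair m (Nat.pair y r))).1).1) (Nat.unpair m).2) :=
    C.rec (C.const 1) (C.mul C.id.right.right C.id.left.left) C.id.right
  refine (h1.comp (hf.pair hg)).of_eq fun n => ?_
  simp only [Nat.unpair_pair]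
  induction g n with
  | zero => rfl
  | succ k ih => rw [pow_succ, ← ih]

/-- Boolean valued functions computable in `O`. -/
def CB (O : Set (ℕ →. ℕ)) (f : ℕ → Bool) : Prop := C O (fun n => if f n then 1 else 0)

theorem CB.of_eq {f g : ℕ → Bool} (hf : CB O f) (h : ∀ n, f n = g n) : CB O g := by
  have : f = g := funext h
  rwa [← this]

theorem CB.comp {f : ℕ → Bool} {g : ℕ → ℕ} (hf : CB O f) (hg : C O g) :
    CB O (fun n => f (g n)) := C.comp hf hg

theorem CB.const (b : Bool) : CB O (fun _ => b) := C.const _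

theorem CB.and {f g : ℕ → Bool} (hf : CB O f) (hg : CB O g) : CB O (fun n => f n && g n) :=
  (C.mul hf hg).of_eq fun n => by cases h1 : f n <;> cases h2 : g n <;> simp [h1, h2]

theorem CB.not {f : ℕ → Bool} (hf : CB O f) : CB O (fun n => !f n) := by
  have h1 : Primrec (fun m : ℕ => 1 - m) := Primrec.nat_sub.comp (Primrec.const 1) Primrec.id
  exact ((C.prim h1).comp hf).of_eq fun n => by cases h2 : f n <;> simp [h2]

theorem CB.or {f g : ℕ → Bool} (hf : CB O f) (hg : CB O g) : CB O (fun n => f n || g n) :=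
  (CB.not (hf.not.and hg.not)).of_eq fun n => by cases f n <;> cases g n <;> rfl

theorem CB.eqc {f : ℕ → Bool} (hf : CB O f) (b : Bool) : CB O (fun n => f n == b) := by
  cases b
  · exact hf.not.of_eq fun n => by cases f n <;> rfl
  · exact hf.of_eq fun n => by cases f n <;> rfl

theorem CB.lt {f g : ℕ → ℕ} (hf : C O f) (hg : C O g) : CB O (fun n => decide (f n < g n)) := by
  have h1 : Primrec₂ (fun a b : ℕ => if a < b then 1 else 0) :=
    Primrec.ite (Primrec.nat_lt.comp Primrec.fst Primrec.snd) (Primrec.const 1)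
      (Primrec.const 0)
  exact (C.prim₂ h1 hf hg).of_eq fun n => by simp

theorem CB.eq {f g : ℕ → ℕ} (hf : C O f) (hg : C O g) : CB O (fun n => decide (f n = g n)) := by
  have h1 : Primrec₂ (fun a b : ℕ => if a = b then 1 else 0) :=
    Primrec.ite (Primrec.eq.comp Primrec.fst Primrec.snd) (Primrec.const 1)
      (Primrec.const 0)
  exact (C.prim₂ h1 hf hg).of_eq fun n => by simp

theorem CB.testBit {f g : ℕ → ℕ} (hf : C O f) (hg : C O g) :
    CB O (fun n => (f n).testBit (g n)) :=
  (CB.eq ((hf.div ((C.const 2).pow hg)).mod (C.const 2)) (C.const 1)).of_eq fun n => by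
    rw [Nat.testBit_eq_decide_div_mod_eq]

theorem CB.ball {q : ℕ → Bool} {h : ℕ → ℕ} (hq : CB O q) (hh : C O h) :
    CB O (fun n => decide (∀ z < h n, q (Nat.pair n z) = true)) := by
  have h1 : C O (fun n => Nat.rec 1 (fun y r =>
      (if q (Nat.pair (Nat.unpair (Nat.pair n (Nat.pair y r))).1
        (Nat.unpair (Nat.unpair (Nat.pair n (Nat.pair y r))).2).1) then 1 else 0) *
        (Nat.unpair (Nat.unpair (Nat.pair n (Nat.pair y r))).2).2) (h n)) :=
    C.rec (C.const 1) (C.mul (CB.comp hq (C.id.left.pair C.id.right.left)) C.id.right.right) hh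
  refine h1.of_eq fun n => ?_
  simp only [Nat.unpair_pair]
  suffices h0 : ∀ k, (Nat.rec 1 (fun y r => (if q (Nat.pair n y) = true then 1 else 0) * r) k : ℕ) =
      if decide (∀ z < k, q (Nat.pair n z) = true) = true then 1 else 0 from h0 (h n)
  intro k
  induction k with
  | zero => simp
  | succ k ih =>
    simp only at ih ⊢
    rw [ih]
    by_cases h2 : ∀ z < k, q (Nat.pair n z) = true
    · by_cases h3 : q (Nat.pair n k) = true
      · have h4 : ∀ z < k + 1, q (Nat.pair n z) = true := by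
          intro z hz
          rcases Nat.lt_succ_iff_lt_or_eq.1 hz with h5 | rfl
          · exact h2 z h5
          · exact h3
        rw [if_pos h3, if_pos (by simpa using h2), if_pos (by simpa using h4)]
      · have h4 : ¬ ∀ z < k + 1, q (Nat.pair n z) = true := fun h5 => h3 (h5 k (Nat.lt_succ_self k))
        rw [if_neg h3, if_neg (c := decide (∀ z < k + 1, q (Nat.pair n z) = true) = true)
          (by rw [decide_eq_true_eq]; exact h4), zero_mul]
    · have h4 : ¬ ∀ z < k + 1, q (Nat.pair n z) = true :=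
        fun h5 => h2 fun z hz => h5 z (Nat.lt_succ_of_lt hz)
      rw [if_neg (c := decide (∀ z < k, q (Nat.pair n z) = true) = true)
        (by rw [decide_eq_true_eq]; exact h2),
        if_neg (c := decide (∀ z < k + 1, q (Nat.pair n z) = true) = true)
        (by rw [decide_eq_true_eq]; exact h4), mul_zero]

/-! ### Bit masks and course of values recursion -/

/-- The bit mask of the first values of a set defined by course of values recursion. -/
def mask (b : ℕ → ℕ → Bool) : ℕ → ℕ
  | 0 => 0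
  | n + 1 => 2 ^ n * (if b n (mask b n) then 1 else 0) + mask b n

theorem mask_lt (b : ℕ → ℕ → Bool) (n : ℕ) : mask b n < 2 ^ n := by
  induction n with
  | zero => simp [mask]
  | succ n ih =>
    rw [mask, pow_succ]
    split_ifs <;> omega

theorem testBit_mask (b : ℕ → ℕ → Bool) (n z : ℕ) (hz : z < n) :
    (mask b n).testBit z = b z (mask b z) := by
  induction n with
  | zero => omega
  | succ n ih =>
    rw [mask]
    rcases Nat.lt_succ_iff_lt_or_eq.1 hz with h | rfl
    · split_ifs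
      · rw [mul_one, Nat.testBit_two_pow_add_gt h, ih h]
      · rw [mul_zero, zero_add, ih h]
    · split_ifs with h
      · rw [mul_one, Nat.testBit_two_pow_add_eq, Nat.testBit_lt_two_pow (mask_lt b z), h]
        rfl
      · rw [mul_zero, zero_add, Nat.testBit_lt_two_pow (mask_lt b z)]
        simpa using h

theorem C.mask {b : ℕ → ℕ → Bool} (hb : CB O (fun n => b n.unpair.1 n.unpair.2)) :
    C O (mask b) := by
  have h1 : C O (fun n => Nat.rec 0 (fun y r =>
      2 ^ (Nat.unpair (Nat.unpair (Nat.pair n (Nat.pair y r))).2).1 *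
      (if b (Nat.unpair (Nat.unpair (Nat.pair n (Nat.pair y r))).2).1
        (Nat.unpair (Nat.unpair (Nat.pair n (Nat.pair y r))).2).2 then 1 else 0) +
      (Nat.unpair (Nat.unpair (Nat.pair n (Nat.pair y r))).2).2) n) :=
    C.rec (C.const 0) (C.add (C.mul ((C.const 2).pow C.id.right.left) (CB.comp hb C.id.right))
      C.id.right.right) C.id
  refine h1.of_eq fun n => ?_
  simp only [Nat.unpair_pair]
  suffices h : ∀ k, (Nat.rec 0 (fun y r => 2 ^ y * (if b y r then 1 else 0) + r) k : ℕ) =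
      Pos.mask b k from h n
  intro k
  induction k with
  | zero => rfl
  | succ k ih => rw [Pos.mask, ← ih]

/-- The recursion step of the greedy set. -/
def bf (A : ℕ → Bool) (f : ℕ → ℕ → Bool) (d : Bool) : ℕ → ℕ → Bool := fun y m =>
  A y && decide (∀ z < y, (!m.testBit z || f z y == d) = true)

/-- The greedy set. -/
def D (A : ℕ → Bool) (f : ℕ → ℕ → Bool) (d : Bool) : ℕ → Bool := fun y =>
  bf A f d y (mask (bf A f d) y)

theorem D_iff (A : ℕ → Bool) (f : ℕ → ℕ → Bool) (d : Bool) (y : ℕ) :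
    D A f d y = true ↔ A y = true ∧ ∀ z < y, D A f d z = true → f z y = d := by
  have h : ∀ z < y, (mask (bf A f d) y).testBit z = D A f d z :=
    fun z hz => testBit_mask _ y z hz
  conv_lhs => rw [D, bf]
  simp only [Bool.and_eq_true, decide_eq_true_eq]
  refine and_congr_right fun _ => forall_congr' fun z => forall_congr' fun hz => ?_
  rw [h z hz]
  cases D A f d z <;> simp

/-- The matrix of the bounded quantifier. -/
def qf (F : ℕ → Bool) (d : Bool) : ℕ → Bool := fun n =>
  !(Nat.unpair (Nat.unpair n).1).2.testBit (Nat.unpair n).2 ||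
      F (Nat.pair (Nat.unpair n).2 (Nat.unpair (Nat.unpair n).1).1) == d

theorem CB.qf {F : ℕ → Bool} (hF : CB O F) (d : Bool) : CB O (qf F d) :=
  CB.or (CB.not (CB.testBit C.id.left.right C.id.right))
      (CB.eqc (CB.comp hF (C.id.right.pair C.id.left.left)) d)

theorem CB.D {A : ℕ → Bool} {f : ℕ → ℕ → Bool} (d : Bool) (hA : CB O A)
    (hf : CB O (code f)) : CB O (D A f d) := by
  have h0 : CB O (Pos.qf (code f) d) := CB.qf hf d
  have h1 : CB O (fun n => A n.unpair.1 && decide (∀ z < n.unpair.1,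
      Pos.qf (code f) d (Nat.pair n z) = true)) :=
    CB.and (CB.comp hA C.id.left) (CB.ball h0 C.id.left)
  have h2 : CB O (fun n => bf A f d n.unpair.1 n.unpair.2) := by
    refine h1.of_eq fun n => ?_
    rw [bf]
    congr 1
    rw [decide_eq_decide]
    refine forall_congr' fun z => forall_congr' fun hz => ?_
    rw [Pos.qf]
    simp only [Nat.unpair_pair]
    have h3 : code f (Nat.pair z n.unpair.1) = f z n.unpair.1 := by
      simp [code, hz]
    rw [h3]
  have h3 := (CB.comp h2 (C.id.pair (C.mask h2)))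
  refine h3.of_eq fun n => ?_
  simp only [Nat.unpair_pair]
  rfl

/-! ### The combinatorial argument -/

/-- The remaining elements after `k` steps. -/
def Hs (f : ℕ → ℕ → Bool) (c : ℕ → Bool) (G : Set ℕ) (k : ℕ) (x : ℕ → ℕ) : Set ℕ :=
  {y | y ∈ G ∧ ∀ i < k, x i < y ∧ f (x i) y = c i}

/-- `k` steps are possible. -/
def Q (f : ℕ → ℕ → Bool) (c : ℕ → Bool) (G : Set ℕ) (k : ℕ) : Prop :=
  ∃ x : ℕ → ℕ, (∀ i < k, x i ∈ G) ∧ (∀ j < k, ∀ i < j, x i < x j ∧ f (x i) (x j) = c i) ∧
    (Hs f c G k x).Infinite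

theorem Q_zero (f : ℕ → ℕ → Bool) (c : ℕ → Bool) (G : Set ℕ) (hG : G.Infinite) : Q f c G 0 := by
  refine ⟨fun _ => 0, by omega, by omega, ?_⟩
  have : Hs f c G 0 (fun _ => 0) = G := by
    ext y
    simp [Hs]
  rwa [this]

/-- The row colours of a pattern. -/
def col {ℓ : ℕ} (p : Fin ℓ → Fin ℓ → Bool) (i : ℕ) : Bool :=
  if h : i + 1 < ℓ then p ⟨i, by omega⟩ ⟨i + 1, h⟩ else false

theorem not_Q {ℓ : ℕ} (p : Fin ℓ → Fin ℓ → Bool) (hp : ∀ i j k, i < j → i < k → p i j = p i k)
    (f : ℕ → ℕ → Bool) (G : Set ℕ) (hA : Avoids p f G) : ¬ Q f (col p) G ℓ := by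
  rintro ⟨x, h1, h2, -⟩
  refine hA ⟨fun i => x i, fun i j hij => (h2 j j.2 i hij).1, fun i => h1 i i.2, fun i j hij => ?_⟩
  have h3 : (i : ℕ) + 1 < ℓ := lt_of_le_of_lt (Nat.succ_le_of_lt hij) j.2
  rw [(h2 j j.2 i hij).2, col, dif_pos h3]
  exact hp _ _ _ (Fin.mk_lt_mk.2 (Nat.lt_succ_self _)) hij

theorem exists_step (f : ℕ → ℕ → Bool) (c : ℕ → Bool) (G : Set ℕ) (k : ℕ) (h0 : Q f c G k)
    (h1 : ¬ Q f c G (k + 1)) : ∃ x : ℕ → ℕ, (Hs f c G k x).Infinite ∧
      ∀ z ∈ Hs f c G k x, {y | y ∈ Hs f c G k x ∧ z < y ∧ f z y = c k}.Finite := by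
  obtain ⟨x, hx1, hx2, hx3⟩ := h0
  refine ⟨x, hx3, fun z hz => ?_⟩
  by_contra hinf
  refine h1 ⟨Function.update x k z, ?_, ?_, ?_⟩
  · intro i hi
    rcases Nat.lt_succ_iff_lt_or_eq.1 hi with h | rfl
    · rw [Function.update_of_ne h.ne]
      exact hx1 i h
    · rw [Function.update_self]
      exact hz.1
  · intro j hj i hi
    rcases Nat.lt_succ_iff_lt_or_eq.1 hj with h | rfl
    · rw [Function.update_of_ne h.ne, Function.update_of_ne (by omega)]
      exact hx2 j h i hi
    · rw [Function.update_self, Function.update_of_ne (by omega)]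
      exact hz.2 i hi
  · refine Set.Infinite.mono ?_ hinf
    rintro y ⟨hy1, hy2, hy3⟩
    refine ⟨hy1.1, fun i hi => ?_⟩
    rcases Nat.lt_succ_iff_lt_or_eq.1 hi with h | rfl
    · rw [Function.update_of_ne h.ne]
      exact hy1.2 i h
    · rw [Function.update_self]
      exact ⟨hy2, hy3⟩

theorem D_infinite (A : ℕ → Bool) (f : ℕ → ℕ → Bool) (d : Bool) (hA : {y | A y = true}.Infinite)
    (h : ∀ z, A z = true → {y | A y = true ∧ z < y ∧ f z y = !d}.Finite) :
    {y | D A f d y = true}.Infinite := by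
  intro hfin
  have h1 : (⋃ z ∈ {y | D A f d y = true}, {y | A y = true ∧ z < y ∧ f z y = !d}).Finite :=
    hfin.biUnion fun z hz => h z ((D_iff A f d z).1 hz).1
  obtain ⟨N, hN⟩ := hfin.bddAbove
  obtain ⟨y, hy1, hy2⟩ := (hA.sdiff (h1.union (Set.finite_le_nat N))).nonempty
  have h3 : D A f d y = true := by
    rw [D_iff]
    refine ⟨hy1, fun z hz hz2 => ?_⟩
    by_contra h4
    refine hy2 (Or.inl ?_)
    simp only [Set.mem_iUnion, Set.mem_ofPred_eq]
    refine ⟨z, hz2, hy1, hz, ?_⟩
    cases h5 : f z y <;> cases d <;> simp_all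
  exact hy2 (Or.inr (hN h3))

theorem CB.Hs {O : Set (ℕ →. ℕ)} (f : ℕ → ℕ → Bool) (c : ℕ → Bool) (G : Set ℕ)
    (hf : CB O (code f)) (hG : CB O (chi G)) (x : ℕ → ℕ) (k : ℕ) :
    CB O (chi (Hs f c G k x)) := by
  classical
  induction k with
  | zero =>
    refine hG.of_eq fun n => ?_
    simp [chi, Pos.Hs]
  | succ k ih =>
    refine (CB.and ih (CB.and (CB.lt (C.const (x k)) C.id)
      (CB.eqc (CB.comp hf ((C.const (x k)).pair C.id)) (c k)))).of_eq fun n => ?_
    rw [Bool.eq_iff_iff]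
    simp only [chi, Pos.Hs, Bool.and_eq_true, decide_eq_true_eq, Set.mem_ofPred_eq, beq_iff_eq]
    constructor
    · rintro ⟨⟨h1, h2⟩, h3, h4⟩
      refine ⟨h1, fun i hi => ?_⟩
      rcases Nat.lt_succ_iff_lt_or_eq.1 hi with h | rfl
      · exact h2 i h
      · refine ⟨h3, ?_⟩
        rw [← h4]
        simp [code, h3]
    · rintro ⟨h1, h2⟩
      refine ⟨⟨h1, fun i hi => h2 i (by omega)⟩, (h2 k (by omega)).1, ?_⟩
      rw [← (h2 k (by omega)).2]
      simp [code, (h2 k (by omega)).1]

theorem CB.oracle {O : Set (ℕ →. ℕ)} (x : Om) (h : orc x ∈ O) : CB O x :=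
  Nat.RecursiveIn.oracle _ h

theorem targetPos : TargetPos := by
  classical
  intro ℓ p hp f
  refine ⟨f, ?_, fun G hG hA => ?_⟩
  · rw [RecursiveIn.iff_nat]
    exact Nat.RecursiveIn.oracle _ rfl
  have h1 : ∃ k, Q f (col p) G k ∧ ¬ Q f (col p) G (k + 1) := by
    by_contra hcon
    push Not at hcon
    have h2 : ∀ k, Q f (col p) G k := fun k => by
      induction k with
      | zero => exact Q_zero f _ G hG
      | succ k ih => exact hcon k ih
    exact not_Q p hp f G hA (h2 ℓ)
  obtain ⟨k, hk1, hk2⟩ := h1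
  obtain ⟨x, hx1, hx2⟩ := exists_step f _ G k hk1 hk2
  set S := Hs f (col p) G k x with hS
  set d := !(col p k) with hd
  have hmem : ∀ y, chi S y = true ↔ y ∈ S := fun y => by simp [chi]
  refine ⟨{y | D (chi S) f d y = true}, ?_, ⟨d, fun z hz y hy hzy => ?_⟩, ?_⟩
  · refine D_infinite _ _ _ ?_ fun z hz => ?_
    · simpa only [hmem, Set.ofPred_mem_eq] using hx1
    · refine (hx2 z ((hmem z).1 hz)).subset ?_
      rintro y ⟨h3, h4, h5⟩
      refine ⟨(hmem y).1 h3, h4, ?_⟩
      rw [h5, hd, Bool.not_not]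
  · exact ((D_iff _ _ _ y).1 hy).2 z hzy hz
  · rw [RecursiveIn.iff_nat]
    have h3 : CB {orc (code f), orc (chi G)} (D (chi S) f d) :=
      CB.D d (CB.Hs f _ G (CB.oracle _ (Or.inl rfl)) (CB.oracle _ (Or.inr rfl)) x k)
        (CB.oracle _ (Or.inl rfl))
    refine CB.of_eq h3 fun n => ?_
    rw [Bool.eq_iff_iff]
    simp [chi]

end Pool.Agent.CB9.Pos
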