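import Pool.Agent.CB9.Top

namespace Pool.Agent.CB9

open Encodable

instance : Encodable Pl :=
  Encodable.ofEquiv (Finset ℕ × Finset (Finset ℕ × Finset ℕ))
    ⟨fun P => (P.Y, P.O), fun p => ⟨p.1, p.2⟩, fun _ => rfl, fun _ => rfl⟩

/-- `Q` holds for `p.1` on the cylinder of length `p.2`. -/
def Cy (Q : Om → List Pl → Pl → Prop) (Z : Om) (l : List Pl) (p : Pl × ℕ) : Prop :=
  ∀ W : Om, (∀ i < p.2, W i = Z i) → Q W l p.1

/-- `p` is the least witness. -/
def Lw (Q : Om → List Pl → Pl → Prop) (Z : Om) (l : List Pl) (p : Pl × ℕ) : Prop :=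
  Cy Q Z l p ∧ ∀ m < encode p, ∀ p' : Pl × ℕ, encode p' = m → ¬ Cy Q Z l p'

open Classical in
/-- The real of the least search. -/
noncomputable def srch (Q : Om → List Pl → Pl → Prop) (Z : Om) : Om := fun k =>
  decide (∃ (l : List Pl) (p : Pl × ℕ), encode (l, p) = k ∧ Lw Q Z l p)

theorem srch_enc {Q : Om → List Pl → Pl → Prop} {Z : Om} {l : List Pl} {p : Pl × ℕ} :
    srch Q Z (encode (l, p)) = true ↔ Lw Q Z l p := by
  simp only [srch, decide_eq_true_eq]
  constructor
  · rintro ⟨l', p', h1, h2⟩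
    have := encode_injective h1
    simp only [Prod.mk.injEq] at this
    obtain ⟨rfl, rfl⟩ := this
    exact h2
  · intro h
    exact ⟨l, p, rfl, h⟩

theorem clopen_Cy (Q : Om → List Pl → Pl → Prop) (l : List Pl) (p : Pl × ℕ) :
    IsClopen {Z | Cy Q Z l p} := by
  refine clopen_of_dep p.2 fun Z W h hZ => ?_
  intro V hV
  exact hZ V fun i hi => (hV i hi).trans (h i hi)

theorem clopen_unique {α : Type*} {φ : α → Prop} {p : α → Om → Prop}
    (hφ : ∀ a b, φ a → φ b → a = b) (h : ∀ a, IsClopen {Y | p a Y}) :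
    IsClopen {Y | ∀ a, φ a → p a Y} := by
  by_cases hex : ∃ a, φ a
  · obtain ⟨a, ha⟩ := hex
    have : {Y | ∀ a, φ a → p a Y} = {Y | p a Y} := by
      ext Y
      constructor
      · intro hY
        exact hY a ha
      · intro hY b hb
        rw [hφ b a hb ha]
        exact hY
    rw [this]
    exact h a
  · have : {Y : Om | ∀ a, φ a → p a Y} = Set.univ := by
      ext Y
      simp only [Set.mem_univ, iff_true]
      intro a ha
      exact absurd ⟨a, ha⟩ hex
    rw [this]
    exact isClopen_univ

theorem clopen_Lw (Q : Om → List Pl → Pl → Prop) (l : List Pl) (p : Pl × ℕ) :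
    IsClopen {Z | Lw Q Z l p} := by
  refine clopen_and (clopen_Cy Q l p) (clopen_blt _ fun m _ => ?_)
  refine clopen_unique (fun a b ha hb => encode_injective (ha.trans hb.symm)) fun p' => ?_
  exact clopen_not (clopen_Cy Q l p')

theorem continuous_srch (Q : Om → List Pl → Pl → Prop) : Continuous (srch Q) := by
  refine continuous_of_clopen fun k => ?_
  by_cases hex : ∃ (l : List Pl) (p : Pl × ℕ), encode (l, p) = k
  · obtain ⟨l, p, rfl⟩ := hex
    have : {Y | srch Q Y (encode (l, p)) = true} = {Y | Lw Q Y l p} := by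
      ext Y
      exact srch_enc
    rw [this]
    exact clopen_Lw Q l p
  · have : {Y | srch Q Y k = true} = ∅ := by
      ext Y
      simp only [Set.mem_empty_iff_false, iff_false]
      intro hY
      have hY' : srch Q Y k = true := hY
      simp only [srch, decide_eq_true_eq] at hY'
      obtain ⟨l, p, h, -⟩ := hY'
      exact hex ⟨l, p, h⟩
    rw [this]
    exact isClopen_empty

theorem exists_Lw {Q : Om → List Pl → Pl → Prop} (hQ : ∀ l P, IsOpen {Z | Q Z l P}) {Z : Om}
    {l : List Pl} (h : ∃ P, Q Z l P) : ∃ p, Lw Q Z l p := by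
  classical
  obtain ⟨P, hP⟩ := h
  obtain ⟨t, ht⟩ := exists_use (hQ l P) hP
  have hex : ∃ m, ∃ p : Pl × ℕ, encode p = m ∧ Cy Q Z l p := ⟨_, (P, t), rfl, ht⟩
  obtain ⟨p, hp1, hp2⟩ := Nat.find_spec hex
  refine ⟨p, hp2, fun m hm p' hp' hC => ?_⟩
  rw [hp1] at hm
  exact Nat.find_min hex hm ⟨p', hp', hC⟩

theorem Lw_unique {Q : Om → List Pl → Pl → Prop} {Z : Om} {l : List Pl} {p p' : Pl × ℕ}
    (h : Lw Q Z l p) (h' : Lw Q Z l p') : p = p' := by
  rcases lt_trichotomy (encode p) (encode p') with hlt | heq | hlt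
  · exact absurd h.1 (h'.2 _ hlt p rfl)
  · exact encode_injective heq
  · exact absurd h'.1 (h.2 _ hlt p' rfl)

theorem Lw_Q {Q : Om → List Pl → Pl → Prop} {Z : Om} {l : List Pl} {p : Pl × ℕ}
    (h : Lw Q Z l p) : Q Z l p.1 := h.1 Z fun _ _ => rfl

/-- `l` is a path of the search real `h`. -/
def Path (h : Om) (l : List Pl) : Prop :=
  ∀ j < l.length, ∃ (P : Pl) (t : ℕ), l[j]? = some P ∧ h (encode (l.take j, (P, t))) = true

theorem open_Path {h : Om → Om} (hh : Continuous h) (l : List Pl) :
    IsOpen {Y | Path (h Y) l} := by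
  unfold Path
  refine open_blt _ fun j _ => open_exists fun P => open_exists fun t =>
    open_and (clopen_const _).isOpen (clopen_bit hh _ _).isOpen

/-- The sequence of pools found by the search. -/
theorem exists_seq {Q : Om → List Pl → Pl → Prop} {Z : Om} (h : ∀ l, ∃ p, Lw Q Z l p) :
    ∃ P : ℕ → Pl, (∀ i, Q Z ((List.range i).map P) (P i)) ∧
      (∀ l, Path (srch Q Z) l ↔ l = (List.range l.length).map P) := by
  choose nx hnx using h
  let lst : ℕ → List Pl := fun n => Nat.rec [] (fun _ l => l ++ [(nx l).1]) n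
  have hlst : ∀ n, lst (n + 1) = lst n ++ [(nx (lst n)).1] := fun n => rfl
  let P : ℕ → Pl := fun i => (nx (lst i)).1
  have hmap : ∀ n, (List.range n).map P = lst n := by
    intro n
    induction n with
    | zero => rfl
    | succ n ih => rw [List.range_succ, List.map_append, ih, hlst]; rfl
  refine ⟨P, fun i => ?_, fun l => ⟨fun hl => ?_, fun hl => ?_⟩⟩
  · rw [hmap]
    exact Lw_Q (hnx (lst i))
  · have key : ∀ j ≤ l.length, l.take j = lst j := by
      intro j
      induction j with
      | zero => intro _; simp; rfl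
      | succ j ih =>
        intro hj
        have h1 := ih (by omega)
        obtain ⟨P', t, h2, h3⟩ := hl j (by omega)
        rw [h1, srch_enc] at h3
        have h4 := Lw_unique h3 (hnx (lst j))
        rw [List.take_add_one, h1, h2, hlst, ← h4]
        rfl
    rw [hmap, ← key l.length le_rfl, List.take_length]
  · intro j hj
    refine ⟨P j, (nx (lst j)).2, ?_, ?_⟩
    · rw [hl]
      simp only [List.getElem?_map, List.getElem?_range hj, Option.map_some]
    · have : l.take j = lst j := by
        rw [hl, ← List.map_take, List.take_range, min_eq_left hj.le, hmap]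
      rw [this, srch_enc]
      exact hnx (lst j)

end Pool.Agent.CB9
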