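import Pool.Agent.CB9.Levels

namespace Pool.Agent.CB9

/-! ### Open and clopen predicates on Cantor space -/

theorem open_exists {α : Sort*} {p : α → Om → Prop} (h : ∀ a, IsOpen {Y | p a Y}) :
    IsOpen {Y | ∃ a, p a Y} := by
  have : {Y | ∃ a, p a Y} = ⋃ a, {Y | p a Y} := by
    ext Y
    simp
  rw [this]
  exact isOpen_iUnion h

theorem open_or {p q : Om → Prop} (h : IsOpen {Y | p Y}) (h' : IsOpen {Y | q Y}) :
    IsOpen {Y | p Y ∨ q Y} := h.union h'

theorem open_and {p q : Om → Prop} (h : IsOpen {Y | p Y}) (h' : IsOpen {Y | q Y}) :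
    IsOpen {Y | p Y ∧ q Y} := h.inter h'

theorem open_ball {α : Type*} {p : α → Om → Prop} (s : Finset α)
    (h : ∀ a ∈ s, IsOpen {Y | p a Y}) : IsOpen {Y | ∀ a ∈ s, p a Y} := by
  have : {Y | ∀ a ∈ s, p a Y} = ⋂ a ∈ s, {Y | p a Y} := by
    ext Y
    simp
  rw [this]
  exact isOpen_biInter_finset h

theorem open_ballL {α : Type*} {p : α → Om → Prop} (s : List α)
    (h : ∀ a ∈ s, IsOpen {Y | p a Y}) : IsOpen {Y | ∀ a ∈ s, p a Y} := by
  classical
  have := open_ball (p := p) s.toFinset (fun a ha => h a (List.mem_toFinset.1 ha))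
  simpa using this

theorem open_bex {α : Type*} {p : α → Om → Prop} (s : α → Prop)
    (h : ∀ a, s a → IsOpen {Y | p a Y}) : IsOpen {Y | ∃ a, s a ∧ p a Y} := by
  refine open_exists fun a => ?_
  by_cases ha : s a
  · simpa [ha] using h a ha
  · simp [ha]

theorem open_blt {p : ℕ → Om → Prop} (n : ℕ) (h : ∀ a < n, IsOpen {Y | p a Y}) :
    IsOpen {Y | ∀ a < n, p a Y} := by
  have := open_ball (p := p) (Finset.range n) (fun a ha => h a (Finset.mem_range.1 ha))
  simpa using this

theorem clopen_const (p : Prop) : IsClopen {_Y : Om | p} := by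
  by_cases h : p <;> simp [h, isClopen_univ, isClopen_empty]

theorem clopen_and {p q : Om → Prop} (h : IsClopen {Y | p Y}) (h' : IsClopen {Y | q Y}) :
    IsClopen {Y | p Y ∧ q Y} := h.inter h'

theorem clopen_not {p : Om → Prop} (h : IsClopen {Y | p Y}) :
    IsClopen {Y | ¬ p Y} := h.compl

theorem clopen_or {p q : Om → Prop} (h : IsClopen {Y | p Y}) (h' : IsClopen {Y | q Y}) :
    IsClopen {Y | p Y ∨ q Y} := h.union h'

theorem clopen_imp {p q : Om → Prop} (h : IsClopen {Y | p Y}) (h' : IsClopen {Y | q Y}) :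
    IsClopen {Y | p Y → q Y} := by
  have := clopen_or (clopen_not h) h'
  have h2 : {Y | p Y → q Y} = {Y | ¬ p Y ∨ q Y} := by
    ext Y
    exact imp_iff_not_or
  rw [h2]
  exact this

theorem clopen_impc {c : Prop} {q : Om → Prop} (h' : c → IsClopen {Y | q Y}) :
    IsClopen {Y | c → q Y} := by
  by_cases hc : c
  · simpa [hc] using h' hc
  · simp [hc, isClopen_univ]

theorem clopen_ball {α : Type*} {p : α → Om → Prop} (s : Finset α)
    (h : ∀ a ∈ s, IsClopen {Y | p a Y}) : IsClopen {Y | ∀ a ∈ s, p a Y} := by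
  have : {Y | ∀ a ∈ s, p a Y} = ⋂ a ∈ s, {Y | p a Y} := by
    ext Y
    simp
  rw [this]
  exact isClopen_biInter_finset h

theorem clopen_blt {p : ℕ → Om → Prop} (n : ℕ) (h : ∀ a < n, IsClopen {Y | p a Y}) :
    IsClopen {Y | ∀ a < n, p a Y} := by
  have := clopen_ball (p := p) (Finset.range n) (fun a ha => h a (Finset.mem_range.1 ha))
  simpa using this

theorem clopen_bit {x : Om → Om} (hx : Continuous x) (n : ℕ) (i : Bool) :
    IsClopen {Y | x Y n = i} :=
  (isClopen_discrete {i}).preimage ((continuous_apply n).comp hx)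

/-- Continuity of a map into Cantor space, bitwise. -/
theorem continuous_of_clopen {x : Om → Om} (h : ∀ n, IsClopen {Y | x Y n = true}) :
    Continuous x := by
  refine continuous_pi fun n => ?_
  exact (continuous_bool_rng true).2 (h n)

/-- A set depending on finitely many bits is clopen. -/
theorem clopen_of_dep {S : Set Om} (t : ℕ)
    (h : ∀ Z W : Om, (∀ i < t, W i = Z i) → Z ∈ S → W ∈ S) : IsClopen S := by
  have key : ∀ Z : Om, IsOpen {W : Om | ∀ i < t, W i = Z i} := fun Z =>
    (clopen_blt t fun i _ => clopen_bit continuous_id i (Z i)).isOpen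
  constructor
  · rw [← isOpen_compl_iff, isOpen_iff_forall_mem_open]
    intro Z hZ
    refine ⟨{W : Om | ∀ i < t, W i = Z i}, ?_, key Z, fun i _ => rfl⟩
    intro W hW hWS
    exact hZ (h W Z (fun i hi => (hW i hi).symm) hWS)
  · rw [isOpen_iff_forall_mem_open]
    intro Z hZ
    exact ⟨{W : Om | ∀ i < t, W i = Z i}, fun W hW => h Z W hW hZ, key Z, fun i _ => rfl⟩

/-- Finite use for open sets. -/
theorem exists_use {O : Set Om} (hO : IsOpen O) {Z : Om} (hZ : Z ∈ O) :
    ∃ t, ∀ W : Om, (∀ i < t, W i = Z i) → W ∈ O := by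
  classical
  obtain ⟨I, u, h1, h2⟩ := isOpen_pi_iff.1 hO Z hZ
  refine ⟨I.sup id + 1, fun W hW => h2 ?_⟩
  intro i hi
  have : i ≤ I.sup id := Finset.le_sup (f := id) hi
  rw [hW i (by omega)]
  exact (h1 i hi).2

theorem continuous_JJ {x y : Om → Om} (hx : Continuous x) (hy : Continuous y) :
    Continuous fun Y => J (x Y) (y Y) := by
  have h : Continuous fun Y => (x Y, y Y) := hx.prodMk hy
  exact continuous_J.comp h

/-! ### Sets, reals, colourings -/

/-- The set coded by a real. -/
def st (x : Om) : Set ℕ := {n | x n = true}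

open Classical in
/-- The real coding a set. -/
noncomputable def ind (S : Set ℕ) : Om := fun n => decide (n ∈ S)

theorem mem_st {x : Om} {n : ℕ} : n ∈ st x ↔ x n = true := Iff.rfl

@[simp] theorem st_ind (S : Set ℕ) : st (ind S) = S := by
  ext n
  simp [st, ind]

theorem ind_eq {S : Set ℕ} {x : Om} (h : ∀ n, x n = true ↔ n ∈ S) : x = ind S := by
  funext n
  by_cases hn : n ∈ S
  · rw [(h n).2 hn]
    simp [ind, hn]
  · have : ¬ (x n = true) := fun h' => hn ((h n).1 h')
    simp only [Bool.not_eq_true] at this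
    rw [this]
    simp [ind, hn]

/-- The colouring read off from a real. -/
def col (γ : Om) : ℕ → ℕ → Bool := fun x y => γ (Nat.pair x y)

/-- The outputs. -/
def out (𝓡 : ℕ → ℕ → Bool → Set Om) (f : Om) : ℕ → Set ℕ → ℕ → Prop :=
  fun e G u => J f (ind G) ∈ 𝓡 e u true

section
variable {γ f X S : Om → Om} (hγ : Continuous γ) (hf : Continuous f) (hX : Continuous X)
  (hS : Continuous S)

include hγ in
theorem clopen_Hom (c : Bool) (E : Finset ℕ) : IsClopen {Y | Hom (col (γ Y)) c ↑E} := by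
  unfold Hom
  refine clopen_ball E fun x _ => clopen_ball E fun y _ => clopen_impc fun _ => ?_
  exact clopen_bit hγ _ c

include hγ in
theorem clopen_HomI (c : Bool) (E D : Finset ℕ) :
    IsClopen {Y | Hom (col (γ Y)) c (↑E ∩ ↑D)} := by
  classical
  have := clopen_Hom hγ c (E ∩ D)
  simpa only [Finset.coe_inter] using this

include hγ in
theorem clopen_SH (E : Finset ℕ) : IsClopen {Y | SH (col (γ Y)) ↑E} := by
  unfold SH
  refine clopen_ball E fun x _ => clopen_ball E fun y _ => clopen_ball E fun z _ =>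
    clopen_impc fun _ => clopen_impc fun _ => clopen_not ?_
  exact clopen_and (clopen_bit hγ _ _) (clopen_and (clopen_bit hγ _ _) (clopen_bit hγ _ _))

include hS in
theorem clopen_sub (E : Finset ℕ) : IsClopen {Y | (↑E : Set ℕ) ⊆ st (S Y)} :=
  clopen_ball E fun x _ => clopen_bit hS x true

include hf in
theorem open_out {𝓡 : ℕ → ℕ → Bool → Set Om} (h𝓡 : ∀ e n i, IsOpen (𝓡 e n i)) (e : ℕ)
    (G : Set ℕ) (u : ℕ) : IsOpen {Y | out 𝓡 (f Y) e G u} := by
  unfold out
  exact (h𝓡 e u true).preimage (continuous_JJ hf continuous_const)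

include hf in
theorem open_Many {𝓡 : ℕ → ℕ → Bool → Set Om} (h𝓡 : ∀ e n i, IsOpen (𝓡 e n i)) (e : ℕ)
    (F : Finset ℕ) (k n : ℕ) (E : Finset ℕ) :
    IsOpen {Y | Many (out 𝓡 (f Y)) e F k n E} := by
  unfold Many
  refine open_exists fun O => open_and (clopen_const _).isOpen (open_ball O fun u _ => ?_)
  exact open_and (clopen_const _).isOpen (open_out hf h𝓡 e _ u)

include hγ hf hX in
theorem open_VP {𝓡 : ℕ → ℕ → Bool → Set Om} (h𝓡 : ∀ e n i, IsOpen (𝓡 e n i)) (e : ℕ)
    (F : Finset ℕ) (P : Pl) :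
    IsOpen {Y | VP (col (γ Y)) (out 𝓡 (f Y)) e F (st (X Y)) P} := by
  unfold VP
  refine open_and (open_ball P.Y fun y _ => (clopen_bit hX y true).isOpen)
    (open_ball P.O fun q _ => open_and (clopen_Hom hγ true q.1).isOpen
      (open_ball q.2 fun u _ => open_out hf h𝓡 e _ u))

include hγ hf hS in
theorem open_Hit {𝓡 : ℕ → ℕ → Bool → Set Om} (h𝓡 : ∀ e n i, IsOpen (𝓡 e n i)) (e : ℕ)
    (F : Finset ℕ) (n0 : ℕ) :
    IsOpen {Y | Hit (col (γ Y)) (out 𝓡 (f Y)) e F n0 (st (S Y))} := by
  unfold Hit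
  refine open_exists fun E => open_and (clopen_sub hS E).isOpen
    (open_and (clopen_SH hγ E).isOpen (open_exists fun u => open_and (clopen_const _).isOpen
      (open_out hf h𝓡 e _ u)))

include hγ hf hX in
theorem open_Rel {𝓡 : ℕ → ℕ → Bool → Set Om} (h𝓡 : ∀ e n i, IsOpen (𝓡 e n i)) (e e' : ℕ)
    (F F' : Finset ℕ) (v v' : Bool) (a : Asg) :
    IsOpen {Y | Rel (col (γ Y)) (out 𝓡 (f Y)) e e' F F' v v' (st (X Y)) a} := by
  unfold Rel
  refine open_exists fun T => open_and (open_ball T fun y _ => (clopen_bit hX y true).isOpen)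
    (open_ball _ fun D _ => open_or ?_ ?_)
  · refine open_exists fun E => open_and (clopen_const _).isOpen
      (open_and (clopen_const _).isOpen (open_and (clopen_Hom hγ true E).isOpen
      (open_exists fun w => open_and (clopen_const _).isOpen
      (open_and (clopen_const _).isOpen (open_out hf h𝓡 e _ w)))))
  · refine open_exists fun E => open_and (clopen_const _).isOpen
      (open_and (clopen_SH hγ E).isOpen (open_and (clopen_HomI hγ true E D).isOpen
      (open_exists fun w => open_and (clopen_const _).isOpen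
      (open_and (clopen_const _).isOpen (open_out hf h𝓡 e' _ w)))))

end

end Pool.Agent.CB9
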